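import Mathlib.Topology.Sheaves.Presheaf
import Mathlib.Data.Int.Star
import Mathlib.MeasureTheory.Measure.Haar.Basic
import Mathlib.Topology.Metrizable.Urysohn
import Mathlib.Dynamics.Ergodic.Action.Regular
import Mathlib.GroupTheory.Nilpotent
import Mathlib.RingTheory.PiTensorProduct
import Mathlib.Topology.Separation.CompletelyRegular
import Mathlib.Order.CompletePartialOrder
import Mathlib.Probability.Kernel.Disintegration.StandardBorel
import Mathlib.Tactic.Algebra.Basic

-- ======== part 0: formerly Pool.Agent.MP_ede9a8_lc.Hyp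
section MrgPart0

/-!
Hypersmooth relations and a marker-based union theorem.
-/

namespace Pool.Agent.MP_ede9a8_lc

open Set Function Filter MeasureTheory

/-- `E` is an increasing union of kernels of measurable real functions. -/
def Hyp {X : Type} [MeasurableSpace X] (E : X → X → Prop) : Prop :=
  ∃ f : ℕ → X → ℝ, (∀ n, Measurable (f n)) ∧
    (∀ n x y, f n x = f n y → f (n + 1) x = f (n + 1) y) ∧ ∀ x y, E x y ↔ ∃ n, f n x = f n y

lemma Hyp.comap {X Y : Type} [MeasurableSpace X] [MeasurableSpace Y] {E : X → X → Prop}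
    {F : Y → Y → Prop} (h : Hyp F) (φ : X → Y) (hφ : Measurable φ)
    (hE : ∀ x y, E x y ↔ F (φ x) (φ y)) : Hyp E := by
  obtain ⟨f, h1, h2, h3⟩ := h
  exact ⟨fun n x => f n (φ x), fun n => (h1 n).comp hφ, fun n x y => h2 n _ _,
    fun x y => (hE x y).trans (h3 _ _)⟩

lemma Hyp.label {X Y : Type} [MeasurableSpace X] [MeasurableSpace Y] {E : X → X → Prop}
    {F : Y → Y → Prop} (h : Hyp F) (φ : X → Y) (hφ : Measurable φ) (l : X → ℕ)
    (hl : Measurable l) (hE : ∀ x y, E x y ↔ l x = l y ∧ F (φ x) (φ y)) : Hyp E := by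
  obtain ⟨f, h1, h2, h3⟩ := h
  have he := measurableEmbedding_embeddingReal (ℕ × ℝ)
  refine ⟨fun n x => embeddingReal (ℕ × ℝ) (l x, f n (φ x)),
    fun n => he.measurable.comp (hl.prodMk ((h1 n).comp hφ)), fun n x y h => ?_, fun x y => ?_⟩
  · have := he.injective h
    simp only [Prod.mk.injEq] at this
    simp only [this.1, h2 n _ _ this.2]
  · rw [hE, h3]
    constructor
    · rintro ⟨a, n, b⟩
      exact ⟨n, by simp only [a, b]⟩
    · rintro ⟨n, h⟩
      have := he.injective h
      simp only [Prod.mk.injEq] at this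
      exact ⟨this.1, n, this.2⟩

lemma Hyp.of_liminf {X : Type} [MeasurableSpace X] {E : X → X → Prop} (T : ℕ → X → ℝ)
    (hT : ∀ n, Measurable (T n)) (hE : ∀ x y, E x y ↔ ∃ n, ∀ j, n ≤ j → T j x = T j y) :
    Hyp E := by
  have he := measurableEmbedding_embeddingReal (ℕ → ℝ)
  have key : ∀ n x y, embeddingReal (ℕ → ℝ) (fun j => T (n + j) x)
      = embeddingReal (ℕ → ℝ) (fun j => T (n + j) y) ↔ ∀ j, n ≤ j → T j x = T j y := by
    intro n x y
    rw [he.injective.eq_iff, funext_iff]
    constructor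
    · intro h j hj
      obtain ⟨i, rfl⟩ := Nat.exists_eq_add_of_le hj
      exact h i
    · intro h j
      exact h _ (Nat.le_add_right _ _)
  refine ⟨fun n x => embeddingReal (ℕ → ℝ) (fun j => T (n + j) x),
    fun n => he.measurable.comp (measurable_pi_lambda _ fun j => hT _), fun n x y h => ?_,
    fun x y => ?_⟩
  · rw [key] at h ⊢
    exact fun j hj => h j (by omega)
  · simp only [key, hE]

/-- iterated connecting maps -/
def iter {X : Type} (q : ℕ → X → X) : ℕ → X → X
  | 0 => id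
  | m + 1 => fun x => q m (iter q m x)

open Classical in
/-- the triangular array of maps -/
noncomputable def Psi {X : Type} (step : ℕ → (X → ℕ) → X → X)
    (pres : ℕ → (X → X) → X → Prop) : ℕ → ℕ → X → X
  | 0, _ => id
  | k + 1, m => fun x => Psi step pres k (m + 1)
      (step m (fun y => ∑ i : Fin k, if pres m (Psi step pres i (m + 1)) y then 1 else 0) x)
  termination_by k => k
  decreasing_by
    all_goals omega

open Classical in
/-- the candidate of least value -/
noncomputable def pick {X : Type} (e : X → ℝ) (cand : X → X → Prop) (x : X) : X :=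
  if h : ∃ y, cand x y ∧ ∀ z, cand x z → e y ≤ e z then h.choose else x

lemma pick_spec {X : Type} (e : X → ℝ) (cand : X → X → Prop) (x : X)
    (hf : {y | cand x y}.Finite) (hn : ∃ y, cand x y) :
    cand x (pick e cand x) ∧ ∀ z, cand x z → e (pick e cand x) ≤ e z := by
  have h : ∃ y, cand x y ∧ ∀ z, cand x z → e y ≤ e z := by
    obtain ⟨y, hy, h⟩ := Set.exists_min_image _ e hf hn
    exact ⟨y, hy, h⟩
  simp only [pick, dif_pos h]
  exact h.choose_spec

lemma measurable_pick {X : Type} [MeasurableSpace X] (e : X → ℝ) (he : Measurable e)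
    (hei : Injective e) (cand : X → X → Prop) (hc : MeasurableSet {p : X × X | cand p.1 p.2})
    (hf : ∀ x, {y | cand x y}.Finite) (hn : ∀ x, ∃ y, cand x y) (en : ℕ → X → X)
    (hen : ∀ i, Measurable (en i)) (hcov : ∀ x y, cand x y → ∃ i, en i x = y) :
    Measurable (pick e cand) := by
  classical
  let p : ℕ → X → Prop := fun i x => cand x (en i x) ∧ ∀ j, cand x (en j x) → e (en i x) ≤ e (en j x)
  have hcm : ∀ i, MeasurableSet {x | cand x (en i x)} := fun i =>
    (measurable_id.prodMk (hen i)) hc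
  have hp : ∀ i, MeasurableSet {x | p i x} := by
    intro i
    refine (hcm i).inter ?_
    have : {x | ∀ j, cand x (en j x) → e (en i x) ≤ e (en j x)}
        = ⋂ j, ({x | cand x (en j x)}ᶜ ∪ {x | e (en i x) ≤ e (en j x)}) := by
      ext x
      simp only [mem_ofPred_eq, mem_iInter, mem_union, mem_compl_iff, imp_iff_not_or]
    change MeasurableSet {x | ∀ j, cand x (en j x) → e (en i x) ≤ e (en j x)}
    rw [this]
    exact MeasurableSet.iInter fun j =>
      (hcm j).compl.union (measurableSet_le (he.comp (hen i)) (he.comp (hen j)))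
  have hex : ∀ x, ∃ i, p i x := by
    intro x
    obtain ⟨h1, h2⟩ := pick_spec e cand x (hf x) (hn x)
    obtain ⟨i, hi⟩ := hcov x _ h1
    exact ⟨i, hi ▸ h1, fun j hj => hi ▸ h2 _ hj⟩
  have : pick e cand = fun x => en (Nat.find (hex x)) x := by
    funext x
    obtain ⟨h1, h2⟩ := pick_spec e cand x (hf x) (hn x)
    obtain ⟨h3, h4⟩ := Nat.find_spec (hex x)
    obtain ⟨i, hi⟩ := hcov x _ h1
    exact hei (le_antisymm (h2 _ h3) (hi ▸ h4 i (hi ▸ h1)))
  rw [this]
  exact Measurable.find hen hp hex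

lemma finite_of_card_le {X : Type} {S : Set X} {g : ℕ}
    (h : ∀ s : Finset X, (∀ y ∈ s, y ∈ S) → s.card ≤ g) : S.Finite := by
  by_contra hS
  obtain ⟨s, hs, hc⟩ := Set.Infinite.exists_subset_card_eq hS (g + 1)
  have := h s fun y hy => hs hy
  omega

theorem union_thm {X : Type} [MeasurableSpace X] (e : X → ℝ) (he : Measurable e)
    (hei : Injective e) (near : ℕ → ℕ → X → X → Prop) (q : ℕ → X → X)
    (hq : ∀ m, Measurable (q m))
    (hmeas : ∀ m r, MeasurableSet {p : X × X | near m r p.1 p.2})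
    (hrefl : ∀ m r x, near m r x x) (hsymm : ∀ m r x y, near m r x y → near m r y x)
    (htri : ∀ m r s x y z, near m r x y → near m s y z → near m (r + s) x z)
    (hqn : ∀ m r x y, near m r x y → near (m + 1) r (q m x) (q m y))
    (hmark : ∀ m, ∃ g : ℕ, ∀ a, ∃ r, a ≤ r ∧ ∃ (M : Set X) (en : ℕ → X → X),
      MeasurableSet M ∧ (∀ i, Measurable (en i)) ∧ (∀ x, ∃ y ∈ M, near m r x y) ∧
      (∀ x, ∀ y ∈ M, near m (5 * r) x y → ∃ i, en i x = y) ∧
      (∀ x (s : Finset X), (∀ y ∈ s, y ∈ M ∧ near m (3 * r) x y) → s.card ≤ g)) :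
    Hyp (fun x y => ∃ m r, near m r (iter q m x) (iter q m y)) := by
  classical
  have hmono : ∀ m r s x y, near m r x y → r ≤ s → near m s x y := by
    intro m r s x y h hrs
    obtain ⟨t, rfl⟩ := Nat.exists_eq_add_of_le hrs
    exact htri m r t x y y h (hrefl m t y)
  choose g hg using hmark
  choose R hR M' en' hM' hen' hmax' hcov' hpack' using hg
  -- the scales
  let a : ℕ → ℕ := fun m => Nat.rec 0 (fun m am => 5 * R m ((g (m + 1) + 2) * (2 * am + 1)) + am + 1) m
  let b : ℕ → ℕ := fun m => (g (m + 1) + 2) * (2 * a m + 1)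
  let r : ℕ → ℕ := fun m => R m (b m)
  have ha : ∀ m, a (m + 1) = 5 * r m + a m + 1 := fun m => rfl
  have hr : ∀ m, (g (m + 1) + 2) * (2 * a m + 1) ≤ r m := fun m => hR m (b m)
  let M : ℕ → Set X := fun m => M' m (b m)
  let en : ℕ → ℕ → X → X := fun m => en' m (b m)
  have hM : ∀ m, MeasurableSet (M m) := fun m => hM' m (b m)
  have hen : ∀ m i, Measurable (en m i) := fun m => hen' m (b m)
  have hmax : ∀ m x, ∃ y ∈ M m, near m (r m) x y := fun m => hmax' m (b m)
  have hcov : ∀ m x, ∀ y ∈ M m, near m (5 * r m) x y → ∃ i, en m i x = y :=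
    fun m => hcov' m (b m)
  have hpack : ∀ m x (s : Finset X), (∀ y ∈ s, y ∈ M m ∧ near m (3 * r m) x y) → s.card ≤ g m :=
    fun m => hpack' m (b m)
  clear_value a r M en
  clear hM' hen' hmax' hcov' hpack' hR b
  let rad : ℕ → ℕ → ℕ := fun m j => r m + min j (g (m + 1) + 1) * (2 * a m + 1)
  have hrad1 : ∀ m j, r m ≤ rad m j := fun m j => Nat.le_add_right _ _
  have hrad2 : ∀ m j, rad m j + (2 * a m + 1) ≤ 2 * r m := by
    intro m j
    have h1 := hr m
    have h2 : min j (g (m + 1) + 1) * (2 * a m + 1) ≤ (g (m + 1) + 1) * (2 * a m + 1) :=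
      Nat.mul_le_mul_right _ (min_le_right _ _)
    simp only [rad]
    nlinarith
  have har : ∀ m, 2 * a m + 1 ≤ r m := by
    intro m
    have := hrad1 m 0
    have := hrad2 m 0
    omega
  let cand : ℕ → (X → ℕ) → X → X → Prop := fun m J x y => y ∈ M m ∧ near m (rad m (J y)) x y
  have hcf : ∀ m J x, {y | cand m J x y}.Finite := by
    intro m J x
    refine finite_of_card_le (g := g m) fun s hs => hpack m x s fun y hy => ⟨(hs y hy).1, ?_⟩
    refine hmono _ _ _ _ _ (hs y hy).2 ?_
    have := hrad2 m (J y)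
    omega
  have hcn : ∀ m J x, ∃ y, cand m J x y := by
    intro m J x
    obtain ⟨y, hy, h⟩ := hmax m x
    exact ⟨y, hy, hmono _ _ _ _ _ h (hrad1 _ _)⟩
  let π : ℕ → (X → ℕ) → X → X := fun m J => pick e (cand m J)
  have hπ : ∀ m J x, cand m J x (π m J x) ∧ ∀ z, cand m J x z → e (π m J x) ≤ e z :=
    fun m J x => pick_spec e _ x (hcf m J x) (hcn m J x)
  have hπn : ∀ m J x, near m (2 * r m) x (π m J x) := by
    intro m J x
    refine hmono _ _ _ _ _ (hπ m J x).1.2 ?_
    have := hrad2 m (J (π m J x))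
    omega
  have hπm : ∀ m J, Measurable J → Measurable (π m J) := by
    intro m J hJ
    refine measurable_pick e he hei _ ?_ (hcf m J) (hcn m J) (en m) (hen m) ?_
    · have : {p : X × X | cand m J p.1 p.2}
          = ⋃ j : ℕ, (Prod.snd ⁻¹' M m ∩ (Prod.snd ⁻¹' (J ⁻¹' {j}) ∩
            {p : X × X | near m (rad m j) p.1 p.2})) := by
        ext p
        simp [cand]
      rw [this]
      exact MeasurableSet.iUnion fun j => (measurable_snd (hM m)).inter
        ((measurable_snd (hJ (measurableSet_singleton j))).inter (hmeas m _))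
    · intro x y hy
      refine hcov m x y hy.1 (hmono _ _ _ _ _ hy.2 ?_)
      have := hrad2 m (J y)
      omega
  let pres : ℕ → (X → X) → X → Prop := fun m φ y =>
    ∃ y' ∈ M m, near m (5 * r m) y y' ∧ φ (q m y') ≠ φ (q m y)
  have hpresm : ∀ m φ, Measurable φ → MeasurableSet {y | pres m φ y} := by
    intro m φ hφ
    have : {y | pres m φ y} = ⋃ i, (en m i ⁻¹' M m ∩ ({y | near m (5 * r m) y (en m i y)} ∩
        {y | e (φ (q m (en m i y))) = e (φ (q m y))}ᶜ)) := by
      ext y
      simp only [pres, mem_ofPred_eq, mem_iUnion, mem_inter_iff, mem_preimage, mem_compl_iff,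
        hei.eq_iff]
      constructor
      · rintro ⟨y', h1, h2, h3⟩
        obtain ⟨i, rfl⟩ := hcov m y y' h1 h2
        exact ⟨i, h1, h2, h3⟩
      · rintro ⟨i, h1, h2, h3⟩
        exact ⟨_, h1, h2, h3⟩
    rw [this]
    refine MeasurableSet.iUnion fun i => (hen m i (hM m)).inter (MeasurableSet.inter ?_ ?_)
    · exact (measurable_id.prodMk (hen m i)) (hmeas m _)
    · exact (measurableSet_eq_fun (he.comp (hφ.comp ((hq m).comp (hen m i))))
        (he.comp (hφ.comp (hq m)))).compl
  let step : ℕ → (X → ℕ) → X → X := fun m J x => q m (π m J x)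
  let Ψ := Psi step pres
  let J : ℕ → ℕ → X → ℕ := fun k m y =>
    ((Finset.range k).filter (fun i => pres m (Ψ i (m + 1)) y)).card
  have hΨ0 : ∀ m, Ψ 0 m = id := fun m => by simp only [Ψ, Psi]
  have hΨs : ∀ k m x, Ψ (k + 1) m x = Ψ k (m + 1) (q m (π m (J k m) x)) := by
    intro k m x
    have : (fun y => ∑ i : Fin k, if pres m (Psi step pres i (m + 1)) y then 1 else 0)
        = J k m := by
      funext y
      simp only [J, Finset.card_filter]
      exact Fin.sum_univ_eq_sum_range (fun i => if pres m (Ψ i (m + 1)) y then 1 else 0) k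
    simp only [Ψ]
    rw [Psi, this]
  have hΨm : ∀ k m, Measurable (Ψ k m) := by
    intro k
    induction k using Nat.strong_induction_on with
    | _ k ih =>
      intro m
      cases k with
      | zero => rw [hΨ0]; exact measurable_id
      | succ k =>
        have hJ : Measurable (J k m) := by
          simp only [J, Finset.card_filter]
          refine Finset.measurable_sum _ fun i hi => ?_
          exact Measurable.ite (hpresm m _ (ih i (by simp at hi; omega) _)) measurable_const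
            measurable_const
        have : Ψ (k + 1) m = fun x => Ψ k (m + 1) (q m (π m (J k m) x)) := funext (hΨs k m)
        rw [this]
        exact (ih k (by omega) _).comp ((hq m).comp (hπm m _ hJ))
  -- the invariant
  have inv : ∀ N m x, ((Finset.range N).filter
      (fun i => ∃ x', near m (a m) x x' ∧ Ψ (i + 1) m x' ≠ Ψ (i + 1) m x)).card ≤ g m := by
    intro N
    induction N with
    | zero => simp
    | succ N ih =>
      intro m x
      have hcount : ∀ y, J (N + 1) m y ≤ g (m + 1) + 1 := by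
        intro y
        have h1 := ih (m + 1) (q m y)
        simp only [J, Finset.card_filter] at h1 ⊢
        rw [Finset.sum_range_succ']
        refine add_le_add (le_trans (Finset.sum_le_sum fun i _ => ?_) h1) (by split_ifs <;> omega)
        split_ifs with h2 h3
        · omega
        · exfalso
          obtain ⟨y', -, h4, h5⟩ := h2
          refine h3 ⟨q m y', hmono _ _ _ _ _ (hqn _ _ _ _ h4) ?_, h5⟩
          rw [ha]
          omega
        · omega
        · omega
      have hJlt : ∀ y i j, i < j → pres m (Ψ i (m + 1)) y → J i m y < J j m y := by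
        intro y i j hij hp
        apply Finset.card_lt_card
        refine ⟨Finset.filter_subset_filter _ (Finset.range_mono hij.le), fun h => ?_⟩
        have : i ∈ (Finset.range i).filter (fun i => pres m (Ψ i (m + 1)) y) :=
          h (Finset.mem_filter.mpr ⟨Finset.mem_range.mpr hij, hp⟩)
        simp at this
      have hspoil : ∀ i, (∃ x', near m (a m) x x' ∧ Ψ (i + 1) m x' ≠ Ψ (i + 1) m x) →
          ∃ y ∈ M m, near m (rad m (J i m y) + a m) x y ∧ ¬ near m (rad m (J i m y) - a m) x y ∧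
            pres m (Ψ i (m + 1)) y := by
        rintro i ⟨x', hx', hne⟩
        rw [hΨs, hΨs] at hne
        have h1 : ∃ y ∈ M m, near m (rad m (J i m y) + a m) x y ∧
            ¬ near m (rad m (J i m y) - a m) x y := by
          by_contra hcon
          push Not at hcon
          have hiff : ∀ y, cand m (J i m) x y ↔ cand m (J i m) x' y := by
            intro y
            have e1 := hrad1 m (J i m y)
            have e2 := har m
            constructor
            · rintro ⟨h1, h2⟩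
              have h3 := hcon y h1 (hmono _ _ _ _ _ h2 (by omega))
              exact ⟨h1, hmono _ _ _ _ _ (htri _ _ _ _ _ _ (hsymm _ _ _ _ hx') h3) (by omega)⟩
            · rintro ⟨h1, h2⟩
              have h3 := hcon y h1 (hmono _ _ _ _ _ (htri _ _ _ _ _ _ hx' h2) (by omega))
              exact ⟨h1, hmono _ _ _ _ _ h3 (by omega)⟩
          apply hne
          have : π m (J i m) x' = π m (J i m) x :=
            hei (le_antisymm ((hπ m _ x').2 _ ((hiff _).mp (hπ m _ x).1))
              ((hπ m _ x).2 _ ((hiff _).mpr (hπ m _ x').1)))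
          rw [this]
        obtain ⟨y, hy, h2, h3⟩ := h1
        refine ⟨y, hy, h2, h3, ?_⟩
        have e1 := hrad2 m (J i m y)
        have e2 := har m
        by_cases h4 : Ψ i (m + 1) (q m (π m (J i m) x)) = Ψ i (m + 1) (q m y)
        · refine ⟨π m (J i m) x', (hπ m _ x').1.1, ?_, fun h => hne (h.trans h4.symm)⟩
          exact hmono _ _ _ _ _ (htri _ _ _ _ _ _ (htri _ _ _ _ _ _ (hsymm _ _ _ _ h2) hx')
            (hπn m _ x')) (by omega)
        · refine ⟨π m (J i m) x, (hπ m _ x).1.1, ?_, h4⟩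
          exact hmono _ _ _ _ _ (htri _ _ _ _ _ _ (hsymm _ _ _ _ h2) (hπn m _ x)) (by omega)
      have : Nonempty X := ⟨x⟩
      choose! y hy using hspoil
      set S := (Finset.range (N + 1)).filter
        (fun i => ∃ x', near m (a m) x x' ∧ Ψ (i + 1) m x' ≠ Ψ (i + 1) m x) with hS
      have hlt : ∀ i ∈ S, ∀ j ∈ S, i < j → y i ≠ y j := by
        intro i hi j hj hij heq
        obtain ⟨hi1, hi2⟩ := Finset.mem_filter.mp hi
        obtain ⟨hj1, hj2⟩ := Finset.mem_filter.mp hj
        obtain ⟨-, a2, -, a4⟩ := hy i hi2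
        obtain ⟨-, -, b3, b4⟩ := hy j hj2
        rw [← heq] at b3 b4
        have c1 := hJlt (y i) i j hij a4
        have c2 := hJlt (y i) j (N + 1) (Finset.mem_range.mp hj1) b4
        have c3 := hcount (y i)
        apply b3
        refine hmono _ _ _ _ _ a2 ?_
        have d1 : min (J i m (y i)) (g (m + 1) + 1) = J i m (y i) := min_eq_left (by omega)
        have d2 : min (J j m (y i)) (g (m + 1) + 1) = J j m (y i) := min_eq_left (by omega)
        have d3 : (J i m (y i) + 1) * (2 * a m + 1) ≤ J j m (y i) * (2 * a m + 1) :=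
          Nat.mul_le_mul_right _ c1
        simp only [rad, d1, d2]
        rw [add_mul] at d3
        omega
      have hinj : Set.InjOn y S := by
        intro i hi j hj heq
        rcases lt_trichotomy i j with h | h | h
        · exact absurd heq (hlt i hi j hj h)
        · exact h
        · exact absurd heq.symm (hlt j hj i hi h)
      rw [← Finset.card_image_of_injOn hinj]
      refine hpack m x _ fun z hz => ?_
      obtain ⟨i, hi, rfl⟩ := Finset.mem_image.mp hz
      obtain ⟨a1, a2, -, -⟩ := hy i (Finset.mem_filter.mp hi).2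
      refine ⟨a1, hmono _ _ _ _ _ a2 ?_⟩
      have e1 := hrad2 m (J i m (y i))
      omega
  let s : ℕ → ℕ := fun m => ∑ i ∈ Finset.range m, 2 * r i
  have hsa : ∀ m, s m + m ≤ a m := by
    intro m
    induction m with
    | zero => simp [s]
    | succ m ih =>
      simp only [s, Finset.sum_range_succ] at ih ⊢
      rw [ha]
      omega
  have hfac : ∀ m k, ∃ P : X → X, (∀ x, Ψ (m + k) 0 x = Ψ k m (P x)) ∧
      ∀ x, near m (s m) (iter q m x) (P x) := by
    intro m
    induction m with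
    | zero => intro k; exact ⟨id, fun x => by simp, fun x => hrefl _ _ _⟩
    | succ m ih =>
      intro k
      obtain ⟨P, h1, h2⟩ := ih (k + 1)
      refine ⟨fun x => q m (π m (J k m) (P x)), fun x => ?_, fun x => ?_⟩
      · rw [← hΨs, ← h1]
        congr 1
        omega
      · simp only [s, Finset.sum_range_succ, iter]
        exact hqn _ _ _ _ (htri _ _ _ _ _ _ (h2 x) (hπn m _ _))
  refine Hyp.of_liminf (fun n x => e (Ψ n 0 x)) (fun n => he.comp (hΨm n 0)) fun x y => ?_
  constructor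
  · rintro ⟨m0, r0, h0⟩
    have h1 : ∀ j, near (m0 + j) r0 (iter q (m0 + j) x) (iter q (m0 + j) y) := by
      intro j
      induction j with
      | zero => exact h0
      | succ j ih => exact hqn _ _ _ _ ih
    set m := m0 + r0 with hm
    have h2 := h1 r0
    have h3 : {i | ∃ x', near m (a m) (iter q m x) x' ∧
        Ψ (i + 1) m x' ≠ Ψ (i + 1) m (iter q m x)}.Finite := by
      refine finite_of_card_le (g := g m) fun t ht => ?_
      obtain ⟨N, hN⟩ := t.exists_nat_subset_range
      refine le_trans (Finset.card_le_card fun i hi => ?_) (inv N m (iter q m x))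
      exact Finset.mem_filter.mpr ⟨hN hi, ht i hi⟩
    obtain ⟨N, hN⟩ := h3.bddAbove
    refine ⟨m + N + 2, fun j hj => ?_⟩
    obtain ⟨i, rfl⟩ : ∃ i, j = m + (i + 1) := ⟨j - m - 1, by omega⟩
    obtain ⟨P, p1, p2⟩ := hfac m (i + 1)
    have h4 : ∀ x', near m (a m) (iter q m x) x' → Ψ (i + 1) m x' = Ψ (i + 1) m (iter q m x) := by
      intro x' hx'
      by_contra hne
      have := hN ⟨x', hx', hne⟩
      omega
    have e1 := hsa m
    rw [p1, p1, h4 _ (hmono _ _ _ _ _ (p2 x) (by omega)),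
      h4 _ (hmono _ _ _ _ _ (htri _ _ _ _ _ _ h2 (p2 y)) (by omega))]
  · rintro ⟨n, hn⟩
    obtain ⟨P, p1, p2⟩ := hfac n 0
    have h1 := hei (hn n le_rfl)
    have h2 := p1 x
    have h3 := p1 y
    simp only [add_zero, hΨ0, id] at h2 h3
    refine ⟨n, s n + s n, htri _ _ _ _ _ _ (p2 x) ?_⟩
    rw [← h2, h1, h3]
    exact hsymm _ _ _ _ (p2 y)

end Pool.Agent.MP_ede9a8_lc

end MrgPart0

-- ======== part 1: formerly Pool.Agent.MP_ede9a8_lc.Marker
section MrgPart1

/-!
Borel marker sets for free continuous actions of locally compact groups.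
-/

namespace Pool.Agent.MP_ede9a8_lc

open Set Function Filter MeasureTheory Topology Pointwise

lemma exists_lsc_inj (X : Type) [TopologicalSpace X] [T1Space X] [SecondCountableTopology X] :
    ∃ e : X → ℝ, Injective e ∧ LowerSemicontinuous e := by
  classical
  obtain ⟨B, hB⟩ : ∃ B : ℕ → Set X, (∀ n, IsOpen (B n)) ∧
      ∀ x y, x ≠ y → ∃ n, x ∈ B n ∧ y ∉ B n := by
    obtain ⟨b, hb1, -, hb3⟩ := TopologicalSpace.exists_countable_basis X
    obtain ⟨B, hB⟩ := (hb1.insert ∅).exists_eq_range (insert_nonempty _ _)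
    refine ⟨B, fun n => ?_, fun x y hxy => ?_⟩
    · have : B n ∈ insert ∅ b := hB ▸ mem_range_self n
      rcases this with h | h
      · rw [h]; exact isOpen_empty
      · exact hb3.isOpen h
    · obtain ⟨v, hv, h1, h2⟩ := hb3.exists_subset_of_mem_open (mem_compl_singleton_iff.mpr hxy)
        isOpen_compl_singleton
      have : v ∈ range B := hB ▸ mem_insert_of_mem _ hv
      obtain ⟨n, rfl⟩ := this
      exact ⟨n, h1, fun h => h2 h rfl⟩
  let f : X → ℕ → Bool := fun x n => decide (x ∈ B n)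
  have h1 : (0 : ℝ) < 1 / 3 := by norm_num
  refine ⟨fun x => Cardinal.cantorFunction (1 / 3) (f x), fun x y h => ?_, fun x t ht => ?_⟩
  · have := Cardinal.cantorFunction_injective h1 (by norm_num) h
    by_contra hne
    obtain ⟨n, a, b⟩ := hB.2 x y hne
    have := congrFun this n
    simp [f, a, b] at this
  · have hs := (Cardinal.summable_cantor_function (f x) h1.le (by norm_num)).hasSum.tendsto_sum_nat
    obtain ⟨N, hN⟩ := (hs.eventually (lt_mem_nhds ht)).exists
    have hev : ∀ᶠ y in 𝓝 x, ∀ n ∈ Finset.range N, x ∈ B n → y ∈ B n := by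
      rw [Filter.eventually_all_finset]
      intro n _
      by_cases hx : x ∈ B n
      · filter_upwards [(hB.1 n).mem_nhds hx] with y hy _ using hy
      · exact Eventually.of_forall fun y h => absurd h hx
    filter_upwards [hev] with y hy
    refine lt_of_lt_of_le hN (le_trans (Finset.sum_le_sum fun n hn => ?_)
      ((Cardinal.summable_cantor_function (f y) h1.le (by norm_num)).sum_le_tsum (Finset.range N)
        fun n _ => Cardinal.cantorFunctionAux_nonneg h1.le))
    by_cases hx : x ∈ B n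
    · exact (Cardinal.cantorFunctionAux_eq (by simp [f, hx, hy n hn hx])).le
    · rw [Cardinal.cantorFunctionAux_false (by simp [f, hx])]
      exact Cardinal.cantorFunctionAux_nonneg h1.le

lemma isClosed_exists_compact {H Y : Type} [TopologicalSpace H] [TopologicalSpace Y] {W : Set H}
    (hW : IsCompact W) {Z : Set (H × Y)} (hZ : IsClosed Z) :
    IsClosed {y | ∃ w ∈ W, (w, y) ∈ Z} := by
  have : CompactSpace W := isCompact_iff_compactSpace.mp hW
  have h1 : IsClosed {p : W × Y | ((p.1 : H), p.2) ∈ Z} :=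
    hZ.preimage (by fun_prop)
  have h2 := isClosedMap_snd_of_compactSpace _ h1
  convert h2 using 1
  ext y
  simp

variable {H X : Type} [Group H] [TopologicalSpace H] [IsTopologicalGroup H]
  [TopologicalSpace X] [T3Space X] [SecondCountableTopology X] [MeasurableSpace X] [BorelSpace X]
  [MulAction H X] [ContinuousSMul H X]

omit [IsTopologicalGroup H] in
lemma measurableSet_rel {K : Set H} (hK : IsCompact K) :
    MeasurableSet {p : X × X | ∃ k ∈ K, p.2 = k • p.1} := by
  have : IsClosed {p : X × X | ∃ k ∈ K, (k, p) ∈ {z : H × (X × X) | z.2.2 = z.1 • z.2.1}} :=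
    isClosed_exists_compact hK (isClosed_eq (by fun_prop) (by fun_prop))
  exact this.measurableSet

omit [IsTopologicalGroup H] in
lemma exists_selector {W : Set H} (hW : IsCompact W) {F : Set X} (hF : IsClosed F) :
    ∃ s : X → X, Measurable s ∧ (∀ x, (∃ w ∈ W, w • x ∈ F) → s x ∈ F ∧ ∃ w ∈ W, s x = w • x) ∧
      ∀ x y, (∃ w ∈ W, w • x ∈ F) → (∀ z ∈ F, (∃ w ∈ W, z = w • x) ↔ (∃ w ∈ W, z = w • y)) →
        s x = s y := by
  obtain ⟨e, hei, he⟩ := exists_lsc_inj X
  let cand : X → X → Prop := fun x y => y ∈ F ∧ ∃ w ∈ W, y = w • x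
  have hspec : ∀ x, (∃ w ∈ W, w • x ∈ F) →
      cand x (pick e cand x) ∧ ∀ z, cand x z → e (pick e cand x) ≤ e z := by
    rintro x ⟨w, hw, hx⟩
    have hc : IsCompact (F ∩ (fun w : H => w • x) '' W) :=
      (hW.image (by fun_prop)).inter_left hF
    obtain ⟨y, hy, hm⟩ := (he.lowerSemicontinuousOn _).exists_isMinOn
      (⟨w • x, hx, w, hw, rfl⟩ : (F ∩ (fun w : H => w • x) '' W).Nonempty) hc
    have h : ∃ y, cand x y ∧ ∀ z, cand x z → e y ≤ e z := by
      obtain ⟨hy1, w', hw', hy2⟩ := hy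
      refine ⟨y, ⟨hy1, w', hw', hy2.symm⟩, ?_⟩
      rintro z ⟨hz1, w'', hw'', hz2⟩
      exact hm ⟨hz1, w'', hw'', hz2.symm⟩
    simp only [pick, dif_pos h]
    exact h.choose_spec
  have hno : ∀ x, ¬ (∃ w ∈ W, w • x ∈ F) → pick e cand x = x := by
    intro x hx
    have h : ¬ ∃ y, cand x y ∧ ∀ z, cand x z → e y ≤ e z := by
      rintro ⟨y, ⟨h1, w, hw, rfl⟩, -⟩
      exact hx ⟨w, hw, h1⟩
    simp only [pick, dif_neg h]
  have hA : IsClosed {x : X | ∃ w ∈ W, w • x ∈ F} :=
    isClosed_exists_compact (Z := {z : H × X | z.1 • z.2 ∈ F}) hW (hF.preimage (by fun_prop))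
  have hZ : ∀ C : Set X, IsClosed C →
      IsClosed {p : X × ℝ | ∃ w ∈ W, w • p.1 ∈ F ∩ C ∧ e (w • p.1) ≤ p.2} := by
    intro C hC
    refine isClosed_exists_compact
      (Z := {z : H × (X × ℝ) | z.1 • z.2.1 ∈ F ∩ C ∧ e (z.1 • z.2.1) ≤ z.2.2}) hW ?_
    refine IsClosed.inter ((hF.inter hC).preimage (by fun_prop)) ?_
    exact he.isClosed_epigraph.preimage
      (f := fun z : H × (X × ℝ) => (z.1 • z.2.1, z.2.2)) (by fun_prop)
  have hm : Measurable fun x => e (pick e cand x) := by
    refine measurable_of_Iic fun t => ?_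
    have : (fun x => e (pick e cand x)) ⁻¹' Iic t
        = (fun x => (x, t)) ⁻¹' {p : X × ℝ | ∃ w ∈ W, w • p.1 ∈ F ∩ univ ∧ e (w • p.1) ≤ p.2}
          ∪ ({x : X | ∃ w ∈ W, w • x ∈ F}ᶜ ∩ e ⁻¹' Iic t) := by
      ext x
      simp only [mem_preimage, mem_Iic, mem_union, mem_ofPred_eq, inter_univ, mem_inter_iff,
        mem_compl_iff]
      by_cases hx : ∃ w ∈ W, w • x ∈ F
      · obtain ⟨⟨a1, w, hw, a2⟩, a3⟩ := hspec x hx
        constructor
        · intro h
          exact Or.inl ⟨w, hw, a2 ▸ a1, a2 ▸ h⟩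
        · rintro (⟨w', hw', b1, b2⟩ | ⟨h, -⟩)
          · exact (a3 _ ⟨b1, w', hw', rfl⟩).trans b2
          · exact absurd hx h
      · rw [hno x hx]
        constructor
        · intro h
          exact Or.inr ⟨hx, h⟩
        · rintro (⟨w', hw', b1, -⟩ | ⟨-, h⟩)
          · exact absurd ⟨w', hw', b1⟩ hx
          · exact h
    rw [this]
    exact ((hZ univ isClosed_univ).preimage (by fun_prop)).measurableSet.union
      (hA.measurableSet.compl.inter (he.measurable measurableSet_Iic))
  refine ⟨pick e cand, ?_, fun x hx => (hspec x hx).1, fun x y hx hxy => ?_⟩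
  · refine measurable_of_isClosed fun C hC => ?_
    have : pick e cand ⁻¹' C
        = (fun x => (x, e (pick e cand x))) ⁻¹'
            {p : X × ℝ | ∃ w ∈ W, w • p.1 ∈ F ∩ C ∧ e (w • p.1) ≤ p.2}
          ∪ ({x : X | ∃ w ∈ W, w • x ∈ F}ᶜ ∩ C) := by
      ext x
      simp only [mem_preimage, mem_union, mem_ofPred_eq, mem_inter_iff, mem_compl_iff]
      by_cases hx : ∃ w ∈ W, w • x ∈ F
      · obtain ⟨⟨a1, w, hw, a2⟩, a3⟩ := hspec x hx
        constructor
        · intro h
          exact Or.inl ⟨w, hw, ⟨a2 ▸ a1, a2 ▸ h⟩, (congrArg e a2).ge⟩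
        · rintro (⟨w', hw', ⟨b1, b3⟩, b2⟩ | ⟨h, -⟩)
          · have := hei (le_antisymm b2 (a3 _ ⟨b1, w', hw', rfl⟩))
            exact this ▸ b3
          · exact absurd hx h
      · rw [hno x hx]
        constructor
        · intro h
          exact Or.inr ⟨hx, h⟩
        · rintro (⟨w', hw', b1, -⟩ | ⟨-, h⟩)
          · exact absurd ⟨w', hw', b1.1⟩ hx
          · exact h
    rw [this]
    exact ((measurable_id.prodMk hm) (hZ C hC).measurableSet).union
      (hA.measurableSet.compl.inter hC.measurableSet)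
  · obtain ⟨a1, a2⟩ := hspec x hx
    have hy : ∃ w ∈ W, w • y ∈ F := by
      obtain ⟨w, hw, h⟩ := (hxy _ a1.1).mp a1.2
      exact ⟨w, hw, h ▸ a1.1⟩
    obtain ⟨b1, b2⟩ := hspec y hy
    exact hei (le_antisymm (a2 _ ⟨b1.1, (hxy _ b1.1).mpr b1.2⟩)
      (b2 _ ⟨a1.1, (hxy _ a1.1).mp a1.2⟩))

lemma exists_local_section [SecondCountableTopology H] (hfree : ∀ (h : H) (x : X), h • x = x → h = 1)
    {K W : Set H} (hK : IsCompact K) (hW : IsCompact W) (hW1 : W ∈ 𝓝 (1 : H))
    (hWs : ∀ w ∈ W, w⁻¹ ∈ W) (x₀ : X) :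
    ∃ F ∈ 𝓝 x₀, ∃ (S : Set X) (en : ℕ → X → X), MeasurableSet S ∧ (∀ i, Measurable (en i)) ∧
      (∀ x ∈ F, ∃ y ∈ S, ∃ w ∈ W, y = w • x) ∧
      (∀ x, ∀ y ∈ S, (∃ h : H, y = h • x) → ∃ i, en i x = y) ∧
      (∀ y ∈ S, ∀ y' ∈ S, (∃ k ∈ K, y' = k • y) → y' = y) := by
  have hc : IsCompact ((K ∪ W * W) ∩ (interior W)ᶜ) :=
    (hK.union (hW.mul hW)).inter_right isOpen_interior.isClosed_compl
  obtain ⟨O, hO, hO1, hO2⟩ : ∃ O : Set X, IsOpen O ∧ x₀ ∈ O ∧
      ∀ x ∈ O, ∀ y ∈ O, ∀ h ∈ K ∪ W * W, y = h • x → h ∈ W := by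
    have h1 : IsOpen {z : H × (X × X) | z.2.2 ≠ z.1 • z.2.1} :=
      isOpen_ne_fun (by fun_prop) (by fun_prop)
    obtain ⟨u, v, -, hv, hu1, hv1, huv⟩ := generalized_tube_lemma hc
      (isCompact_singleton (x := (x₀, x₀))) h1 (by
        rintro ⟨h, p⟩ ⟨⟨-, h2⟩, h3⟩
        have h3' : p = (x₀, x₀) := h3
        subst h3'
        intro h4
        have := hfree h x₀ h4.symm
        exact h2 (this ▸ mem_interior_iff_mem_nhds.mpr hW1))
    obtain ⟨A, B, hA, hA1, hB, hB1, hAB⟩ := mem_nhds_prod_iff'.mp (hv.mem_nhds (hv1 rfl))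
    refine ⟨A ∩ B, hA.inter hB, ⟨hA1, hB1⟩, fun x hx y hy h hh he => ?_⟩
    by_contra hne
    exact huv (mk_mem_prod (hu1 ⟨hh, fun h' => hne (interior_subset h')⟩)
      (hAB (mk_mem_prod hx.1 hy.2))) he
  obtain ⟨F, hF1, hF2, hF3⟩ := exists_mem_nhds_isClosed_subset (hO.mem_nhds hO1)
  obtain ⟨s, hs, s1, s2⟩ := exists_selector (H := H) hW hF2
  have hone : (1 : H) ∈ W := mem_of_mem_nhds hW1
  have key : ∀ x ∈ O, ∀ y ∈ F, (∃ w ∈ W, y = w • x) → s x = s y := by
    rintro x hx y hy ⟨w, hw, rfl⟩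
    refine s2 _ _ ⟨w, hw, hy⟩ fun z hz => ⟨?_, ?_⟩
    · rintro ⟨w', hw', rfl⟩
      have e : w' • x = (w' * w⁻¹) • w • x := by simp [mul_smul]
      exact ⟨w' * w⁻¹, hO2 _ (hF3 hy) _ (hF3 hz) _ (Or.inr (mul_mem_mul hw' (hWs w hw))) e, e⟩
    · rintro ⟨w', hw', rfl⟩
      have e : w' • w • x = (w' * w) • x := by simp [mul_smul]
      exact ⟨w' * w, hO2 _ hx _ (hF3 hz) _ (Or.inr (mul_mem_mul hw' hw)) e, e⟩
  obtain ⟨D, hD⟩ := TopologicalSpace.exists_dense_seq H
  refine ⟨F, hF1, F ∩ {y | s y = y}, fun i x => s (D i • x),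
    hF2.measurableSet.inter (measurableSet_eq_fun hs measurable_id),
    fun i => hs.comp (continuous_const_smul _).measurable, fun x hx => ?_, ?_, ?_⟩
  · obtain ⟨a1, a2⟩ := s1 x ⟨1, hone, by simpa using hx⟩
    exact ⟨s x, ⟨a1, (key x (hF3 hx) _ a1 a2).symm⟩, a2⟩
  · rintro x y ⟨hy1, hy2⟩ ⟨h, rfl⟩
    have h1 : IsOpen ({d : H | d • x ∈ O} ∩ {d : H | h * d⁻¹ ∈ interior W}) :=
      (hO.preimage (by fun_prop)).inter (isOpen_interior.preimage (by fun_prop))
    obtain ⟨i, hi1, hi2⟩ := hD.exists_mem_open h1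
      ⟨h, hF3 hy1, by simpa using mem_interior_iff_mem_nhds.mpr hW1⟩
    refine ⟨i, (key _ hi1 _ hy1 ⟨h * (D i)⁻¹, interior_subset hi2, by simp [mul_smul]⟩).trans hy2⟩
  · rintro y ⟨hy1, hy2⟩ y' ⟨hy1', hy2'⟩ ⟨k, hk, he⟩
    have := key y (hF3 hy1) y' hy1' ⟨k, hO2 _ (hF3 hy1) _ (hF3 hy1') _ (Or.inl hk) he, he⟩
    exact hy2'.symm.trans (this.symm.trans hy2)

theorem exists_markers [SecondCountableTopology H] (hfree : ∀ (h : H) (x : X), h • x = x → h = 1)
    {K W : Set H} (hK : IsCompact K) (hK1 : (1 : H) ∈ K) (hKs : ∀ k ∈ K, k⁻¹ ∈ K)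
    (hW : IsCompact W) (hW1 : W ∈ 𝓝 (1 : H)) (hWs : ∀ w ∈ W, w⁻¹ ∈ W) :
    ∃ (M : Set X) (en : ℕ → X → X), MeasurableSet M ∧ (∀ i, Measurable (en i)) ∧
      (∀ x, ∃ y ∈ M, ∃ h ∈ K * W, y = h • x) ∧
      (∀ x, ∀ y ∈ M, (∃ h : H, y = h • x) → ∃ i, en i x = y) ∧
      (∀ y ∈ M, ∀ y' ∈ M, (∃ k ∈ K, y' = k • y) → y' = y) := by
  rcases isEmpty_or_nonempty X with hX | hX
  · exact ⟨∅, fun _ => id, MeasurableSet.empty, fun _ => measurable_id, fun x => hX.elim x,
      fun x => hX.elim x, fun x => hX.elim x⟩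
  choose F hF S en hS hen h1 h2 h3 using exists_local_section hfree hK hW hW1 hWs
  obtain ⟨c, hc1, hc2⟩ := TopologicalSpace.countable_cover_nhds hF
  have hcne : c.Nonempty := by
    obtain ⟨x⟩ := hX
    have : x ∈ ⋃ y ∈ c, F y := hc2 ▸ mem_univ x
    simp only [mem_iUnion] at this
    obtain ⟨y, hy, -⟩ := this
    exact ⟨y, hy⟩
  obtain ⟨p, rfl⟩ := hc1.exists_eq_range hcne
  let en' : ℕ → X → X := fun i => en (p i.unpair.1) i.unpair.2
  have hen' : ∀ i, Measurable (en' i) := fun i => hen _ _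
  have hcov : ∀ x j, ∀ y ∈ S (p j), (∃ h : H, y = h • x) → ∃ i, en' i x = y := by
    intro x j y hy h
    obtain ⟨i, hi⟩ := h2 (p j) x y hy h
    exact ⟨Nat.pair j i, by simpa [en'] using hi⟩
  let Mk : ℕ → Set X := fun n => Nat.rec ∅
    (fun i Mi => Mi ∪ (S (p i) ∩ {y | ∃ y' ∈ Mi, ∃ k ∈ K, y' = k • y}ᶜ)) n
  have hMs : ∀ i, Mk (i + 1) = Mk i ∪ (S (p i) ∩ {y | ∃ y' ∈ Mk i, ∃ k ∈ K, y' = k • y}ᶜ) :=
    fun i => rfl
  have hM0 : Mk 0 = ∅ := rfl
  have hsub : ∀ i, ∀ y ∈ Mk i, ∃ j, y ∈ S (p j) := by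
    intro i
    induction i with
    | zero => simp [hM0]
    | succ i ih =>
      rintro y (hy | hy)
      · exact ih y hy
      · exact ⟨i, hy.1⟩
  have hmeas : ∀ i, MeasurableSet (Mk i) := by
    intro i
    induction i with
    | zero => simp [hM0]
    | succ i ih =>
      rw [hMs]
      refine ih.union ((hS _).inter (MeasurableSet.compl ?_))
      have : {y | ∃ y' ∈ Mk i, ∃ k ∈ K, y' = k • y} = ⋃ j, (en' j ⁻¹' Mk i ∩
          (fun y => (y, en' j y)) ⁻¹' {p : X × X | ∃ k ∈ K, p.2 = k • p.1}) := by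
        ext y
        simp only [mem_ofPred_eq, mem_iUnion, mem_inter_iff, mem_preimage]
        constructor
        · rintro ⟨y', a1, k, hk, a2⟩
          obtain ⟨j, hj⟩ := hsub i y' a1
          obtain ⟨l, rfl⟩ := hcov y j y' hj ⟨k, a2⟩
          exact ⟨l, a1, k, hk, a2⟩
        · rintro ⟨j, a1, a2⟩
          exact ⟨_, a1, a2⟩
      rw [this]
      exact MeasurableSet.iUnion fun j => (hen' j ih).inter
        ((measurable_id.prodMk (hen' j)) (measurableSet_rel hK))
  have hmono : Monotone Mk := monotone_nat_of_le_succ fun i => hMs i ▸ subset_union_left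
  have hsep : ∀ i, ∀ y ∈ Mk i, ∀ y' ∈ Mk i, (∃ k ∈ K, y' = k • y) → y' = y := by
    intro i
    induction i with
    | zero => simp [hM0]
    | succ i ih =>
      rintro y (hy | hy) y' (hy' | hy') ⟨k, hk, he⟩
      · exact ih y hy y' hy' ⟨k, hk, he⟩
      · exact absurd ⟨y, hy, k⁻¹, hKs k hk, by simp [he]⟩ hy'.2
      · exact absurd ⟨y', hy', k, hk, he⟩ hy.2
      · exact h3 _ y hy.1 y' hy'.1 ⟨k, hk, he⟩
  refine ⟨⋃ i, Mk i, en', MeasurableSet.iUnion hmeas, hen', fun x => ?_, fun x y hy h => ?_,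
    fun y hy y' hy' h => ?_⟩
  · have : x ∈ ⋃ y ∈ range p, F y := hc2 ▸ mem_univ x
    simp only [mem_iUnion] at this
    obtain ⟨_, ⟨i, rfl⟩, hx⟩ := this
    obtain ⟨y, hy, w, hw, rfl⟩ := h1 _ x hx
    rcases Classical.em (∃ y' ∈ Mk i, ∃ k ∈ K, y' = k • (w • x : X)) with h | h
    · obtain ⟨y', a1, k, hk, a2⟩ := h
      exact ⟨y', mem_iUnion.mpr ⟨i, a1⟩, k * w, mul_mem_mul hk hw, by rw [a2, mul_smul]⟩
    · exact ⟨w • x, mem_iUnion.mpr ⟨i + 1, Or.inr ⟨hy, h⟩⟩, 1 * w, mul_mem_mul hK1 hw, by simp⟩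
  · obtain ⟨i, hi⟩ := mem_iUnion.mp hy
    obtain ⟨j, hj⟩ := hsub i y hi
    exact hcov x j y hj h
  · obtain ⟨i, hi⟩ := mem_iUnion.mp hy
    obtain ⟨j, hj⟩ := mem_iUnion.mp hy'
    exact hsep (max i j) y (hmono (le_max_left _ _) hi) y' (hmono (le_max_right _ _) hj) h

end Pool.Agent.MP_ede9a8_lc

end MrgPart1

-- ======== part 2: formerly Pool.Agent.MP_ede9a8_lc.Growth
section MrgPart2

/-!
Polynomial growth of nilpotent groups, and hypersmoothness for direct systems of free actions of a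
locally compact nilpotent group.
-/

namespace Pool.Agent.MP_ede9a8_lc

open Set Function Filter MeasureTheory Topology Pointwise

section Growth

variable {H : Type} [Group H] [DecidableEq H]

/-- iterated commutators -/
def comms (F : Finset H) : ℕ → Finset H
  | 0 => F
  | i + 1 => Finset.image₂ (fun y x => y⁻¹ * x⁻¹ * y * x) (comms F i) F

/-- ordered products of powers -/
def ordProd : List H → ℕ → Finset H
  | [], _ => {1}
  | z :: l, n => Finset.image₂ (fun i y => z ^ i * y) (Finset.range (n + 1)) (ordProd l n)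

lemma card_ordProd (l : List H) (n : ℕ) : (ordProd l n).card ≤ (n + 1) ^ l.length := by
  induction l with
  | nil => simp [ordProd]
  | cons z l ih =>
    refine (Finset.card_image₂_le _ _ _).trans ?_
    rw [Finset.card_range, List.length_cons, pow_succ']
    exact Nat.mul_le_mul_left _ ih

lemma ordProd_mono (l : List H) (n : ℕ) : ordProd l n ⊆ ordProd l (n + 1) := by
  induction l with
  | nil => simp [ordProd]
  | cons z l ih => exact Finset.image₂_subset (Finset.range_mono (by omega)) ih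

lemma one_mem_ordProd (l : List H) (n : ℕ) : (1 : H) ∈ ordProd l n := by
  induction l with
  | nil => simp [ordProd]
  | cons z l ih => exact Finset.mem_image₂.mpr ⟨0, by simp, 1, ih, by simp⟩

lemma mul_mem_pow_add {L : Finset H} {a b : H} {m n : ℕ} (ha : a ∈ L ^ m) (hb : b ∈ L ^ n) :
    a * b ∈ L ^ (m + n) := by
  rw [pow_add]
  exact Finset.mul_mem_mul ha hb

lemma ordProd_subset {F : Finset H} (h1 : (1 : H) ∈ F) (l : List H) (hl : ∀ x ∈ l, x ∈ F) (n : ℕ) :
    ordProd l n ⊆ F ^ (n * l.length) := by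
  induction l with
  | nil => simp [ordProd]
  | cons z l ih =>
    intro p hp
    obtain ⟨i, hi, y, hy, rfl⟩ := Finset.mem_image₂.mp hp
    have h2 := mul_mem_pow_add (Finset.pow_mem_pow (n := i) (hl z (by simp)))
      (ih (fun x hx => hl x (by simp [hx])) hy)
    refine Finset.pow_subset_pow_right h1 ?_ h2
    have := Finset.mem_range.mp hi
    rw [List.length_cons, mul_add]
    omega

lemma growth_step (C : ℕ → Subgroup H) (c : ℕ) (hanti : Antitone C)
    (hC : ∀ i, ∀ x ∈ C i, ∀ g, x⁻¹ * g⁻¹ * x * g ∈ C (i + 1)) (hc : C c = ⊥) (j : ℕ)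
    (F : Finset H) (h1 : (1 : H) ∈ F) (hF : ∀ x ∈ F, x ∈ C j) :
    ∃ L : Finset H, (∀ x ∈ L, x ∈ C (j + 1)) ∧ (1 : H) ∈ L ∧ ∃ A D : ℕ, ∀ n,
      (F ^ n).card ≤ (n + 1) ^ F.card * (L ^ (A * (n + 1) ^ D)).card := by
  have hcm : ∀ i, ∀ y ∈ comms F i, y ∈ C (j + i) := by
    intro i
    induction i with
    | zero => exact hF
    | succ i ih =>
      intro y hy
      obtain ⟨a, ha, b, -, rfl⟩ := Finset.mem_image₂.mp hy
      exact hC _ _ (ih a ha) _
  have hone : ∀ i, c ≤ i → ∀ y ∈ comms F i, y = 1 := by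
    intro i hi y hy
    have := hanti (show c ≤ j + i by omega) (hcm i y hy)
    rwa [hc, Subgroup.mem_bot] at this
  let L : Finset H := insert 1 ((Finset.range c).biUnion fun i => comms F (i + 1))
  have hL1 : (1 : H) ∈ L := Finset.mem_insert_self _ _
  have hLm : ∀ i, ∀ y ∈ comms F (i + 1), y ∈ L := by
    intro i y hy
    by_cases hi : i < c
    · exact Finset.mem_insert_of_mem (Finset.mem_biUnion.mpr ⟨i, Finset.mem_range.mpr hi, hy⟩)
    · rw [hone (i + 1) (by omega) y hy]
      exact hL1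
  have conj1 : ∀ d i, c ≤ i + d → ∀ n, ∀ y ∈ comms F (i + 1), ∀ w ∈ F ^ n,
      w⁻¹ * y * w ∈ L ^ ((n + 1) ^ d) := by
    intro d
    induction d with
    | zero =>
      intro i hi n y hy w _
      rw [hone (i + 1) (by omega) y hy]
      simpa using hL1
    | succ d ihd =>
      intro i hi n
      induction n with
      | zero =>
        intro y hy w hw
        have : w = 1 := by simpa using hw
        subst this
        simpa using hLm i y hy
      | succ n ihn =>
        intro y hy w hw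
        rw [pow_succ'] at hw
        obtain ⟨x, hx, w', hw', rfl⟩ := Finset.mem_mul.mp hw
        have a1 := ihn y hy w' hw'
        have a2 := ihd (i + 1) (by omega) n _ (Finset.mem_image₂.mpr ⟨y, hy, x, hx, rfl⟩) w' hw'
        have a3 := mul_mem_pow_add a1 a2
        have e : (x * w')⁻¹ * y * (x * w')
            = w'⁻¹ * y * w' * (w'⁻¹ * (y⁻¹ * x⁻¹ * y * x) * w') := by group
        rw [e]
        refine Finset.pow_subset_pow_right hL1 ?_ a3
        calc (n + 1) ^ (d + 1) + (n + 1) ^ d = (n + 1) ^ d * (n + 1 + 1) := by ring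
          _ ≤ (n + 1 + 1) ^ d * (n + 1 + 1) :=
            Nat.mul_le_mul_right _ (Nat.pow_le_pow_left (by omega) _)
          _ = _ := by ring
  have conj2 : ∀ n, ∀ y ∈ L, ∀ w ∈ F ^ n, w⁻¹ * y * w ∈ L ^ ((n + 1) ^ c) := by
    intro n y hy w hw
    rcases Finset.mem_insert.mp hy with rfl | hy
    · simpa using Finset.one_mem_pow hL1
    · obtain ⟨i, -, hi⟩ := Finset.mem_biUnion.mp hy
      exact conj1 c i (by omega) n y hi w hw
  have conj3 : ∀ n m, ∀ v ∈ L ^ m, ∀ w ∈ F ^ n, w⁻¹ * v * w ∈ L ^ (m * (n + 1) ^ c) := by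
    intro n m
    induction m with
    | zero =>
      intro v hv w _
      have : v = 1 := by simpa using hv
      subst this
      simp
    | succ m ih =>
      intro v hv w hw
      rw [pow_succ] at hv
      obtain ⟨v', hv', y, hy, rfl⟩ := Finset.mem_mul.mp hv
      have a := mul_mem_pow_add (ih v' hv' w hw) (conj2 n y hy w hw)
      have e : w⁻¹ * (v' * y) * w = w⁻¹ * v' * w * (w⁻¹ * y * w) := by group
      rw [e, add_mul, one_mul]
      exact a
  have conj4 : ∀ n, ∀ x ∈ F, ∀ w ∈ F ^ n, x⁻¹ * (w⁻¹ * x * w) ∈ L ^ (n * (n + 1) ^ c) := by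
    intro n x hx
    induction n with
    | zero =>
      intro w hw
      have : w = 1 := by simpa using hw
      subst this
      simp
    | succ n ih =>
      intro w hw
      rw [pow_succ'] at hw
      obtain ⟨x', hx', w', hw', rfl⟩ := Finset.mem_mul.mp hw
      have a2 := conj2 n _ (hLm 0 _ (Finset.mem_image₂.mpr ⟨x, hx, x', hx', rfl⟩)) w' hw'
      have a3 := mul_mem_pow_add (ih w' hw') a2
      have e : x⁻¹ * ((x' * w')⁻¹ * x * (x' * w'))
          = x⁻¹ * (w'⁻¹ * x * w') * (w'⁻¹ * (x⁻¹ * x'⁻¹ * x * x') * w') := by group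
      rw [e]
      refine Finset.pow_subset_pow_right hL1 ?_ a3
      calc n * (n + 1) ^ c + (n + 1) ^ c = (n + 1) * (n + 1) ^ c := by ring
        _ ≤ _ := Nat.mul_le_mul_left _ (Nat.pow_le_pow_left (by omega) _)
  let r := F.card
  let Λ : ℕ → ℕ := fun n => ((r + 1) * (n + 1)) ^ (2 * c + 1)
  have ins : ∀ n, ∀ l : List H, (∀ x ∈ l, x ∈ F) → l.length ≤ r → ∀ x ∈ l, ∀ p ∈ ordProd l n,
      ∃ p' ∈ ordProd l (n + 1), ∃ v ∈ L ^ (l.length * Λ n), x * p = p' * v := by
    intro n l
    induction l with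
    | nil => simp
    | cons z l ih =>
      intro hl hr x hx p hp
      obtain ⟨i, hi, y, hy, rfl⟩ := Finset.mem_image₂.mp hp
      have hi' := Finset.mem_range.mp hi
      by_cases hxz : x = z
      · subst hxz
        refine ⟨x ^ (i + 1) * y, Finset.mem_image₂.mpr ⟨i + 1, by simp; omega, y,
          ordProd_mono l n hy, rfl⟩, 1, Finset.one_mem_pow hL1, by group⟩
      · have hxl : x ∈ l := by simpa [hxz] using hx
        have hl' : ∀ x ∈ l, x ∈ F := fun x hx => hl x (by simp [hx])
        simp only [List.length_cons] at hr ⊢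
        obtain ⟨p', hp', v', hv', he⟩ := ih hl' (by omega) x hxl y hy
        have b1 : z ^ i ∈ F ^ n := Finset.pow_subset_pow_right h1 (by omega)
          (Finset.pow_mem_pow (n := i) (hl z (by simp)))
        have b2 := conj3 _ _ _ (conj4 n x (hl' x hxl) _ b1) y (ordProd_subset h1 l hl' n hy)
        refine ⟨z ^ i * p', Finset.mem_image₂.mpr ⟨i, by simp; omega, p', hp', rfl⟩, _,
          Finset.pow_subset_pow_right hL1 ?_ (mul_mem_pow_add hv' b2), ?_⟩
        · rw [add_mul, one_mul]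
          refine Nat.add_le_add_left ?_ _
          have c1 : n ≤ (r + 1) * (n + 1) := by nlinarith
          have c2 : n + 1 ≤ (r + 1) * (n + 1) := by nlinarith
          have c3 : n * l.length + 1 ≤ (r + 1) * (n + 1) := by nlinarith
          calc n * (n + 1) ^ c * (n * l.length + 1) ^ c
              ≤ ((r + 1) * (n + 1)) * ((r + 1) * (n + 1)) ^ c * ((r + 1) * (n + 1)) ^ c := by
                gcongr
            _ = Λ n := by simp only [Λ]; ring
        · have e : x * (z ^ i * y)
              = z ^ i * (x * y) * (y⁻¹ * (x⁻¹ * ((z ^ i)⁻¹ * x * z ^ i)) * y) := by group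
          rw [e, he]
          group
  have main : ∀ n, ∀ w ∈ F ^ n, ∃ p ∈ ordProd F.toList n, ∃ v ∈ L ^ (n * (r * Λ n)),
      w = p * v := by
    intro n
    induction n with
    | zero =>
      intro w hw
      exact ⟨1, one_mem_ordProd _ _, w, by simpa using hw, by simp⟩
    | succ n ih =>
      intro w hw
      rw [pow_succ'] at hw
      obtain ⟨x, hx, w', hw', rfl⟩ := Finset.mem_mul.mp hw
      obtain ⟨p, hp, v, hv, rfl⟩ := ih w' hw'
      obtain ⟨p', hp', v', hv', he⟩ := ins n F.toList (by simp) (by simp [r]) x (by simpa using hx)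
        p hp
      refine ⟨p', hp', v' * v, Finset.pow_subset_pow_right hL1 ?_ (mul_mem_pow_add hv' hv), by
        rw [← mul_assoc, he, mul_assoc]⟩
      have : Λ n ≤ Λ (n + 1) := by
        simp only [Λ]
        gcongr
        omega
      rw [Finset.length_toList]
      calc F.card * Λ n + n * (r * Λ n) = (n + 1) * (r * Λ n) := by simp only [r]; ring
        _ ≤ _ := by gcongr
  refine ⟨L, fun x hx => ?_, hL1, (r + 1) ^ (2 * c + 2), 2 * c + 2, fun n => ?_⟩
  · rcases Finset.mem_insert.mp hx with rfl | hx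
    · exact one_mem _
    · obtain ⟨i, -, hi⟩ := Finset.mem_biUnion.mp hx
      exact hanti (by omega) (hcm _ _ hi)
  · have : F ^ n ⊆ ordProd F.toList n * L ^ ((r + 1) ^ (2 * c + 2) * (n + 1) ^ (2 * c + 2)) := by
      intro w hw
      obtain ⟨p, hp, v, hv, rfl⟩ := main n w hw
      refine Finset.mul_mem_mul hp (Finset.pow_subset_pow_right hL1 ?_ hv)
      have c1 : n * r ≤ (r + 1) * (n + 1) := by nlinarith
      calc n * (r * Λ n) = (n * r) * Λ n := by ring
        _ ≤ ((r + 1) * (n + 1)) * Λ n := by gcongr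
        _ = _ := by simp only [Λ]; rw [← mul_pow, ← pow_succ']
    refine (Finset.card_le_card this).trans (Finset.card_mul_le.trans ?_)
    refine Nat.mul_le_mul_right _ ?_
    simpa using card_ordProd F.toList n

theorem poly_growth [Group.IsNilpotent H] (F : Finset H) :
    ∃ A D : ℕ, ∀ n, (F ^ n).card ≤ A * (n + 1) ^ D := by
  obtain ⟨c, hc⟩ := Subgroup.nilpotent_iff_lowerCentralSeries.mp ‹Group.IsNilpotent H›
  let C := (⊤ : Subgroup H).lowerCentralSeries
  have hC : ∀ i, ∀ x ∈ C i, ∀ g, x⁻¹ * g⁻¹ * x * g ∈ C (i + 1) := by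
    intro i x hx g
    have := Subgroup.commutator_mem_commutator (inv_mem hx) (Subgroup.mem_top g⁻¹)
    rw [commutatorElement_def, inv_inv, inv_inv] at this
    exact this
  have main : ∀ d j, j + d = c → ∀ F : Finset H, (1 : H) ∈ F → (∀ x ∈ F, x ∈ C j) →
      ∃ A D : ℕ, ∀ n, (F ^ n).card ≤ A * (n + 1) ^ D := by
    intro d
    induction d with
    | zero =>
      intro j hj F h1 hF
      have : F = 1 := by
        refine Finset.eq_singleton_iff_unique_mem.mpr ⟨h1, fun x hx => ?_⟩
        have := hF x hx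
        have hj' : j = c := by omega
        rw [hj'] at this
        simpa [C, hc] using this
      exact ⟨1, 0, fun n => by simp [this]⟩
    | succ d ih =>
      intro j hj F h1 hF
      obtain ⟨L, hL, hL1, A, D, h⟩ := growth_step C c (Subgroup.lowerCentralSeries_antitone ⊤) hC hc
        j F h1 hF
      obtain ⟨A', D', h'⟩ := ih (j + 1) (by omega) L hL1 hL
      refine ⟨A' * (A + 1) ^ D', F.card + D * D', fun n => (h n).trans ?_⟩
      have e1 : A * (n + 1) ^ D + 1 ≤ (A + 1) * (n + 1) ^ D := by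
        have : 1 ≤ (n + 1) ^ D := Nat.one_le_pow _ _ (by omega)
        nlinarith
      calc (n + 1) ^ F.card * (L ^ (A * (n + 1) ^ D)).card
          ≤ (n + 1) ^ F.card * (A' * ((A + 1) * (n + 1) ^ D) ^ D') := by
            gcongr
            exact (h' _).trans (by gcongr)
        _ = _ := by rw [mul_pow, ← pow_mul, pow_add]; ring
  obtain ⟨A, D, h⟩ := main c 0 (by simp) (insert 1 F) (Finset.mem_insert_self _ _)
    (fun x _ => Subgroup.mem_top x)
  exact ⟨A, D, fun n => (Finset.card_le_card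
    (Finset.pow_subset_pow_left (Finset.subset_insert _ _))).trans (h n)⟩

end Growth

section Doubling

variable {H : Type} [Group H] [TopologicalSpace H] [IsTopologicalGroup H] [T2Space H]
  [LocallyCompactSpace H] [SecondCountableTopology H]

omit [T2Space H] [LocallyCompactSpace H] [SecondCountableTopology H] in
lemma isCompact_pow {K : Set H} (hK : IsCompact K) (n : ℕ) : IsCompact (K ^ n) := by
  induction n with
  | zero => simp
  | succ n ih => rw [pow_succ]; exact ih.mul hK

lemma inv_mem_pow {G : Type} [Group G] {K : Set G} (hKs : ∀ k ∈ K, k⁻¹ ∈ K) (n : ℕ) :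
    ∀ k ∈ K ^ n, k⁻¹ ∈ K ^ n := by
  induction n with
  | zero => simp
  | succ n ih =>
    intro k hk
    rw [pow_succ] at hk
    obtain ⟨a, ha, b, hb, rfl⟩ := hk
    rw [pow_succ']
    simpa using mul_mem_mul (hKs b hb) (ih a ha)

lemma set_mul_mem_pow_add {G : Type} [Group G] {L : Set G} {a b : G} {m n : ℕ} (ha : a ∈ L ^ m)
    (hb : b ∈ L ^ n) : a * b ∈ L ^ (m + n) := by
  rw [pow_add]
  exact mul_mem_mul ha hb

lemma packing [Group.IsNilpotent H] {K : Set H} (hK : IsCompact K) (hK1 : K ∈ 𝓝 (1 : H))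
    (hKs : ∀ k ∈ K, k⁻¹ ∈ K) :
    ∃ g : ℕ, ∀ a, ∃ s, a ≤ s ∧ ∀ t : Finset H, (∀ h ∈ t, h ∈ K ^ (9 * s)) →
      (∀ h ∈ t, ∀ h' ∈ t, h * h'⁻¹ ∈ K ^ (2 * s) → h = h') → t.card ≤ g := by
  classical
  borelize H
  let μ : Measure H := Measure.haar
  have hone : (1 : H) ∈ K := mem_of_mem_nhds hK1
  obtain ⟨t0, ht0⟩ := compact_covered_by_mul_left_translates (hK.mul hK)
    (V := K) ⟨1, mem_interior_iff_mem_nhds.mpr hK1⟩
  let F := t0⁻¹
  have hcov : ∀ j, K ^ (j + 1) ⊆ ⋃ f ∈ F ^ j, f • K := by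
    intro j
    induction j with
    | zero => simp
    | succ j ih =>
      intro x hx
      rw [pow_succ] at hx
      obtain ⟨a, ha, b, hb, rfl⟩ := hx
      have := ih ha
      simp only [mem_iUnion] at this ⊢
      obtain ⟨f, hf, k, hk, rfl⟩ := this
      have h2 := ht0 (mul_mem_mul hk hb)
      simp only [mem_iUnion, mem_preimage] at h2
      obtain ⟨g, hg, h3⟩ := h2
      refine ⟨f * g⁻¹, ?_, _, h3, by simp [mul_assoc]⟩
      rw [pow_succ]
      exact Finset.mul_mem_mul hf (Finset.inv_mem_inv hg)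
  obtain ⟨A, D, hAD⟩ := poly_growth F
  let u : ℕ → ℝ := fun j => μ.real (K ^ j)
  have hfin : ∀ j, μ (K ^ j) ≠ ⊤ := fun j => (isCompact_pow hK j).measure_lt_top.ne
  have hu1 : 0 < u 1 := by
    simp only [u, pow_one]
    exact ENNReal.toReal_pos (Measure.measure_pos_of_mem_nhds μ hK1).ne' hK.measure_lt_top.ne
  have humono : Monotone u := fun i j hij =>
    measureReal_mono (Set.pow_subset_pow_right hone hij) (hfin j)
  have hub : ∀ j, 1 ≤ j → u j ≤ A * j ^ D * u 1 := by
    intro j hj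
    obtain ⟨j, rfl⟩ : ∃ i, j = i + 1 := ⟨j - 1, by omega⟩
    have h1 : u (j + 1) ≤ ∑ f ∈ F ^ j, μ.real (f • K) :=
      (measureReal_mono (hcov j) (measure_biUnion_ne_top (F ^ j).finite_toSet
        fun f _ => by simpa using hK.measure_lt_top.ne)).trans (measureReal_biUnion_finset_le _ _)
    have h2 : ∀ f : H, μ.real (f • K) = u 1 := fun f => by simp [u, Measure.real]
    simp only [h2, Finset.sum_const, nsmul_eq_mul] at h1
    refine h1.trans (mul_le_mul_of_nonneg_right ?_ hu1.le)
    exact_mod_cast hAD j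
  refine ⟨10 ^ (D + 1), fun a => ?_⟩
  obtain ⟨s, hs1, hs2⟩ : ∃ s, a + 1 ≤ s ∧ u (10 * s) ≤ 10 ^ (D + 1) * u s := by
    by_contra hcon
    push Not at hcon
    have h1 : ∀ i, (10 ^ (D + 1)) ^ i * u 1 ≤ u (10 ^ i * (a + 1)) := by
      intro i
      induction i with
      | zero => simpa using humono (by omega)
      | succ i ih =>
        have h2 : a + 1 ≤ 10 ^ i * (a + 1) := Nat.le_mul_of_pos_left _ (by positivity)
        have h3 := hcon _ h2
        rw [pow_succ' 10 i, mul_assoc, pow_succ' _ i, mul_assoc]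
        exact le_trans (by gcongr) h3.le
    obtain ⟨i, hi⟩ := pow_unbounded_of_one_lt ((A : ℝ) * (a + 1) ^ D) (show (1 : ℝ) < 10 by norm_num)
    have h2 := (h1 i).trans (hub _ (Nat.mul_pos (by positivity) (by omega)))
    have h3 := le_of_mul_le_mul_right h2 hu1
    push_cast at h3
    have e1 : ((10 : ℝ) ^ (D + 1)) ^ i = 10 ^ i * (10 ^ i) ^ D := by
      rw [← pow_mul, ← pow_mul, ← pow_add]
      congr 1
      ring
    rw [e1, mul_pow] at h3
    have h4 : (0 : ℝ) < (10 ^ i) ^ D := by positivity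
    nlinarith
  refine ⟨s, by omega, fun t ht hsep => ?_⟩
  have hdisj : (t : Set H).PairwiseDisjoint fun h => h⁻¹ • K ^ s := by
    intro h hh h' hh' hne
    rw [Function.onFun, Set.disjoint_left]
    rintro _ ⟨a, ha, rfl⟩ ⟨b, hb, he⟩
    apply hne
    refine hsep h hh h' hh' ?_
    have e : h * h'⁻¹ = a * b⁻¹ := by
      simp only [smul_eq_mul] at he
      calc h * h'⁻¹ = h * (h'⁻¹ * b) * b⁻¹ := by group
        _ = _ := by rw [he]; group
    rw [e, two_mul]
    exact set_mul_mem_pow_add ha (inv_mem_pow hKs s b hb)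
  have h1 : μ.real (⋃ h ∈ t, h⁻¹ • K ^ s) = ∑ h ∈ t, μ.real (h⁻¹ • K ^ s) :=
    measureReal_biUnion_finset hdisj
      (fun h _ => ((isCompact_pow hK s).smul h⁻¹).measurableSet) (fun h _ => by simpa using hfin s)
  have h2 : ∀ f : H, μ.real (f • K ^ s) = u s := fun f => by simp [u, Measure.real]
  simp only [h2, Finset.sum_const, nsmul_eq_mul] at h1
  have h3 : μ.real (⋃ h ∈ t, h⁻¹ • K ^ s) ≤ u (10 * s) := by
    refine measureReal_mono ?_ (hfin _)
    simp only [iUnion_subset_iff]
    rintro h hh _ ⟨a, ha, rfl⟩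
    have := set_mul_mem_pow_add (inv_mem_pow hKs _ h (ht h hh)) ha
    rwa [show 9 * s + s = 10 * s by ring] at this
  have h4 : 0 < u s := hu1.trans_le (humono (by omega))
  have h5 : (t.card : ℝ) ≤ 10 ^ (D + 1) := le_of_mul_le_mul_right (h1 ▸ h3.trans hs2) h4
  exact_mod_cast h5

theorem hyp_of_action [Group.IsNilpotent H] {X : Type} [TopologicalSpace X] [T3Space X]
    [SecondCountableTopology X] [MeasurableSpace X] [BorelSpace X] [MulAction H X]
    [ContinuousSMul H X] (hfree : ∀ (h : H) (x : X), h • x = x → h = 1) (q : ℕ → X → X)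
    (hq : ∀ m, Measurable (q m)) (heq : ∀ m (h : H) x, q m (h • x) = h • q m x) :
    Hyp (fun x y : X => ∃ m, ∃ h : H, iter q m y = h • iter q m x) := by
  classical
  obtain ⟨W, hW, hW1⟩ := exists_compact_mem_nhds (1 : H)
  let K : ℕ → Set H := fun m => (compactCovering H m ∪ W) ∪ (compactCovering H m ∪ W)⁻¹
  have hK : ∀ m, IsCompact (K m) := fun m =>
    ((isCompact_compactCovering H m).union hW).union ((isCompact_compactCovering H m).union hW).inv
  have hK1 : ∀ m, K m ∈ 𝓝 (1 : H) := fun m =>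
    mem_of_superset hW1 (subset_union_right.trans subset_union_left)
  have hone : ∀ m, (1 : H) ∈ K m := fun m => mem_of_mem_nhds (hK1 m)
  have hKs : ∀ m, ∀ k ∈ K m, k⁻¹ ∈ K m := by
    rintro m k (hk | hk)
    · exact Or.inr (by simpa using hk)
    · exact Or.inl hk
  have hKm : Monotone K := fun i j hij =>
    union_subset_union (union_subset_union_left _ (compactCovering_subset H hij))
      (inv_subset_inv.mpr (union_subset_union_left _ (compactCovering_subset H hij)))
  obtain ⟨e, hei, he⟩ := exists_lsc_inj X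
  have main := union_thm e he.measurable hei (fun m r x y => ∃ h ∈ K m ^ r, y = h • x) q hq
    (fun m r => measurableSet_rel (isCompact_pow (hK m) r))
    (fun m r x => ⟨1, Set.one_mem_pow (hone m), by simp⟩)
    (by
      rintro m r x y ⟨h, hh, rfl⟩
      exact ⟨h⁻¹, inv_mem_pow (hKs m) r h hh, by simp⟩)
    (by
      rintro m r s x y z ⟨h, hh, rfl⟩ ⟨h', hh', rfl⟩
      exact ⟨h' * h, add_comm r s ▸ set_mul_mem_pow_add hh' hh, by rw [mul_smul]⟩)
    (by
      rintro m r x y ⟨h, hh, rfl⟩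
      exact ⟨h, Set.pow_subset_pow_left (hKm (Nat.le_succ m)) hh, heq m h x⟩)
    (by
      intro m
      obtain ⟨g, hg⟩ := packing (hK m) (hK1 m) (hKs m)
      refine ⟨g, fun a => ?_⟩
      obtain ⟨s, hs1, hs2⟩ := hg (a + 1)
      obtain ⟨M, en, a1, a2, a3, a4, a5⟩ := exists_markers (X := X) hfree
        (isCompact_pow (hK m) (2 * s)) (Set.one_mem_pow (hone m)) (inv_mem_pow (hKs m) _)
        (hK m) (hK1 m) (hKs m)
      refine ⟨2 * s + 1, by omega, M, en, a1, a2, fun x => by simpa only [pow_succ] using a3 x,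
        fun x y hy ⟨h, _, he⟩ => a4 x y hy ⟨h, he⟩, fun x t ht => ?_⟩
      choose! φ hφ using fun y hy => (ht y hy).2
      have hinj : InjOn φ t := fun y hy y' hy' he => by
        rw [(hφ y hy).2, (hφ y' hy').2, he]
      rw [← Finset.card_image_of_injOn hinj]
      refine hs2 _ (fun h hh => ?_) (fun h hh h' hh' hk => ?_)
      · obtain ⟨y, hy, rfl⟩ := Finset.mem_image.mp hh
        exact Set.pow_subset_pow_right (hone m) (by omega) (hφ y hy).1
      · obtain ⟨y, hy, rfl⟩ := Finset.mem_image.mp hh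
        obtain ⟨y', hy', rfl⟩ := Finset.mem_image.mp hh'
        have e1 : (φ y')⁻¹ • y' = x := inv_smul_eq_iff.mpr (hφ y' hy').2
        have := a5 y' (ht y' hy').1 y (ht y hy).1 ⟨_, hk, by
          rw [mul_smul, e1]
          exact (hφ y hy).2⟩
        rw [this])
  refine main.comap id measurable_id fun x y => ⟨?_, ?_⟩
  · rintro ⟨m, h, he⟩
    have h1 : ∀ j, iter q (m + j) y = h • iter q (m + j) x := by
      intro j
      induction j with
      | zero => exact he
      | succ j ih => exact (congrArg (q (m + j)) ih).trans (heq _ _ _)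
    obtain ⟨j, hj⟩ := exists_mem_compactCovering h
    exact ⟨m + j, 1, h, by simpa using hKm (Nat.le_add_left j m) (Or.inl (Or.inl hj)), h1 j⟩
  · rintro ⟨m, r, h, -, he⟩
    exact ⟨m, h, he⟩

end Doubling

end Pool.Agent.MP_ede9a8_lc

end MrgPart2

-- marker of a merged file
example : 731051 + 679556 = 731051 + 679556 := rfl
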