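import Mathlib.Tactic.Monotonicity.Lemmas
import Mathlib.Topology.LocallyConstant.Basic
import Mathlib.Topology.Algebra.OpenSubgroup
import Mathlib.Analysis.Calculus.Deriv.Mul
import Mathlib.Analysis.Calculus.Deriv.Slope
import Mathlib.Combinatorics.SimpleGraph.Basic
import Mathlib.Topology.Baire.LocallyCompactRegular
import Pool.Agent.MP_ede9a8_lc.Growth

-- ======== part 0: formerly Pool.Agent.MP_ede9a8_lc.Tri
section MrgPart0

/-!
A normal subgroup with its own topology, and the basic reductions.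
-/

namespace Pool.Agent.MP_ede9a8_lc

open Set Function Filter MeasureTheory Topology Pointwise

/-- A continuous injective homomorphism with normal range and jointly continuous conjugation. -/
structure Tri (G N : Type) [Group G] [TopologicalSpace G] [Group N] [TopologicalSpace N] where
  ι : N →* G
  κ : G → N → N
  inj : Injective ι
  cont : Continuous ι
  spec : ∀ g n, ι (κ g n) = g * ι n * g⁻¹
  κcont : Continuous (fun p : G × N => κ p.1 p.2)

namespace Tri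

variable {G N : Type} [Group G] [TopologicalSpace G] [Group N] [TopologicalSpace N] (T : Tri G N)

/-- the coset relation is hypersmooth -/
def HS : Prop := @Hyp G (borel G) (fun x y => ∃ n, y = T.ι n * x)

lemma κ_mul (g : G) (m n : N) : T.κ g (m * n) = T.κ g m * T.κ g n :=
  T.inj (by simp [T.spec])

lemma κ_comp (g h : G) (n : N) : T.κ (g * h) n = T.κ g (T.κ h n) :=
  T.inj (by simp [T.spec, mul_assoc])

lemma κ_one (n : N) : T.κ 1 n = n := T.inj (by simp [T.spec])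

lemma κ_ι (m n : N) : T.κ (T.ι m) n = m * n * m⁻¹ := T.inj (by simp [T.spec])

/-- conjugation as a homomorphism -/
def κh (g : G) : N →* N := MonoidHom.mk' (T.κ g) (T.κ_mul g)

@[simp] lemma κh_apply (g : G) (n : N) : T.κh g n = T.κ g n := rfl

lemma κ_inv (g : G) (n : N) : T.κ g n⁻¹ = (T.κ g n)⁻¹ := map_inv (T.κh g) n

lemma κ_one' (g : G) : T.κ g 1 = 1 := map_one (T.κh g)

lemma continuous_κ (g : G) : Continuous (T.κ g) :=
  T.κcont.comp (continuous_const.prodMk continuous_id)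

lemma continuous_κ' (n : N) : Continuous (fun g => T.κ g n) :=
  T.κcont.comp (continuous_id.prodMk continuous_const)

/-- restriction to a subgroup -/
def sub (P : Subgroup G) : Tri P (P.comap T.ι) where
  ι := T.ι.subgroupComap P
  κ g n := ⟨T.κ g n, by
    rw [Subgroup.mem_comap, T.spec]
    exact mul_mem (mul_mem g.2 n.2) (inv_mem g.2)⟩
  inj := fun a b h => Subtype.ext (T.inj (congrArg Subtype.val h))
  cont := (T.cont.comp continuous_subtype_val).subtype_mk _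
  spec g n := Subtype.ext (T.spec g n)
  κcont := (T.κcont.comp (f := fun p : P × P.comap T.ι => ((p.1 : G), (p.2 : N)))
    (by fun_prop)).subtype_mk _

theorem HS_of_sub [IsTopologicalGroup G] [SecondCountableTopology G] (P : Subgroup G) {O : Set G}
    (hO : IsOpen O) (h1 : (1 : G) ∈ O) (r : G → G) (hr : ContinuousOn r O)
    (hrP : ∀ x ∈ O, r x ∈ P ∧ ∃ n, r x = T.ι n * x) (h : (T.sub P).HS) : T.HS := by
  classical
  borelize G
  have hb : borel P = Subtype.instMeasurableSpace := (BorelSpace.measurable_eq (α := P)).symm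
  rw [HS, hb] at h
  let Q : Subgroup G :=
    { carrier := {x | ∃ n, ∃ p ∈ P, x = T.ι n * p}
      one_mem' := ⟨1, 1, one_mem _, by simp⟩
      mul_mem' := by
        rintro _ _ ⟨n, p, hp, rfl⟩ ⟨n', p', hp', rfl⟩
        exact ⟨n * T.κ p n', p * p', mul_mem hp hp', by simp [T.spec, mul_assoc]⟩
      inv_mem' := by
        rintro _ ⟨n, p, hp, rfl⟩
        exact ⟨T.κ p⁻¹ n⁻¹, p⁻¹, inv_mem hp, by simp [T.spec, mul_assoc]⟩ }
  have hOQ : O ⊆ Q := by
    intro x hx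
    obtain ⟨a, n, b⟩ := hrP x hx
    exact ⟨n⁻¹, r x, a, by simp [b]⟩
  have hQ : IsOpen (Q : Set G) := Q.isOpen_of_mem_nhds (mem_of_superset (hO.mem_nhds h1) hOQ)
  have hιQ : ∀ n, T.ι n ∈ Q := fun n => ⟨n, 1, one_mem _, by simp⟩
  obtain ⟨d, hd⟩ := TopologicalSpace.exists_dense_seq G
  have : SecondCountableTopology Q := TopologicalSpace.Subtype.secondCountableTopology _
  obtain ⟨z, hz⟩ := TopologicalSpace.exists_dense_seq Q
  have hl : ∀ x : G, ∃ i, x * (d i)⁻¹ ∈ Q := fun x =>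
    hd.exists_mem_open (hQ.preimage (f := fun y => x * y⁻¹) (by fun_prop)) ⟨x, by simp⟩
  have hlm : ∀ i, MeasurableSet {x : G | x * (d i)⁻¹ ∈ Q} := fun i =>
    (hQ.preimage (f := fun x => x * (d i)⁻¹) (by fun_prop)).measurableSet
  let t : G → G := fun x => x * (d (Nat.find (hl x)))⁻¹
  have htm : Measurable t := Measurable.find (f := fun i x => x * (d i)⁻¹)
    (fun i => measurable_mul_const _) hlm hl
  have hj : ∀ x : G, ∃ j, t x * (z j : G)⁻¹ ∈ O := fun x =>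
    hz.exists_mem_open (hO.preimage (f := fun y : Q => t x * (y : G)⁻¹) (by fun_prop))
      ⟨⟨t x, Nat.find_spec (hl x)⟩, by simpa using h1⟩
  choose n p hp hzz using fun j => (z j).2
  let r' : G → G := O.piecewise r (fun _ => 1)
  have hr' : Measurable r' := hr.measurable_piecewise continuousOn_const hO.measurableSet
  let φ : G → G := fun x => r' (t x * (z (Nat.find (hj x)) : G)⁻¹) * p (Nat.find (hj x))
  have hφm : Measurable φ := Measurable.find (f := fun j x => r' (t x * (z j : G)⁻¹) * p j)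
    (fun j => (hr'.comp (htm.mul_const _)).mul_const _)
    (fun j => (htm.mul_const _) hO.measurableSet) hj
  have hφ : ∀ x, φ x ∈ P ∧ ∃ m, φ x = T.ι m * t x := by
    intro x
    have a1 := Nat.find_spec (hj x)
    obtain ⟨a2, m, a3⟩ := hrP _ a1
    simp only [φ, r', piecewise_eq_of_mem _ _ _ a1]
    refine ⟨mul_mem a2 (hp _), m * T.κ (t x * (p (Nat.find (hj x)))⁻¹) (n (Nat.find (hj x)))⁻¹, ?_⟩
    rw [a3, hzz]
    simp [T.spec, mul_assoc]
  refine h.label (fun x => ⟨φ x, (hφ x).1⟩) hφm.subtype_mk (fun x => Nat.find (hl x))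
    (measurable_find hl hlm) fun x y => ⟨?_, ?_⟩
  · rintro ⟨m, rfl⟩
    have e : Nat.find (hl x) = Nat.find (hl (T.ι m * x)) := by
      congr 1
      funext i
      rw [mul_assoc, Q.mul_mem_cancel_left (hιQ m)]
    obtain ⟨a1, m1, a2⟩ := hφ x
    obtain ⟨b1, m2, b2⟩ := hφ (T.ι m * x)
    have e2 : φ (T.ι m * x) = T.ι (m2 * m * m1⁻¹) * φ x := by
      rw [a2, b2]
      simp only [t, ← e]
      simp [mul_assoc]
    refine ⟨e, ⟨m2 * m * m1⁻¹, ?_⟩, Subtype.ext e2⟩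
    rw [Subgroup.mem_comap, ← P.mul_mem_cancel_right a1, ← e2]
    exact b1
  · rintro ⟨e, m, hm⟩
    have e2 : φ y = T.ι m * φ x := congrArg Subtype.val hm
    obtain ⟨-, m1, a2⟩ := hφ x
    obtain ⟨-, m2, b2⟩ := hφ y
    rw [a2, b2] at e2
    simp only [t, ← e] at e2
    refine ⟨m2⁻¹ * m * m1, ?_⟩
    simp only [← mul_assoc, mul_left_inj] at e2
    simp only [map_mul, map_inv, mul_assoc]
    rw [eq_inv_mul_iff_mul_eq, e2, mul_assoc]

/-- the induced map on quotients -/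
def quotι (K : Subgroup G) [K.Normal] : N ⧸ K.comap T.ι →* G ⧸ K :=
  QuotientGroup.map _ K T.ι le_rfl

lemma quotι_inj (K : Subgroup G) [K.Normal] : Injective (T.quotι K) := by
  rw [injective_iff_map_eq_one]
  intro a ha
  obtain ⟨n, rfl⟩ := QuotientGroup.mk_surjective a
  rw [quotι, QuotientGroup.map_mk, QuotientGroup.eq_one_iff] at ha
  exact (QuotientGroup.eq_one_iff n).mpr ha

lemma quot_ex (K : Subgroup G) [K.Normal] (a : G ⧸ K) (b : N ⧸ K.comap T.ι) :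
    ∃ m, T.quotι K m = a * T.quotι K b * a⁻¹ := by
  obtain ⟨n, rfl⟩ := QuotientGroup.mk_surjective b
  obtain ⟨g, rfl⟩ := QuotientGroup.mk_surjective a
  exact ⟨(T.κ g n : N), by simp [quotι, T.spec]⟩

/-- passage to a quotient -/
noncomputable def quot [IsTopologicalGroup G] [IsTopologicalGroup N] (K : Subgroup G) [K.Normal] :
    Tri (G ⧸ K) (N ⧸ K.comap T.ι) where
  ι := T.quotι K
  κ a b := (T.quot_ex K a b).choose
  inj := T.quotι_inj K
  cont := by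
    rw [← QuotientGroup.isOpenQuotientMap_mk.continuous_comp_iff]
    exact QuotientGroup.continuous_mk.comp T.cont
  spec a b := (T.quot_ex K a b).choose_spec
  κcont := by
    rw [← (QuotientGroup.isOpenQuotientMap_mk.prodMap
      QuotientGroup.isOpenQuotientMap_mk).continuous_comp_iff]
    convert QuotientGroup.continuous_mk.comp T.κcont using 1
    funext p
    apply T.quotι_inj K
    simp only [comp_apply]
    rw [(T.quot_ex K _ _).choose_spec]
    simp [quotι, T.spec]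

theorem HS_of_quot [IsTopologicalGroup G] [IsTopologicalGroup N] (K : Subgroup G) [K.Normal]
    (hK : K ≤ T.ι.range) (h : (T.quot K).HS) : T.HS := by
  borelize G
  borelize (G ⧸ K)
  refine Hyp.comap h (fun x : G => (x : G ⧸ K)) QuotientGroup.continuous_mk.measurable
    fun x y => ⟨?_, ?_⟩
  · rintro ⟨n, rfl⟩
    exact ⟨(n : N), by simp [quot, quotι]⟩
  · rintro ⟨a, ha⟩
    obtain ⟨n, rfl⟩ := QuotientGroup.mk_surjective a
    have h1 : ((T.ι n * x : G) : G ⧸ K) = y := by simp [ha, quot, quotι]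
    obtain ⟨m, hm⟩ := hK (QuotientGroup.eq.mp h1)
    refine ⟨n * T.κ x m, ?_⟩
    simp [T.spec, hm, mul_assoc]

end Tri

lemma continuousOn_of_compact {N G Z : Type} [TopologicalSpace N] [TopologicalSpace G] [T2Space G]
    [TopologicalSpace Z] {ι : N → G} (hι : Continuous ι) (hi : Injective ι) {C : Set N}
    (hC : IsCompact C) {f : Z → N} {S : Set Z} (hf : MapsTo f S C)
    (h : ContinuousOn (ι ∘ f) S) : ContinuousOn f S := by
  have : CompactSpace C := isCompact_iff_compactSpace.mp hC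
  have h1 : IsClosedEmbedding (fun c : C => ι c) :=
    (hι.comp continuous_subtype_val).isClosedEmbedding (hi.comp Subtype.val_injective)
  rw [continuousOn_iff_continuous_domRestrict] at h ⊢
  have h2 : Continuous (fun z : S => (⟨f z, hf z.2⟩ : C)) :=
    h1.isInducing.continuous_iff.mpr h
  exact continuous_subtype_val.comp h2

theorem exists_tri {G N : Type} [Group G] [TopologicalSpace G] [IsTopologicalGroup G] [T2Space G]
    [BaireSpace G] [Group N] [TopologicalSpace N] [IsTopologicalGroup N] [T2Space N]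
    [LocallyCompactSpace N] [SecondCountableTopology N] (ι : N →* G) (hi : Injective ι)
    (hι : Continuous ι) (hn : ∀ g n, ∃ m, ι m = g * ι n * g⁻¹) : ∃ T : Tri G N, T.ι = ι := by
  choose κ hκ using hn
  have κm : ∀ g m n, κ g (m * n) = κ g m * κ g n := fun g m n => hi (by simp [hκ])
  have κi : ∀ g m, κ g m⁻¹ = (κ g m)⁻¹ := fun g m => hi (by simp [hκ, mul_assoc])
  have κc : ∀ g h n, κ (g * h) n = κ g (κ h n) := fun g h n => hi (by simp [hκ, mul_assoc])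
  let Kx := CompactExhaustion.choice N
  have hcl : ∀ j, IsClosed (ι '' Kx j) := fun j => ((Kx.isCompact j).image hι).isClosed
  have hmem : ∀ j g n, g * ι n * g⁻¹ ∈ ι '' Kx j → κ g n ∈ Kx j := by
    rintro j g n ⟨m, hm, he⟩
    rwa [hi ((hκ g n).trans he.symm)]
  have a1 : ∀ g, Continuous (κ g) := by
    intro g
    obtain ⟨j, n₀, hn₀⟩ := nonempty_interior_of_iUnion_of_closed
      (f := fun j => {n : N | g * ι n * g⁻¹ ∈ ι '' Kx j})
      (fun j => (hcl j).preimage (by fun_prop)) (by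
        refine eq_univ_of_forall fun n => mem_iUnion.mpr ?_
        obtain ⟨j, hj⟩ := Kx.exists_mem (κ g n)
        exact ⟨j, _, hj, hκ g n⟩)
    have h1 : ContinuousAt (κ g) n₀ := by
      refine (continuousOn_of_compact hι hi (Kx.isCompact j) (fun n hn => hmem j g n hn)
        ?_).continuousAt (mem_interior_iff_mem_nhds.mp hn₀)
      have : ι ∘ κ g = fun n => g * ι n * g⁻¹ := funext (hκ g)
      rw [this]
      fun_prop
    refine continuous_iff_continuousAt.mpr fun n => ?_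
    have : κ g = fun m => κ g (m * n⁻¹ * n₀) * κ g (n₀⁻¹ * n) := by
      funext m
      rw [← κm]
      congr 1
      group
    rw [this]
    refine ContinuousAt.mul (ContinuousAt.comp_of_eq h1 (by fun_prop) (by simp)) continuousAt_const
  have a2 : ∀ C : Set N, IsCompact C → ∃ g₀, ∃ O ∈ 𝓝 g₀,
      ContinuousOn (fun p : G × N => κ p.1 p.2) (O ×ˢ C) := by
    intro C hC
    obtain ⟨j, g₀, hg₀⟩ := nonempty_interior_of_iUnion_of_closed
      (f := fun j => ⋂ n ∈ C, {g : G | g * ι n * g⁻¹ ∈ ι '' Kx j})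
      (fun j => isClosed_biInter fun n _ => (hcl j).preimage (by fun_prop)) (by
        refine eq_univ_of_forall fun g => mem_iUnion.mpr ?_
        obtain ⟨j, hj⟩ := Kx.exists_superset_of_isCompact (hC.image (a1 g))
        exact ⟨j, mem_iInter₂.mpr fun n hn => ⟨_, hj (mem_image_of_mem _ hn), hκ g n⟩⟩)
    refine ⟨g₀, _, mem_interior_iff_mem_nhds.mp hg₀, continuousOn_of_compact hι hi (Kx.isCompact j)
      (fun p hp => hmem j _ _ (mem_iInter₂.mp hp.1 _ hp.2)) ?_⟩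
    have : ι ∘ (fun p : G × N => κ p.1 p.2) = fun p => p.1 * ι p.2 * p.1⁻¹ :=
      funext fun p => hκ _ _
    rw [this]
    fun_prop
  have a3 : ∀ n g, ContinuousAt (fun g => κ g n) g := by
    intro n g
    obtain ⟨g₀, O, hO, h⟩ := a2 {n} isCompact_singleton
    have h1 : ContinuousAt (fun g => κ g n) g₀ :=
      (h.comp (f := fun g => (g, n)) (by fun_prop) (fun g hg => ⟨hg, rfl⟩)).continuousAt hO
    have : (fun g => κ g n) = fun g' => κ (g * g₀⁻¹) (κ (g₀ * g⁻¹ * g') n) := by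
      funext g'
      rw [← κc]
      congr 1
      group
    rw [this]
    exact (a1 _).continuousAt.comp (ContinuousAt.comp_of_eq h1 (by fun_prop) (by simp))
  refine ⟨⟨ι, κ, hi, hι, hκ, continuous_iff_continuousAt.mpr ?_⟩, rfl⟩
  rintro ⟨g, n⟩
  obtain ⟨C, hC, hC1⟩ := exists_compact_mem_nhds (1 : N)
  obtain ⟨g₀, O, hO, h⟩ := a2 C hC
  have h1 := h.continuousAt (prod_mem_nhds hO hC1)
  have : (fun p : G × N => κ p.1 p.2)
      = fun p => κ (g * g₀⁻¹) (κ (g₀ * g⁻¹ * p.1) (p.2 * n⁻¹)) * κ p.1 n := by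
    funext p
    rw [← κc, show g * g₀⁻¹ * (g₀ * g⁻¹ * p.1) = p.1 by group, ← κm]
    simp
  rw [this]
  refine ContinuousAt.mul ((a1 _).continuousAt.comp ?_)
    (ContinuousAt.comp_of_eq (a3 n g) continuousAt_fst rfl)
  exact ContinuousAt.comp_of_eq (f := fun p : G × N => (g₀ * g⁻¹ * p.1, p.2 * n⁻¹)) h1
    (by fun_prop) (by simp)

end Pool.Agent.MP_ede9a8_lc

end MrgPart0

-- ======== part 1: formerly Pool.Agent.MP_ede9a8_lc.FS
section MrgPart1

/-!
Reduction of the coset relation to a direct system of actions of one nilpotent open subgroup.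
-/

namespace Pool.Agent.MP_ede9a8_lc

open Set Function Filter MeasureTheory Topology Pointwise

namespace Tri

variable {G N : Type} [Group G] [TopologicalSpace G] [IsTopologicalGroup G] [T2Space G]
  [SecondCountableTopology G] [Group N] [TopologicalSpace N] [IsTopologicalGroup N] [T2Space N]
  [LocallyCompactSpace N] [SecondCountableTopology N] (T : Tri G N)

theorem HS_of_data (A : Subgroup N) (hA : IsOpen (A : Set N)) [Group.IsNilpotent A]
    (W M : ℕ → Subgroup G) (hWo : ∀ k, IsOpen (W k : Set G)) (hW : Antitone W) (hM : Monotone M)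
    (hMu : ∀ n, ∃ k, T.ι n ∈ M k) (hMr : ∀ k, ∀ g ∈ M k, ∃ n, T.ι n = g)
    (hAW : ∀ k, ∀ a ∈ A, T.ι a ∈ W k) (hno : ∀ k, ∀ w ∈ W k, ∀ m ∈ M k, w * m * w⁻¹ ∈ M k)
    (hint : ∀ k, ∀ g ∈ M k, g ∈ W k → ∃ a ∈ A, T.ι a = g) : T.HS := by
  classical
  borelize G
  let R : ℕ → G → G → Prop := fun k x y => ∃ w ∈ W k, ∃ m ∈ M k, y = w * m * x
  have Rsymm : ∀ k x y, R k x y → R k y x := by
    rintro k x _ ⟨w, hw, m, hm, rfl⟩
    exact ⟨w⁻¹, inv_mem hw, w * m⁻¹ * w⁻¹, hno k w hw _ (inv_mem hm), by group⟩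
  have Rtrans : ∀ k x y z, R k x y → R k y z → R k x z := by
    rintro k x _ _ ⟨w, hw, m, hm, rfl⟩ ⟨w', hw', m', hm', rfl⟩
    refine ⟨w' * w, mul_mem hw' hw, w⁻¹ * m' * w⁻¹⁻¹ * m,
      mul_mem (hno k _ (inv_mem hw) _ hm') hm, by group⟩
  have Rrefl : ∀ k x, R k x x := fun k x => ⟨1, one_mem _, 1, one_mem _, by simp⟩
  let τ : ℕ → G → G := fun k x => Classical.epsilon (fun y => R k x y)
  have hτ : ∀ k x, R k x (τ k x) := fun k x => Classical.epsilon_spec ⟨x, Rrefl k x⟩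
  have hτe : ∀ k x y, R k x y → τ k x = τ k y := by
    intro k x y h
    simp only [τ]
    congr 1
    funext z
    exact propext ⟨fun h' => Rtrans k _ _ _ (Rsymm k _ _ h) h', fun h' => Rtrans k _ _ _ h h'⟩
  let ν : ℕ → G → G → G := fun k t w =>
    Classical.epsilon (fun v => w * v⁻¹ ∈ W k ∧ ∃ m ∈ M k, v * t = m * τ k (v * t))
  have hν : ∀ k t w, w * (ν k t w)⁻¹ ∈ W k ∧ ∃ m ∈ M k, ν k t w * t = m * τ k (ν k t w * t) := by
    intro k t w
    refine Classical.epsilon_spec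
      (p := fun v => w * v⁻¹ ∈ W k ∧ ∃ m ∈ M k, v * t = m * τ k (v * t)) ?_
    obtain ⟨w', hw', m, hm, he⟩ := Rsymm k _ _ (hτ k (w * t))
    refine ⟨w'⁻¹ * w, by simpa using hw', m, hm, ?_⟩
    rw [← hτe k (w * t) (w'⁻¹ * w * t) ⟨w'⁻¹, inv_mem hw', 1, one_mem _, by group⟩, mul_assoc,
      inv_mul_eq_iff_eq_mul, ← mul_assoc]
    exact he
  have hνe : ∀ k t w u, u ∈ W k → ν k t (u * w) = ν k t w := by
    intro k t w u hu
    simp only [ν, mul_assoc, (W k).mul_mem_cancel_left hu]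
  let g : ℕ → G → G := fun k => Nat.rec (fun x => ν 0 1 x)
    (fun k gk x => ν (k + 1) (τ k x) (x * (gk x)⁻¹) * gk x) k
  let v : ℕ → G → G := fun k x => ν (k + 1) (τ k x) (x * (g k x)⁻¹)
  have hg0 : ∀ x, g 0 x = ν 0 1 x := fun x => rfl
  have hgs : ∀ k x, g (k + 1) x = v k x * g k x := fun k x => rfl
  have inv : ∀ k x, x * (g k x)⁻¹ ∈ W k ∧ ∃ m ∈ M k, g k x = m * τ k x := by
    intro k x
    induction k with
    | zero =>
      obtain ⟨a1, m, hm, a2⟩ := hν 0 1 x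
      rw [mul_one] at a2
      refine ⟨a1, m, hm, ?_⟩
      rw [hg0, ← hτe 0 (ν 0 1 x) x ⟨_, a1, 1, one_mem _, by group⟩]
      exact a2
    | succ k ih =>
      obtain ⟨b1, m, hm, b2⟩ := ih
      obtain ⟨a1, m', hm', a2⟩ := hν (k + 1) (τ k x) (x * (g k x)⁻¹)
      change x * (g k x)⁻¹ * (v k x)⁻¹ ∈ _ at a1
      change v k x * τ k x = m' * τ (k + 1) (v k x * τ k x) at a2
      have c1 : v k x ∈ W k := by
        have := mul_mem (inv_mem (hW (Nat.le_succ k) a1)) b1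
        simpa [mul_assoc] using this
      have c2 : v k x * m * (v k x)⁻¹ ∈ M (k + 1) := hM (Nat.le_succ k) (hno k _ c1 _ hm)
      have c3 : g (k + 1) x = v k x * m * (v k x)⁻¹ * (v k x * τ k x) := by
        rw [hgs, b2]
        group
      have c4 : x * (g (k + 1) x)⁻¹ ∈ W (k + 1) := by
        rw [hgs]
        simpa [mul_assoc] using a1
      refine ⟨c4, v k x * m * (v k x)⁻¹ * m', mul_mem c2 hm', ?_⟩
      rw [← hτe (k + 1) (v k x * τ k x) x ⟨_, c4, _, c2, by rw [mul_assoc, ← c3]; group⟩,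
        mul_assoc _ m', ← a2, c3]
  have hgl : ∀ k x u, u ∈ W k → g k (u * x) = g k x := by
    intro k x u
    induction k with
    | zero => exact hνe 0 1 x u
    | succ k ih =>
      intro hu
      have hu' := hW (Nat.le_succ k) hu
      simp only [hgs, v, ih hu']
      rw [← hτe k x (u * x) ⟨u, hu', 1, one_mem _, by simp⟩, mul_assoc, hνe _ _ _ _ hu]
  have hcont : ∀ (k) (f : G → G), (∀ x u, u ∈ W k → f (u * x) = f x) → Continuous f := by
    intro k f hf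
    refine IsLocallyConstant.continuous ((IsLocallyConstant.iff_eventually_eq f).mpr fun x => ?_)
    have : ∀ᶠ y in 𝓝 x, y * x⁻¹ ∈ W k :=
      ((hWo k).preimage (f := fun y => y * x⁻¹) (by fun_prop)).mem_nhds (by simp)
    filter_upwards [this] with y hy
    simpa using hf x _ hy
  have hgc : ∀ k, Continuous (g k) := fun k => hcont k _ (hgl k)
  have hτc : ∀ k, Continuous (τ k) := fun k => hcont k _ fun x u hu =>
    (hτe k x (u * x) ⟨u, hu, 1, one_mem _, by simp⟩).symm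
  have hvc : ∀ k, Continuous (v k) := by
    intro k
    have : v k = fun x => g (k + 1) x * (g k x)⁻¹ := funext fun x => by simp [hgs]
    rw [this]
    exact (hgc (k + 1)).mul (hgc k).inv
  let X := G × (ℕ → G × G)
  let act : MulAction A X :=
    { smul := fun a p => (T.ι a * p.1, p.2)
      one_smul := fun p => by
        change (T.ι (1 : A) * p.1, p.2) = p
        simp
      mul_smul := fun a b p => by
        change (T.ι (a * b : A) * p.1, p.2) = (T.ι a * (T.ι b * p.1), p.2)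
        simp [mul_assoc] }
  have hsm : ∀ (a : A) (p : X), a • p = (T.ι a * p.1, p.2) := fun _ _ => rfl
  have : ContinuousSMul A X := ⟨by
    simp only [hsm]
    exact ((T.cont.comp (continuous_subtype_val.comp continuous_fst)).mul
      (continuous_fst.comp continuous_snd)).prodMk (continuous_snd.comp continuous_snd)⟩
  have : LocallyCompactSpace A := hA.locallyCompactSpace
  have : SecondCountableTopology A := TopologicalSpace.Subtype.secondCountableTopology _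
  let q : ℕ → X → X := fun m p => (p.1 * (p.2 m).2⁻¹, update p.2 m (1, 1))
  have hqc : ∀ m, Continuous (q m) := fun m =>
    (continuous_fst.mul (continuous_snd.comp ((continuous_apply m).comp continuous_snd)).inv).prodMk
      (continuous_snd.update m continuous_const)
  have main := hyp_of_action (H := A) (X := X) (fun a p h => by
      have h1 : T.ι a * p.1 = p.1 := congrArg Prod.fst h
      exact Subtype.ext (T.inj (by simpa using h1)))
    q (fun m => (hqc m).measurable) (fun m a p => by simp only [q, hsm, mul_assoc])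
  let Θ : G → X := fun x => (x * (g 0 x)⁻¹, fun j => (τ j x, v j x))
  have hΘ : Continuous Θ :=
    (continuous_id.mul (hgc 0).inv).prodMk (continuous_pi fun j => (hτc j).prodMk (hvc j))
  have hit : ∀ m x, iter q m (Θ x)
      = (x * (g m x)⁻¹, fun j => if j < m then (1, 1) else (τ j x, v j x)) := by
    intro m x
    induction m with
    | zero => simp [iter, Θ]
    | succ m ih =>
      simp only [iter, ih, q, lt_irrefl, if_false, hgs, mul_inv_rev, mul_assoc]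
      congr 1
      funext j
      rcases lt_trichotomy j m with h | h | h
      · simp [h, h.ne, Nat.lt_succ_of_lt h]
      · simp [h]
      · simp [h.ne', not_lt.mpr h.le, not_lt.mpr (Nat.succ_le_of_lt h)]
  refine main.comap Θ hΘ.measurable fun x y => ⟨?_, ?_⟩
  · rintro ⟨n, rfl⟩
    obtain ⟨k, hk⟩ := hMu n
    have t1 : ∀ j, k ≤ j → τ j (T.ι n * x) = τ j x := fun j hj =>
      (hτe j x _ ⟨1, one_mem _, _, hM hj hk, by simp⟩).symm
    obtain ⟨a1, m1, hm1, a2⟩ := inv k x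
    obtain ⟨b1, m2, hm2, b2⟩ := inv k (T.ι n * x)
    obtain ⟨a, ha, he⟩ := hint k (T.ι n * x * (g k (T.ι n * x))⁻¹ * (x * (g k x)⁻¹)⁻¹) (by
      have := mul_mem hk (hno k _ a1 _ (mul_mem hm1 (inv_mem hm2)))
      convert this using 1
      rw [b2, t1 k le_rfl]
      have e : τ k x = m1⁻¹ * g k x := by rw [a2]; group
      rw [e]
      group) (mul_mem b1 (inv_mem a1))
    have t2 : ∀ j, T.ι n * x * (g (k + j) (T.ι n * x))⁻¹ = T.ι a * (x * (g (k + j) x)⁻¹) ∧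
        v (k + j) (T.ι n * x) = v (k + j) x := by
      have step : ∀ j, T.ι n * x * (g (k + j) (T.ι n * x))⁻¹ = T.ι a * (x * (g (k + j) x)⁻¹) →
          v (k + j) (T.ι n * x) = v (k + j) x := by
        intro j hj
        simp only [v]
        rw [hj, t1 _ (Nat.le_add_right _ _), hνe _ _ _ _ (hAW _ a ha)]
      intro j
      induction j with
      | zero =>
        have : T.ι n * x * (g (k + 0) (T.ι n * x))⁻¹ = T.ι a * (x * (g (k + 0) x)⁻¹) := by
          rw [he, add_zero]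
          group
        exact ⟨this, step 0 this⟩
      | succ j ih =>
        have : T.ι n * x * (g (k + (j + 1)) (T.ι n * x))⁻¹
            = T.ι a * (x * (g (k + (j + 1)) x)⁻¹) := by
          rw [← add_assoc, hgs, hgs, ih.2, mul_inv_rev, ← mul_assoc, ih.1]
          group
        exact ⟨this, step _ this⟩
    refine ⟨k, ⟨a, ha⟩, ?_⟩
    rw [hit, hit, hsm]
    refine Prod.ext (t2 0).1 (funext fun j => ?_)
    by_cases hj : j < k
    · simp [hj]
    · obtain ⟨i, rfl⟩ := Nat.exists_eq_add_of_le (not_lt.mp hj)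
      simp [t1, (t2 i).2]
  · rintro ⟨k, a, he⟩
    rw [hit, hit, hsm] at he
    have e1 : y * (g k y)⁻¹ = T.ι a * (x * (g k x)⁻¹) := congrArg Prod.fst he
    have e2 : τ k y = τ k x := by simpa using congrArg (fun p : X => (p.2 k).1) he
    obtain ⟨-, m1, hm1, a2⟩ := inv k x
    obtain ⟨-, m2, hm2, b2⟩ := inv k y
    obtain ⟨n, hn⟩ := hMr k _ (mul_mem (inv_mem hm1) hm2)
    refine ⟨a * T.κ (x * (τ k x)⁻¹) n, ?_⟩
    rw [map_mul, T.spec, hn]
    rw [mul_inv_eq_iff_eq_mul, a2, b2, e2] at e1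
    rw [e1]
    group

theorem HS_of_open (S : Subgroup N) (hS : IsOpen (S : Set N)) (hκ : ∀ g, ∀ s ∈ S, T.κ g s ∈ S)
    (hnil : ∀ A : Subgroup N, (∀ a ∈ A, ∀ b ∈ A, a * b * a⁻¹ * b⁻¹ ∈ S) → Group.IsNilpotent A) :
    T.HS := by
  have hSn : ∀ n, ∀ s ∈ S, n * s * n⁻¹ ∈ S := fun n s hs => T.κ_ι n s ▸ hκ _ s hs
  have : S.Normal := ⟨fun s hs n => hSn n s hs⟩
  obtain ⟨d, hd⟩ := TopologicalSpace.exists_dense_seq N
  let Nk : ℕ → Subgroup N := fun k => Subgroup.closure (S ∪ d '' Iio k)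
  have hSN : ∀ k, S ≤ Nk k := fun k s hs => Subgroup.subset_closure (Or.inl hs)
  have hNm : Monotone Nk := fun i j hij =>
    Subgroup.closure_mono (union_subset_union_right _ (image_mono (Iio_subset_Iio hij)))
  let Cn : N → Subgroup G := fun n =>
    { carrier := {g | T.κ g n * n⁻¹ ∈ S}
      one_mem' := by simp [T.κ_one]
      mul_mem' := by
        intro a b ha hb
        have := mul_mem (hκ a _ hb) ha
        simpa [T.κ_mul, T.κ_inv, T.κ_comp, mul_assoc] using this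
      inv_mem' := by
        intro a ha
        have := inv_mem (hκ a⁻¹ _ ha)
        simpa [T.κ_mul, T.κ_inv, ← T.κ_comp, T.κ_one] using this }
  have hCn : ∀ n g, g ∈ Cn n ↔ T.κ g n * n⁻¹ ∈ S := fun _ _ => Iff.rfl
  let C : ℕ → Subgroup G := fun k => ⨅ i ∈ Iio k, Cn (d i)
  have hCa : Antitone C := fun i j hij => biInf_mono (Iio_subset_Iio hij)
  have hCo : ∀ k, IsOpen (C k : Set G) := by
    intro k
    simp only [C, Subgroup.coe_iInf]
    exact (finite_Iio k).isOpen_biInter fun i _ =>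
      hS.preimage ((T.continuous_κ' (d i)).mul continuous_const)
  have hCN : ∀ k, ∀ g ∈ C k, ∀ m ∈ Nk k, T.κ g m * m⁻¹ ∈ S := by
    intro k g hg m hm
    induction hm using Subgroup.closure_induction with
    | mem x hx =>
      rcases hx with hx | ⟨i, hi, rfl⟩
      · exact mul_mem (hκ g x hx) (inv_mem hx)
      · exact Subgroup.mem_iInf.mp (Subgroup.mem_iInf.mp hg i) hi
    | one => simp [T.κ_one']
    | mul x y _ _ hx hy =>
      have := mul_mem hx (hSn x _ hy)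
      simpa [T.κ_mul, mul_assoc] using this
    | inv x _ hx =>
      have := hSn x⁻¹ _ (inv_mem hx)
      simpa [T.κ_inv, mul_assoc] using this
  have hSC : ∀ k, ∀ s ∈ S, T.ι s ∈ C k := by
    intro k s hs
    refine Subgroup.mem_iInf.mpr fun i => Subgroup.mem_iInf.mpr fun _ => ?_
    rw [hCn, T.κ_ι]
    simpa [mul_assoc] using mul_mem hs (hSn (d i) _ (inv_mem hs))
  have hNC : ∀ k, ∀ m ∈ Nk k, ∀ g ∈ C k, T.ι m * g * (T.ι m)⁻¹ ∈ C k := by
    intro k m hm g hg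
    have h1 := hSC k _ (inv_mem (hCN k g hg m hm))
    have := mul_mem h1 hg
    simpa [T.spec, mul_assoc] using this
  let Z : ℕ → Subgroup N := fun k => Nk k ⊓ (C k).comap T.ι
  let A : Subgroup N := ⨆ k, Z k
  have hZA : ∀ k, Z k ≤ A := le_iSup Z
  have hSA : S ≤ A := fun s hs => hZA 0 ⟨hSN 0 hs, hSC 0 s hs⟩
  have hcomm : ∀ a ∈ A, ∀ b ∈ A, a * b * a⁻¹ * b⁻¹ ∈ S := by
    have h1 : ∀ i j, i ≤ j → ∀ a ∈ Z i, ∀ b ∈ Z j, Commute (a : N ⧸ S) b := by
      intro i j hij a ha b hb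
      have := hCN j _ hb.2 a (hNm hij ha.1)
      rw [T.κ_ι, ← QuotientGroup.eq_one_iff] at this
      simp only [QuotientGroup.mk_mul, QuotientGroup.mk_inv] at this
      exact (commutatorElement_eq_one_iff_commute.mp this).symm
    have h2 : ∀ i j, ∀ a ∈ Z i, ∀ b ∈ Z j, Commute (a : N ⧸ S) b := by
      intro i j a ha b hb
      rcases le_total i j with h | h
      · exact h1 i j h a ha b hb
      · exact (h1 j i h b hb a ha).symm
    have h3 : ∀ i, ∀ a ∈ Z i, ∀ b ∈ A, Commute (a : N ⧸ S) b := by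
      intro i a ha b hb
      refine Subgroup.iSup_induction Z (C := fun b => Commute (a : N ⧸ S) b) hb
        (fun j b hb => h2 i j a ha b hb) (by simp) fun x y hx hy => ?_
      simpa using hx.mul_right hy
    intro a ha b hb
    have h4 : Commute (a : N ⧸ S) b := by
      refine Subgroup.iSup_induction Z (C := fun a => Commute (a : N ⧸ S) b) ha
        (fun j a ha => h3 j a ha b hb) (by simp) fun x y hx hy => ?_
      simpa using hx.mul_left hy
    rw [← QuotientGroup.eq_one_iff]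
    simp only [QuotientGroup.mk_mul, QuotientGroup.mk_inv]
    exact commutatorElement_eq_one_iff_commute.mpr h4
  have := hnil A hcomm
  let W : ℕ → Subgroup G := fun k =>
    { carrier := {g | ∃ a ∈ A, a ∈ Nk k ∧ (T.ι a)⁻¹ * g ∈ C k}
      one_mem' := ⟨1, one_mem _, one_mem _, by simp⟩
      mul_mem' := by
        rintro x y ⟨a, ha, ha', hx⟩ ⟨b, hb, hb', hy⟩
        refine ⟨a * b, mul_mem ha hb, mul_mem ha' hb', ?_⟩
        have := mul_mem (hNC k b⁻¹ (inv_mem hb') _ hx) hy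
        simpa [mul_assoc] using this
      inv_mem' := by
        rintro x ⟨a, ha, ha', hx⟩
        refine ⟨a⁻¹, inv_mem ha, inv_mem ha', ?_⟩
        have := hNC k a ha' _ (inv_mem hx)
        simpa [mul_assoc] using this }
  have hCW : ∀ k, C k ≤ W k := fun k g hg => ⟨1, one_mem _, one_mem _, by simpa using hg⟩
  have hAW : ∀ k, ∀ a ∈ A, T.ι a ∈ W k := by
    intro k
    have : A ≤ (W k).comap T.ι := by
      refine iSup_le fun j a ha => ?_
      rcases le_total j k with h | h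
      · exact ⟨a, hZA j ha, hNm h ha.1, by simp⟩
      · exact hCW k (hCa h ha.2)
    exact this
  refine T.HS_of_data A (Subgroup.isOpen_mono hSA hS) W (fun k => (Nk k).map T.ι)
    (fun k => Subgroup.isOpen_mono (hCW k) (hCo k)) (antitone_nat_of_succ_le fun k => ?_)
    (fun i j hij => Subgroup.map_mono (hNm hij)) (fun n => ?_) ?_ hAW ?_ ?_
  · rintro g ⟨a, ha, -, hg⟩
    have := mul_mem (hAW k a ha) (hCW k (hCa (Nat.le_succ k) hg))
    simpa using this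
  · obtain ⟨i, hi⟩ := hd.exists_mem_open (hS.preimage (f := fun y => n * y⁻¹) (by fun_prop))
      ⟨n, by simp⟩
    refine ⟨i + 1, n, ?_, rfl⟩
    have := mul_mem (hSN (i + 1) hi)
      (Subgroup.subset_closure (Or.inr ⟨i, Nat.lt_succ_self i, rfl⟩) : d i ∈ Nk (i + 1))
    simpa using this
  · rintro k _ ⟨n, -, rfl⟩
    exact ⟨n, rfl⟩
  · rintro k w ⟨a, -, ha', hw⟩ _ ⟨m, hm, rfl⟩
    refine ⟨a * (T.κ ((T.ι a)⁻¹ * w) m * m⁻¹ * m) * a⁻¹,
      mul_mem (mul_mem ha' (mul_mem (hSN k (hCN k _ hw m hm)) hm)) (inv_mem ha'), ?_⟩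
    simp [T.spec, mul_assoc]
  · rintro k _ ⟨m, hm, rfl⟩ ⟨a, ha, ha', hw⟩
    refine ⟨m, ?_, rfl⟩
    have hm' : m ∈ Nk k := hm
    have h1 : a⁻¹ * m ∈ Nk k := mul_mem (inv_mem ha') hm'
    have : a⁻¹ * m ∈ A := hZA k ⟨h1, by simpa using hw⟩
    simpa using mul_mem ha this

end Tri

end Pool.Agent.MP_ede9a8_lc

end MrgPart1

-- ======== part 2: formerly Pool.Agent.MP_ede9a8_lc.Gle
section MrgPart2

/-!
Gleason data on a topological group and its one-parameter subgroups.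
-/

namespace Pool.Agent.MP_ede9a8_lc

open Set Function Filter Topology Pointwise

/-- An almost additive isometric cocycle defining the topology near the identity. -/
structure Gle (N E : Type) [Group N] [TopologicalSpace N] [NormedAddCommGroup E] where
  c : N → E
  iso : ∀ g h, ‖c h - c g‖ = ‖c (g⁻¹ * h)‖
  add : ∀ g h, ‖c h‖ ≤ 1 → ‖c (g * h) - c g - c h‖ ≤ ‖c g‖ * ‖c h‖
  cont : Continuous c
  nhd : ∀ W ∈ 𝓝 (1 : N), ∃ ε > 0, ∀ g, ‖c g‖ < ε → g ∈ W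
  cpt : IsCompact {g | ‖c g‖ ≤ 1}

lemma hasDerivAt_of_sq {E : Type} [NormedAddCommGroup E] [NormedSpace ℝ E] {f : ℝ → E} {v : E}
    {K : ℝ} (h : ∀ᶠ t in 𝓝 (0 : ℝ), ‖f t - t • v‖ ≤ K * t ^ 2) : HasDerivAt f v 0 := by
  have h0 : f 0 = 0 := by simpa using h.self_of_nhds
  rw [hasDerivAt_iff_isLittleO_nhds_zero]
  simp only [zero_add, h0, sub_zero]
  refine (Asymptotics.IsBigO.of_bound K ?_).trans_isLittleO
    (Asymptotics.isLittleO_pow_id (show 1 < 2 by norm_num))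
  filter_upwards [h] with t ht
  simpa using ht

namespace Gle

variable {N E : Type} [Group N] [TopologicalSpace N] [NormedAddCommGroup E] (Γ : Gle N E)

@[simp] lemma c_one : Γ.c 1 = 0 := by
  have := Γ.iso 1 1
  simpa using this.symm

lemma n_inv (g : N) : ‖Γ.c g⁻¹‖ = ‖Γ.c g‖ := by
  have := Γ.iso g 1
  simpa using this.symm

lemma n_mul (g h : N) : ‖Γ.c (g * h)‖ ≤ ‖Γ.c g‖ + ‖Γ.c h‖ := by
  have := Γ.iso g⁻¹ h
  rw [inv_inv] at this
  rw [← this, ← Γ.n_inv g, add_comm]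
  exact norm_sub_le _ _

lemma n_pow (g : N) (k : ℕ) : ‖Γ.c (g ^ k)‖ ≤ k * ‖Γ.c g‖ := by
  induction k with
  | zero => simp
  | succ k ih =>
    rw [pow_succ]
    have := Γ.n_mul (g ^ k) g
    push_cast
    linarith

lemma n_zpow (g : N) (m : ℤ) : ‖Γ.c (g ^ m)‖ ≤ |(m : ℝ)| * ‖Γ.c g‖ := by
  obtain ⟨k, rfl | rfl⟩ := m.eq_nat_or_neg
  · simpa using Γ.n_pow g k
  · simpa [Γ.n_inv] using Γ.n_pow g k

lemma tendsto_one {α : Type} {l : Filter α} {f : α → N}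
    (h : Tendsto (fun a => ‖Γ.c (f a)‖) l (𝓝 0)) : Tendsto f l (𝓝 1) := by
  intro W hW
  obtain ⟨ε, hε, h1⟩ := Γ.nhd W hW
  rw [mem_map]
  filter_upwards [h.eventually (gt_mem_nhds hε)] with a ha using h1 _ ha

lemma eq_one [T1Space N] {g : N} (h : ‖Γ.c g‖ = 0) : g = 1 := by
  by_contra hne
  obtain ⟨ε, hε, h1⟩ := Γ.nhd {g}ᶜ (isOpen_compl_singleton.mem_nhds (Ne.symm hne))
  exact h1 g (h ▸ hε) rfl

lemma conj_est {y g : N} (hy : ‖Γ.c y‖ ≤ 1 / 10) (hg : ‖Γ.c g‖ ≤ 1 / 2) :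
    ‖Γ.c (y⁻¹ * g * y)‖ ≤ 2 * ‖Γ.c g‖ ∧ ‖Γ.c (y⁻¹ * g * y) - Γ.c g‖ ≤ 3 * ‖Γ.c y‖ * ‖Γ.c g‖ := by
  have h1 := Γ.add g y (by linarith)
  have h2 : ‖Γ.c (y⁻¹ * g * y)‖ ≤ 1 := by
    have a := Γ.n_mul (y⁻¹ * g) y
    have b := Γ.n_mul y⁻¹ g
    rw [Γ.n_inv] at b
    linarith
  have h3 := Γ.add y (y⁻¹ * g * y) h2
  rw [show y * (y⁻¹ * g * y) = g * y by group] at h3
  have h4 : ‖Γ.c (y⁻¹ * g * y) - Γ.c g‖ ≤ ‖Γ.c g‖ * ‖Γ.c y‖ + ‖Γ.c y‖ * ‖Γ.c (y⁻¹ * g * y)‖ := by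
    have e : Γ.c (y⁻¹ * g * y) - Γ.c g = (Γ.c (g * y) - Γ.c g - Γ.c y)
        - (Γ.c (g * y) - Γ.c y - Γ.c (y⁻¹ * g * y)) := by abel
    rw [e]
    exact (norm_sub_le _ _).trans (add_le_add h1 h3)
  have h5 := norm_sub_norm_le (Γ.c (y⁻¹ * g * y)) (Γ.c g)
  have p1 := norm_nonneg (Γ.c g)
  have p2 := norm_nonneg (Γ.c y)
  have p3 := norm_nonneg (Γ.c (y⁻¹ * g * y))
  have h6 : ‖Γ.c (y⁻¹ * g * y)‖ ≤ 2 * ‖Γ.c g‖ := by nlinarith
  exact ⟨h6, by nlinarith⟩

lemma pow_mem_ball_pow {g : N} (hg : ‖Γ.c g‖ ≤ 1 / 2) (p : ℕ) :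
    ∀ m : ℕ, m * ‖Γ.c g‖ ≤ p / 2 → g ^ m ∈ {g | ‖Γ.c g‖ ≤ 1} ^ (p + 1) := by
  have hone : (1 : N) ∈ {g | ‖Γ.c g‖ ≤ 1} := by simp
  have small : ∀ p m : ℕ, m * ‖Γ.c g‖ ≤ 1 → g ^ m ∈ {g | ‖Γ.c g‖ ≤ 1} ^ (p + 1) := by
    intro p m hm
    refine Set.pow_subset_pow_right hone (show 1 ≤ p + 1 by omega) ?_
    rw [pow_one]
    exact (Γ.n_pow g m).trans hm
  induction p with
  | zero => intro m hm; exact small 0 m (by simp at hm ⊢; linarith [hm])
  | succ p ih =>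
    intro m hm
    by_cases h : m * ‖Γ.c g‖ ≤ 1
    · exact small _ m h
    · have hpos : 0 < ‖Γ.c g‖ := by
        refine (norm_nonneg _).lt_of_ne fun h0 => h ?_
        simp [← h0]
      let j := ⌊1 / ‖Γ.c g‖⌋₊
      have j1 : j * ‖Γ.c g‖ ≤ 1 := by
        rw [← le_div_iff₀ hpos]
        exact Nat.floor_le (by positivity)
      have j2 : 1 < (j + 1) * ‖Γ.c g‖ := by
        rw [← div_lt_iff₀ hpos]
        exact Nat.lt_floor_add_one _
      have j3 : j ≤ m := by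
        have : (j : ℝ) ≤ m := le_of_mul_le_mul_right (by linarith) hpos
        exact_mod_cast this
      obtain ⟨i, rfl⟩ := Nat.exists_eq_add_of_le j3
      rw [add_comm j i, pow_add g, pow_succ _ (p + 1)]
      refine mul_mem_mul (ih i ?_) ((Γ.n_pow g j).trans j1)
      push_cast at hm
      nlinarith

variable [NormedSpace ℝ E]

lemma pow_est {g : N} {δ : ℝ} (hg : ‖Γ.c g‖ ≤ 1) (k : ℕ) (h : ∀ i < k, ‖Γ.c (g ^ i)‖ ≤ δ) :
    ‖Γ.c (g ^ k) - (k : ℝ) • Γ.c g‖ ≤ δ * k * ‖Γ.c g‖ := by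
  induction k with
  | zero => simp
  | succ k ih =>
    have h1 := Γ.add (g ^ k) g hg
    have h2 := ih fun i hi => h i (by omega)
    have h3 := mul_le_mul_of_nonneg_right (h k (by omega)) (norm_nonneg (Γ.c g))
    have e : Γ.c (g ^ (k + 1)) - ((k + 1 : ℕ) : ℝ) • Γ.c g
        = (Γ.c (g ^ k * g) - Γ.c (g ^ k) - Γ.c g) + (Γ.c (g ^ k) - (k : ℝ) • Γ.c g) := by
      rw [pow_succ]
      push_cast
      rw [add_smul, one_smul]
      abel
    rw [e]
    refine (norm_add_le _ _).trans ?_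
    push_cast
    linarith

lemma pow_est' {g : N} {s : ℝ} (hg : ‖Γ.c g‖ ≤ 1) (k : ℕ) (h : k * ‖Γ.c g‖ ≤ s) :
    ‖Γ.c (g ^ k) - (k : ℝ) • Γ.c g‖ ≤ s ^ 2 := by
  have h0 : 0 ≤ (k : ℝ) * ‖Γ.c g‖ := by positivity
  refine (Γ.pow_est (δ := s) hg k fun i hi => (Γ.n_pow g i).trans (le_trans ?_ h)).trans ?_
  · gcongr
  · nlinarith

lemma zpow_est {g : N} {s : ℝ} (hg : ‖Γ.c g‖ ≤ 1) (m : ℤ) (h : |(m : ℝ)| * ‖Γ.c g‖ ≤ s) :
    ‖Γ.c (g ^ m) - (m : ℝ) • Γ.c g‖ ≤ 2 * s ^ 2 := by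
  obtain ⟨k, rfl | rfl⟩ := m.eq_nat_or_neg
  · have := Γ.pow_est' (s := s) hg k (by simpa using h)
    simp only [zpow_natCast, Int.cast_natCast]
    nlinarith [sq_nonneg s]
  · have h' : k * ‖Γ.c g‖ ≤ s := by simpa using h
    have h1 := Γ.pow_est' (g := g⁻¹) (s := s) (by rwa [Γ.n_inv]) k (by rwa [Γ.n_inv])
    have h2 := Γ.add g⁻¹ g hg
    rw [inv_mul_cancel, Γ.c_one, Γ.n_inv] at h2
    have e : Γ.c (g ^ (-(k : ℤ))) - ((-(k : ℤ) : ℤ) : ℝ) • Γ.c g
        = (Γ.c (g⁻¹ ^ k) - (k : ℝ) • Γ.c g⁻¹) - (k : ℝ) • (0 - Γ.c g⁻¹ - Γ.c g) := by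
      simp only [zpow_neg, zpow_natCast, inv_pow, Int.cast_neg, Int.cast_natCast, neg_smul,
        smul_sub, smul_zero]
      abel
    rw [e]
    refine (norm_sub_le _ _).trans ?_
    rw [norm_smul, Real.norm_natCast]
    have h3 : (k : ℝ) * (‖Γ.c g‖ * ‖Γ.c g‖) ≤ s ^ 2 := by
      rcases Nat.eq_zero_or_pos k with rfl | hk
      · simpa using sq_nonneg s
      · have : (1 : ℝ) ≤ k := by exact_mod_cast hk
        have p := norm_nonneg (Γ.c g)
        have : ‖Γ.c g‖ ≤ s := by nlinarith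
        nlinarith
    have h4 := mul_le_mul_of_nonneg_left h2 (Nat.cast_nonneg (α := ℝ) k)
    linarith

lemma diff_est {g h : N} {δ : ℝ} (hδ : δ ≤ 1 / 10) (hη : ‖Γ.c (g⁻¹ * h)‖ ≤ 1 / 2) (k : ℕ)
    (hk : ∀ i < k, ‖Γ.c (g ^ i)‖ ≤ δ ∧ ‖Γ.c (h ^ i)‖ ≤ δ) :
    ‖Γ.c ((g ^ k)⁻¹ * h ^ k) - (k : ℝ) • Γ.c (g⁻¹ * h)‖ ≤ 7 * δ * (k * ‖Γ.c (g⁻¹ * h)‖) := by
  induction k with
  | zero => simp
  | succ k ih =>
    have h2 := ih fun i hi => hk i (by omega)
    obtain ⟨a1, a2⟩ := hk k (by omega)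
    obtain ⟨b1, b2⟩ := Γ.conj_est (a1.trans hδ) hη
    have b3 : ‖Γ.c ((g ^ k)⁻¹ * h ^ k)‖ ≤ 2 * δ := by
      have := Γ.n_mul (g ^ k)⁻¹ (h ^ k)
      rw [Γ.n_inv] at this
      linarith
    have b4 := Γ.add ((g ^ k)⁻¹ * (g⁻¹ * h) * g ^ k) ((g ^ k)⁻¹ * h ^ k) (by linarith)
    have e : Γ.c ((g ^ (k + 1))⁻¹ * h ^ (k + 1)) - ((k + 1 : ℕ) : ℝ) • Γ.c (g⁻¹ * h)
        = (Γ.c ((g ^ k)⁻¹ * (g⁻¹ * h) * g ^ k * ((g ^ k)⁻¹ * h ^ k))
            - Γ.c ((g ^ k)⁻¹ * (g⁻¹ * h) * g ^ k) - Γ.c ((g ^ k)⁻¹ * h ^ k))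
          + (Γ.c ((g ^ k)⁻¹ * (g⁻¹ * h) * g ^ k) - Γ.c (g⁻¹ * h))
          + (Γ.c ((g ^ k)⁻¹ * h ^ k) - (k : ℝ) • Γ.c (g⁻¹ * h)) := by
      rw [show (g ^ (k + 1))⁻¹ * h ^ (k + 1)
        = (g ^ k)⁻¹ * (g⁻¹ * h) * g ^ k * ((g ^ k)⁻¹ * h ^ k) by rw [pow_succ' g, pow_succ' h]; group]
      push_cast
      rw [add_smul, one_smul]
      abel
    rw [e]
    refine (norm_add₃_le).trans ?_
    push_cast
    have p1 := norm_nonneg (Γ.c (g⁻¹ * h))
    have p2 := norm_nonneg (Γ.c (g ^ k))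
    have p3 := norm_nonneg (Γ.c ((g ^ k)⁻¹ * h ^ k))
    have c1 : ‖Γ.c ((g ^ k)⁻¹ * (g⁻¹ * h) * g ^ k)‖ * ‖Γ.c ((g ^ k)⁻¹ * h ^ k)‖
        ≤ (2 * ‖Γ.c (g⁻¹ * h)‖) * (2 * δ) := mul_le_mul b1 b3 p3 (by positivity)
    have c2 : 3 * ‖Γ.c (g ^ k)‖ * ‖Γ.c (g⁻¹ * h)‖ ≤ 3 * δ * ‖Γ.c (g⁻¹ * h)‖ := by gcongr
    linarith

/-- `X` is a one-parameter subgroup with derivative `v`. -/
def HasGen (X : ℝ → N) (v : E) : Prop :=
  (∀ s t, X (s + t) = X s * X t) ∧ HasDerivAt (fun t => Γ.c (X t)) v 0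

omit [TopologicalSpace N] in
lemma hom_zero {X : ℝ → N} (h : ∀ s t, X (s + t) = X s * X t) : X 0 = 1 := by
  have := h 0 0
  simpa using this

omit [TopologicalSpace N] in
lemma hom_neg {X : ℝ → N} (h : ∀ s t, X (s + t) = X s * X t) (t : ℝ) : X (-t) = (X t)⁻¹ := by
  rw [eq_inv_iff_mul_eq_one, ← h, neg_add_cancel, hom_zero h]

omit [TopologicalSpace N] in
lemma hom_pow {X : ℝ → N} (h : ∀ s t, X (s + t) = X s * X t) (t : ℝ) (k : ℕ) :
    X (k * t) = X t ^ k := by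
  induction k with
  | zero => simp [hom_zero h]
  | succ k ih => rw [pow_succ, ← ih, ← h]; push_cast; ring_nf

omit [TopologicalSpace N] in
lemma hom_zpow {X : ℝ → N} (h : ∀ s t, X (s + t) = X s * X t) (t : ℝ) (m : ℤ) :
    X (m * t) = X t ^ m := by
  obtain ⟨k, rfl | rfl⟩ := m.eq_nat_or_neg
  · simpa using hom_pow h t k
  · simp [hom_neg h, hom_pow h]

variable {Γ}

lemma HasGen.lim {X : ℝ → N} {v : E} (h : Γ.HasGen X v) (t : ℝ) :
    Tendsto (fun k : ℕ => ((k : ℝ) + 1) • Γ.c (X (t / (k + 1)))) atTop (𝓝 (t • v)) := by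
  rcases eq_or_ne t 0 with rfl | ht
  · simp [hom_zero h.1]
  have h1 := hasDerivAt_iff_tendsto_slope_zero.mp h.2
  have h2 : Tendsto (fun k : ℕ => t / ((k : ℝ) + 1)) atTop (𝓝[≠] 0) := by
    refine tendsto_nhdsWithin_iff.mpr ⟨?_, Eventually.of_forall fun k => ?_⟩
    · simpa [div_eq_mul_inv] using tendsto_one_div_add_atTop_nhds_zero_nat.const_mul t
    · exact div_ne_zero ht (by positivity)
  have h3 := (h1.comp h2).const_smul t
  refine h3.congr fun k => ?_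
  simp only [comp_apply, zero_add, hom_zero h.1, c_one, sub_zero, smul_smul]
  congr 1
  field_simp

lemma HasGen.split {X : ℝ → N} {v : E} (h : Γ.HasGen X v) (t : ℝ) (k : ℕ) :
    X (t / (k + 1)) ^ (k + 1) = X t := by
  rw [← hom_pow h.1]
  congr 1
  push_cast
  field_simp

lemma HasGen.n_le {X : ℝ → N} {v : E} (h : Γ.HasGen X v) (t : ℝ) : ‖Γ.c (X t)‖ ≤ |t| * ‖v‖ := by
  have h1 := (h.lim t).norm
  rw [norm_smul, Real.norm_eq_abs] at h1
  refine ge_of_tendsto' h1 fun k => ?_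
  rw [norm_smul, Real.norm_of_nonneg (by positivity), ← h.split t k]
  simpa using Γ.n_pow (X (t / (k + 1))) (k + 1)

lemma HasGen.n_div {X : ℝ → N} {v : E} (h : Γ.HasGen X v) (t : ℝ) (k : ℕ) :
    ((k : ℝ) + 1) * ‖Γ.c (X (t / (k + 1)))‖ ≤ |t| * ‖v‖ := by
  have := h.n_le (t / (k + 1))
  rw [abs_div, abs_of_pos (show (0 : ℝ) < k + 1 by positivity), div_mul_eq_mul_div,
    le_div_iff₀ (by positivity)] at this
  linarith

lemma HasGen.est {X : ℝ → N} {v : E} (h : Γ.HasGen X v) (t : ℝ) (ht : |t| * ‖v‖ ≤ 1) :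
    ‖Γ.c (X t) - t • v‖ ≤ (|t| * ‖v‖) ^ 2 := by
  refine le_of_tendsto' ((tendsto_const_nhds.sub (h.lim t)).norm) fun k => ?_
  have h1 := h.n_div t k
  have h2 : ‖Γ.c (X (t / (k + 1)))‖ ≤ 1 := by
    nlinarith [norm_nonneg (Γ.c (X (t / (k + 1)))), Nat.cast_nonneg (α := ℝ) k]
  have := Γ.pow_est' h2 (k + 1) (by simpa using h1)
  rw [h.split] at this
  simpa using this

lemma HasGen.continuous [IsTopologicalGroup N] {X : ℝ → N} {v : E} (h : Γ.HasGen X v) :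
    Continuous X := by
  refine continuous_iff_continuousAt.mpr fun t => ?_
  have h1 : Tendsto (fun s => X (s - t)) (𝓝 t) (𝓝 1) := by
    refine Γ.tendsto_one (squeeze_zero (fun _ => norm_nonneg _) (fun s => h.n_le _) ?_)
    have : Continuous fun s : ℝ => |s - t| * ‖v‖ := by fun_prop
    simpa using this.tendsto t
  have h2 : X = fun s => X t * X (s - t) := funext fun s => by rw [← h.1]; simp
  rw [h2]
  simpa [ContinuousAt, hom_zero h.1] using h1.const_mul (X t)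

lemma HasGen.smul {X : ℝ → N} {v : E} (h : Γ.HasGen X v) (a : ℝ) :
    Γ.HasGen (fun t => X (a * t)) (a • v) := by
  refine ⟨fun s t => by simp only [mul_add, h.1], ?_⟩
  have h1 : HasDerivAt (fun t : ℝ => a * t) a 0 := by simpa using (hasDerivAt_id (0 : ℝ)).const_mul a
  exact HasDerivAt.scomp_of_eq 0 h.2 h1 (by simp)

lemma HasGen.prod_lim {X Y : ℝ → N} {u v : E} (hX : Γ.HasGen X u) (hY : Γ.HasGen Y v) (a b : ℝ) :
    Tendsto (fun k : ℕ => ((k : ℝ) + 1) • Γ.c (X (a / (k + 1)) * Y (b / (k + 1)))) atTop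
      (𝓝 (a • u + b • v)) := by
  have h0 : Tendsto (fun k : ℕ => ‖Γ.c (Y (b / (k + 1)))‖) atTop (𝓝 0) := by
    refine squeeze_zero (fun _ => norm_nonneg _) (fun k => hY.n_le _) ?_
    have h2 : Tendsto (fun k : ℕ => b / ((k : ℝ) + 1)) atTop (𝓝 0) := by
      simpa [div_eq_mul_inv] using tendsto_one_div_add_atTop_nhds_zero_nat.const_mul b
    simpa using h2.abs.mul_const ‖v‖
  have h1 : Tendsto (fun k : ℕ => ((k : ℝ) + 1) • (Γ.c (X (a / (k + 1)) * Y (b / (k + 1)))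
      - Γ.c (X (a / (k + 1))) - Γ.c (Y (b / (k + 1))))) atTop (𝓝 0) := by
    refine squeeze_zero_norm' ?_ (by simpa using h0.const_mul (|a| * ‖u‖))
    filter_upwards [h0.eventually (gt_mem_nhds one_pos)] with k hk
    rw [norm_smul, Real.norm_of_nonneg (by positivity)]
    refine (mul_le_mul_of_nonneg_left (Γ.add _ _ hk.le) (by positivity)).trans ?_
    rw [← mul_assoc]
    exact mul_le_mul_of_nonneg_right (hX.n_div a k) (norm_nonneg _)
  have := (h1.add (hX.lim a)).add (hY.lim b)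
  rw [zero_add] at this
  refine this.congr fun k => ?_
  simp only [smul_sub]
  abel

lemma HasGen.diff {X Y : ℝ → N} {u v : E} (hX : Γ.HasGen X u) (hY : Γ.HasGen Y v) {δ : ℝ}
    (hδ : δ ≤ 1 / 10) (hu : ‖u‖ ≤ δ) (hv : ‖v‖ ≤ δ) :
    ‖Γ.c ((X 1)⁻¹ * Y 1) - (v - u)‖ ≤ 7 * δ * ‖v - u‖ := by
  have h1 := hX.prod_lim hY (-1) 1
  have e : (-1 : ℝ) • u + (1 : ℝ) • v = v - u := by simp [add_comm, sub_eq_add_neg]
  rw [e] at h1
  refine le_of_tendsto_of_tendsto' ((tendsto_const_nhds.sub h1).norm)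
    (h1.norm.const_mul (7 * δ)) fun k => ?_
  have hk : (0 : ℝ) < k + 1 := by positivity
  have bd : ∀ {Z : ℝ → N} {w : E}, Γ.HasGen Z w → ‖w‖ ≤ δ → ∀ i ≤ k + 1,
      ‖Γ.c (Z (1 / (k + 1)) ^ i)‖ ≤ δ := by
    intro Z w hZ hw i hi
    have a1 := hZ.n_div 1 k
    have a2 : (i : ℝ) ≤ k + 1 := by exact_mod_cast hi
    refine (Γ.n_pow _ i).trans ?_
    have := mul_le_mul_of_nonneg_right a2 (norm_nonneg (Γ.c (Z (1 / (k + 1)))))
    simp only [abs_one, one_mul] at a1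
    linarith
  have b1 := bd hX hu 1 (by omega)
  have b2 := bd hY hv 1 (by omega)
  rw [pow_one] at b1 b2
  have b3 := Γ.n_mul (X (1 / (k + 1)))⁻¹ (Y (1 / (k + 1)))
  rw [Γ.n_inv] at b3
  have := Γ.diff_est (g := X (1 / (k + 1))) (h := Y (1 / (k + 1))) hδ (by linarith) (k + 1)
    fun i hi => ⟨bd hX hu i hi.le, bd hY hv i hi.le⟩
  rw [hX.split, hY.split] at this
  rw [neg_div, hom_neg hX.1, norm_smul, Real.norm_of_nonneg hk.le]
  simpa using this

lemma HasGen.unique [T1Space N] {X Y : ℝ → N} {v : E} (hX : Γ.HasGen X v) (hY : Γ.HasGen Y v) :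
    X = Y := by
  funext t
  obtain ⟨k, hk⟩ := exists_nat_gt (10 * ‖t • v‖)
  have h1 : ‖(t / (k + 1)) • v‖ ≤ 1 / 10 := by
    rw [div_eq_inv_mul, mul_smul, norm_smul, norm_inv, Real.norm_of_nonneg (by positivity),
      inv_mul_le_iff₀ (by positivity)]
    linarith
  have := (hX.smul (t / (k + 1))).diff (hY.smul (t / (k + 1))) le_rfl h1 h1
  simp only [mul_one, sub_self, sub_zero, norm_zero, mul_zero] at this
  have h2 := Γ.eq_one (le_antisymm this (norm_nonneg _))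
  rw [inv_mul_eq_one] at h2
  rw [← hX.split t k, ← hY.split t k, h2]

variable (Γ)

theorem key [IsTopologicalGroup N] [T2Space N] [CompleteSpace E] (U : Ultrafilter ℕ) (g : ℕ → N)
    (s : ℕ → ℝ) (hs : ∀ k, 0 < s k) (hs0 : Tendsto s U (𝓝 0)) (A : ℝ)
    (hA : ∀ᶠ k in U, ‖Γ.c (g k)‖ ≤ A * s k) :
    ∃ X v, Γ.HasGen X v ∧ Tendsto (fun k => (s k)⁻¹ • Γ.c (g k)) U (𝓝 v) ∧
      ∀ t, Tendsto (fun k => g k ^ ⌊t / s k⌋) U (𝓝 (X t)) := by
  have hA0 : 0 ≤ A := by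
    obtain ⟨k, hk⟩ := hA.exists
    exact nonneg_of_mul_nonneg_left ((norm_nonneg _).trans hk) (hs k)
  have hg0 : Tendsto (fun k => ‖Γ.c (g k)‖) U (𝓝 0) :=
    squeeze_zero' (Eventually.of_forall fun _ => norm_nonneg _) hA (by simpa using hs0.const_mul A)
  have hfl : ∀ t k, |(⌊t / s k⌋ : ℝ) * s k - t| ≤ s k := by
    intro t k
    have a1 := Int.floor_le (t / s k)
    have a2 := Int.lt_floor_add_one (t / s k)
    rw [le_div_iff₀ (hs k)] at a1
    rw [div_lt_iff₀ (hs k)] at a2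
    rw [abs_le]
    constructor <;> linarith [hs k]
  have hm : ∀ t, ∀ᶠ k in U, |(⌊t / s k⌋ : ℝ)| * ‖Γ.c (g k)‖ ≤ (|t| + s k) * A := by
    intro t
    filter_upwards [hA] with k hk
    have a1 : |(⌊t / s k⌋ : ℝ)| * s k ≤ |t| + s k := by
      have := abs_sub_abs_le_abs_sub ((⌊t / s k⌋ : ℝ) * s k) t
      rw [abs_mul, abs_of_pos (hs k)] at this
      linarith [hfl t k]
    calc _ ≤ |(⌊t / s k⌋ : ℝ)| * (A * s k) := by gcongr
      _ = (|(⌊t / s k⌋ : ℝ)| * s k) * A := by ring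
      _ ≤ _ := by gcongr
  have hex : ∀ t, ∃ x, Tendsto (fun k => g k ^ ⌊t / s k⌋) U (𝓝 x) := by
    intro t
    obtain ⟨p, hp⟩ := exists_nat_ge (2 * ((|t| + 1) * A))
    obtain ⟨x, -, hx⟩ := (isCompact_pow Γ.cpt (p + 1)).ultrafilter_le_nhds'
      (U.map fun k => g k ^ ⌊t / s k⌋) (by
        rw [Ultrafilter.mem_map]
        filter_upwards [hm t, hs0.eventually (gt_mem_nhds one_pos),
          hg0.eventually (gt_mem_nhds (show (0 : ℝ) < 1 / 2 by norm_num))] with k a1 a2 a3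
        have a4 : |(⌊t / s k⌋ : ℝ)| * ‖Γ.c (g k)‖ ≤ p / 2 := by
          have : (|t| + s k) * A ≤ (|t| + 1) * A := by gcongr
          linarith
        rw [mem_preimage]
        generalize ⌊t / s k⌋ = m at a4
        obtain ⟨j, rfl | rfl⟩ := m.eq_nat_or_neg
        · simpa using Γ.pow_mem_ball_pow a3.le p j (by simpa using a4)
        · simpa using Γ.pow_mem_ball_pow (g := (g k)⁻¹) (by rw [Γ.n_inv]; exact a3.le) p j
            (by rw [Γ.n_inv]; simpa using a4))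
    exact ⟨x, hx⟩
  choose X hX using hex
  have hhom : ∀ a b, X (a + b) = X a * X b := by
    intro a b
    have h1 : Tendsto (fun k => g k ^ (⌊(a + b) / s k⌋ - ⌊a / s k⌋ - ⌊b / s k⌋)) U (𝓝 1) := by
      refine Γ.tendsto_one (squeeze_zero (fun _ => norm_nonneg _) (fun k => ?_) hg0)
      refine (Γ.n_zpow _ _).trans (mul_le_of_le_one_left (norm_nonneg _) ?_)
      have a1 := Int.le_floor_add (a / s k) (b / s k)
      have a2 := Int.le_floor_add_floor (a / s k) (b / s k)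
      rw [add_div]
      have : |⌊a / s k + b / s k⌋ - ⌊a / s k⌋ - ⌊b / s k⌋| ≤ 1 := by
        rw [abs_le]
        constructor <;> omega
      exact_mod_cast this
    have h2 := ((hX a).mul (hX b)).mul h1
    rw [mul_one] at h2
    refine tendsto_nhds_unique (hX (a + b)) (h2.congr fun k => ?_)
    rw [← zpow_add, ← zpow_add]
    congr 1
    ring
  have hest : ∀ t, ∀ᶠ k in U, ‖Γ.c (g k ^ ⌊t / s k⌋) - t • (s k)⁻¹ • Γ.c (g k)‖
      ≤ 2 * ((|t| + s k) * A) ^ 2 + s k * A := by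
    intro t
    filter_upwards [hm t, hA, hg0.eventually (gt_mem_nhds one_pos)] with k a1 a2 a3
    have b1 := Γ.zpow_est a3.le _ a1
    have e : Γ.c (g k ^ ⌊t / s k⌋) - t • (s k)⁻¹ • Γ.c (g k)
        = (Γ.c (g k ^ ⌊t / s k⌋) - (⌊t / s k⌋ : ℝ) • Γ.c (g k))
          + ((⌊t / s k⌋ : ℝ) * s k - t) • (s k)⁻¹ • Γ.c (g k) := by
      rw [sub_smul, mul_smul, smul_inv_smul₀ (hs k).ne']
      abel
    rw [e]
    refine (norm_add_le _ _).trans (add_le_add b1 ?_)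
    rw [norm_smul, norm_smul, norm_inv, Real.norm_of_nonneg (hs k).le, Real.norm_eq_abs]
    refine mul_le_mul (hfl t k) ?_ (by have := hs k; positivity) (hs k).le
    rw [inv_mul_le_iff₀ (hs k)]
    linarith
  have hlim : ∀ t, Tendsto (fun k => 2 * ((|t| + s k) * A) ^ 2 + s k * A) U
      (𝓝 (2 * A ^ 2 * t ^ 2)) := by
    intro t
    have := ((((hs0.const_add |t|).mul_const A).pow 2).const_mul 2).add (hs0.mul_const A)
    convert this using 2
    rw [add_zero, zero_mul, add_zero, mul_pow, sq_abs]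
    ring
  have hc : Cauchy (map (fun k => (s k)⁻¹ • Γ.c (g k)) U) := by
    refine Metric.cauchy_iff.mpr ⟨inferInstance, fun ε hε => ?_⟩
    obtain ⟨t, ht, ht'⟩ : ∃ t : ℝ, 0 < t ∧ 2 * A ^ 2 * t < ε / 2 := by
      refine ⟨ε / (8 * (A ^ 2 + 1)), by positivity, ?_⟩
      rw [← mul_div_assoc, div_lt_iff₀ (by positivity)]
      nlinarith [sq_nonneg A]
    refine ⟨Metric.ball (t⁻¹ • Γ.c (X t)) (ε / 2), ?_, fun x hx y hy => ?_⟩
    · have h1 : Tendsto (fun k => ‖Γ.c (X t) - Γ.c (g k ^ ⌊t / s k⌋)‖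
          + (2 * ((|t| + s k) * A) ^ 2 + s k * A)) U (𝓝 (2 * A ^ 2 * t ^ 2)) := by
        have := (((Γ.cont.tendsto _).comp (hX t)).const_sub (Γ.c (X t))).norm.add (hlim t)
        simpa using this
      rw [mem_map]
      filter_upwards [hest t, h1.eventually (gt_mem_nhds
        (show 2 * A ^ 2 * t ^ 2 < t * (ε / 2) by nlinarith))] with k a1 a2
      rw [mem_preimage, mem_ball_iff_norm']
      have e : t⁻¹ • Γ.c (X t) - (s k)⁻¹ • Γ.c (g k) = t⁻¹ • ((Γ.c (X t) - Γ.c (g k ^ ⌊t / s k⌋))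
          + (Γ.c (g k ^ ⌊t / s k⌋) - t • (s k)⁻¹ • Γ.c (g k))) := by
        rw [sub_add_sub_cancel, smul_sub, inv_smul_smul₀ ht.ne']
      rw [e, norm_smul, norm_inv, Real.norm_of_nonneg ht.le, inv_mul_lt_iff₀ ht]
      exact lt_of_le_of_lt ((norm_add_le _ _).trans (add_le_add le_rfl a1)) a2
    · have := dist_triangle_right x y (t⁻¹ • Γ.c (X t))
      rw [Metric.mem_ball] at hx hy
      linarith
  obtain ⟨v, hv⟩ := CompleteSpace.complete hc
  refine ⟨X, v, ⟨hhom, hasDerivAt_of_sq (K := 2 * A ^ 2) (Eventually.of_forall fun t => ?_)⟩, hv, hX⟩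
  exact le_of_tendsto_of_tendsto
    ((((Γ.cont.tendsto _).comp (hX t)).sub (Tendsto.const_smul hv t)).norm) (hlim t) (hest t)

end Gle

end Pool.Agent.MP_ede9a8_lc

end MrgPart2

-- ======== part 3: formerly Pool.Agent.MP_ede9a8_lc.Lie
section MrgPart3

/-!
The vector space of one-parameter subgroups, the exponential map and a local inverse theorem.
-/

namespace Pool.Agent.MP_ede9a8_lc

open Set Function Filter Topology Pointwise Asymptotics

lemma tendsto_inv_succ : Tendsto (fun k : ℕ => 1 / ((k : ℝ) + 1)) (hyperfilter ℕ) (𝓝 0) :=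
  tendsto_one_div_add_atTop_nhds_zero_nat.mono_left Nat.hyperfilter_le_atTop

namespace Gle

variable {N E : Type} [Group N] [TopologicalSpace N] [IsTopologicalGroup N] [T2Space N]
  [NormedAddCommGroup E] [NormedSpace ℝ E] [CompleteSpace E] (Γ : Gle N E)

variable {Γ} in
lemma HasGen.add {X Y : ℝ → N} {u v : E} (hX : Γ.HasGen X u) (hY : Γ.HasGen Y v) :
    ∃ Z, Γ.HasGen Z (u + v) ∧ Tendsto (fun k : ℕ => (X (1 / (k + 1)) * Y (1 / (k + 1))) ^ (k + 1))
      (hyperfilter ℕ) (𝓝 (Z 1)) := by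
  obtain ⟨Z, w, h1, h2, h3⟩ := Γ.key (hyperfilter ℕ) (fun k => X (1 / (k + 1)) * Y (1 / (k + 1)))
    (fun k => 1 / (k + 1)) (fun k => by positivity) tendsto_inv_succ (‖u‖ + ‖v‖)
    (Eventually.of_forall fun k => by
      have a := hX.n_le (1 / (k + 1))
      have b := hY.n_le (1 / (k + 1))
      rw [abs_of_pos (by positivity)] at a b
      have := Γ.n_mul (X (1 / (k + 1))) (Y (1 / (k + 1)))
      linarith)
  have h4 := (hX.prod_lim hY 1 1).mono_left Nat.hyperfilter_le_atTop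
  simp only [one_smul] at h4
  simp only [one_div, inv_inv] at h2 h4
  have := tendsto_nhds_unique h2 h4
  refine ⟨Z, this ▸ h1, (h3 1).congr fun k => ?_⟩
  rw [one_div_one_div, ← zpow_natCast]
  congr 1
  exact_mod_cast Int.floor_natCast (R := ℝ) (k + 1)

/-- the Lie algebra -/
def V : Submodule ℝ E where
  carrier := {v | ∃ X, Γ.HasGen X v}
  zero_mem' := ⟨fun _ => 1, fun _ _ => by simp, by simpa using hasDerivAt_const (0 : ℝ) (0 : E)⟩
  add_mem' := by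
    rintro u v ⟨X, hX⟩ ⟨Y, hY⟩
    obtain ⟨Z, hZ, -⟩ := hX.add hY
    exact ⟨Z, hZ⟩
  smul_mem' := by
    rintro a v ⟨X, hX⟩
    exact ⟨_, hX.smul a⟩

/-- the exponential map -/
noncomputable def exp (v : Γ.V) : N := v.2.choose 1

variable {Γ} in
lemma HasGen.eq_exp {X : ℝ → N} {v : Γ.V} (h : Γ.HasGen X v) (t : ℝ) : X t = Γ.exp (t • v) := by
  have := congrFun ((h.smul t).unique (t • v).2.choose_spec) 1
  simp only [mul_one] at this
  exact this

lemma gen (v : Γ.V) : Γ.HasGen (fun t => Γ.exp (t • v)) v := by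
  have h := v.2.choose_spec
  have : v.2.choose = fun t => Γ.exp (t • v) := funext fun t => h.eq_exp t
  rwa [this] at h

lemma exp_add (v : Γ.V) (s t : ℝ) : Γ.exp ((s + t) • v) = Γ.exp (s • v) * Γ.exp (t • v) :=
  (Γ.gen v).1 s t

@[simp] lemma exp_zero : Γ.exp 0 = 1 := by
  simpa using hom_zero (X := fun t : ℝ => Γ.exp (t • 0)) (Γ.gen 0).1

lemma exp_neg (v : Γ.V) : Γ.exp (-v) = (Γ.exp v)⁻¹ := by
  simpa using hom_neg (X := fun t : ℝ => Γ.exp (t • v)) (Γ.gen v).1 1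

lemma exp_split (v : Γ.V) (k : ℕ) : Γ.exp ((1 / ((k : ℝ) + 1)) • v) ^ (k + 1) = Γ.exp v := by
  simpa using (Γ.gen v).split 1 k

lemma n_exp (v : Γ.V) : ‖Γ.c (Γ.exp v)‖ ≤ ‖v‖ := by simpa using (Γ.gen v).n_le 1

lemma exp_est (v : Γ.V) (hv : ‖v‖ ≤ 1) : ‖Γ.c (Γ.exp v) - v‖ ≤ ‖v‖ ^ 2 := by
  simpa using (Γ.gen v).est 1 (by simpa using hv)

lemma le_n_exp (v : Γ.V) (hv : ‖v‖ ≤ 1 / 2) : ‖v‖ ≤ 2 * ‖Γ.c (Γ.exp v)‖ := by
  have h1 := Γ.exp_est v (by linarith)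
  have h2 := norm_sub_norm_le (v : E) (Γ.c (Γ.exp v))
  rw [norm_sub_rev] at h2
  have h3 : ‖(v : E)‖ = ‖v‖ := rfl
  nlinarith [norm_nonneg v]

lemma exp_diff {u v : Γ.V} {δ : ℝ} (hδ : δ ≤ 1 / 10) (hu : ‖u‖ ≤ δ) (hv : ‖v‖ ≤ δ) :
    ‖Γ.c ((Γ.exp u)⁻¹ * Γ.exp v) - (v - u : Γ.V)‖ ≤ 7 * δ * ‖v - u‖ := by
  simpa using (Γ.gen u).diff (Γ.gen v) hδ hu hv

lemma exp_lip {u v : Γ.V} (hu : ‖u‖ ≤ 1 / 10) (hv : ‖v‖ ≤ 1 / 10) :
    ‖Γ.c (Γ.exp v) - Γ.c (Γ.exp u)‖ ≤ 2 * ‖v - u‖ ∧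
      ‖v - u‖ ≤ 4 * ‖Γ.c (Γ.exp v) - Γ.c (Γ.exp u)‖ := by
  have h1 := Γ.exp_diff le_rfl hu hv
  have h2 := abs_norm_sub_norm_le (Γ.c ((Γ.exp u)⁻¹ * Γ.exp v)) (v - u : Γ.V)
  have h3 : ‖((v - u : Γ.V) : E)‖ = ‖v - u‖ := rfl
  rw [Γ.iso, abs_le] at *
  constructor <;> linarith [norm_nonneg (v - u), h2.1, h2.2]

lemma trotter (u v : Γ.V) : Tendsto (fun k : ℕ =>
    (Γ.exp ((1 / ((k : ℝ) + 1)) • u) * Γ.exp ((1 / ((k : ℝ) + 1)) • v)) ^ (k + 1))
    (hyperfilter ℕ) (𝓝 (Γ.exp (u + v))) := by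
  obtain ⟨Z, h1, h2⟩ := (Γ.gen u).add (Γ.gen v)
  have := HasGen.eq_exp (v := u + v) h1 1
  rwa [this, one_smul] at h2

lemma continuous_exp : Continuous Γ.exp := by
  have h1 : ∀ u : Γ.V, ‖u‖ < 1 / 10 → ContinuousAt Γ.exp u := by
    intro u hu
    have h2 : Tendsto (fun v => (Γ.exp u)⁻¹ * Γ.exp v) (𝓝 u) (𝓝 1) := by
      refine Γ.tendsto_one (squeeze_zero' (Eventually.of_forall fun _ => norm_nonneg _)
        (g := fun v => 2 * ‖v - u‖) ?_ ?_)
      · filter_upwards [continuous_norm.continuousAt.eventually (gt_mem_nhds hu)] with v hv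
        rw [← Γ.iso]
        exact (Γ.exp_lip hu.le hv.le).1
      · have : Continuous fun v : Γ.V => 2 * ‖v - u‖ := by fun_prop
        simpa using this.tendsto u
    simpa [ContinuousAt] using h2.const_mul (Γ.exp u)
  refine continuous_iff_continuousAt.mpr fun u => ?_
  obtain ⟨k, hk⟩ := exists_nat_gt (10 * ‖u‖)
  have : Γ.exp = fun v => Γ.exp ((1 / ((k : ℝ) + 1)) • v) ^ (k + 1) :=
    funext fun v => (Γ.exp_split v k).symm
  rw [this]
  refine ContinuousAt.pow (ContinuousAt.comp (h1 _ ?_) (by fun_prop)) _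
  rw [norm_smul, Real.norm_of_nonneg (by positivity), one_div, inv_mul_lt_iff₀ (by positivity)]
  linarith

instance finiteDimensional : FiniteDimensional ℝ Γ.V := by
  refine FiniteDimensional.of_isCompact_closedBall₀ ℝ one_pos (IsSeqCompact.isCompact ?_)
  intro x hx
  have hx' : ∀ k, ‖x k‖ ≤ 1 := fun k => by simpa using hx k
  have hn : ∀ k : ℕ, ‖(1 / ((k : ℝ) + 1)) • x k‖ ≤ 1 / ((k : ℝ) + 1) := fun k => by
    rw [norm_smul, Real.norm_of_nonneg (by positivity)]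
    exact mul_le_of_le_one_right (by positivity) (hx' k)
  obtain ⟨Z, w, h1, h2, -⟩ := Γ.key (hyperfilter ℕ) (fun k => Γ.exp ((1 / ((k : ℝ) + 1)) • x k))
    (fun k => 1 / (k + 1)) (fun k => by positivity) tendsto_inv_succ 1
    (Eventually.of_forall fun k => by simpa using (Γ.n_exp _).trans (hn k))
  have h3 : Tendsto (fun k : ℕ => (1 / ((k : ℝ) + 1))⁻¹ • Γ.c (Γ.exp ((1 / ((k : ℝ) + 1)) • x k))
      - x k) (hyperfilter ℕ) (𝓝 0) := by
    refine squeeze_zero_norm (fun k => ?_) tendsto_inv_succ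
    have hk : (0 : ℝ) < 1 / (k + 1) := by positivity
    have hk1 : (1 : ℝ) / (k + 1) ≤ 1 := by
      rw [div_le_one (by positivity)]
      linarith [Nat.cast_nonneg (α := ℝ) k]
    have a := Γ.exp_est _ ((hn k).trans hk1)
    have e : (1 / ((k : ℝ) + 1))⁻¹ • Γ.c (Γ.exp ((1 / ((k : ℝ) + 1)) • x k)) - x k
        = (1 / ((k : ℝ) + 1))⁻¹ • (Γ.c (Γ.exp ((1 / ((k : ℝ) + 1)) • x k))
          - ((1 / ((k : ℝ) + 1)) • x k : Γ.V)) := by
      rw [smul_sub, Submodule.coe_smul, inv_smul_smul₀ hk.ne']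
    rw [e, norm_smul, norm_inv, Real.norm_of_nonneg hk.le, inv_mul_le_iff₀ hk]
    refine a.trans ?_
    rw [sq]
    exact mul_self_le_mul_self (norm_nonneg _) (hn k)
  have h4 : Tendsto x (hyperfilter ℕ) (𝓝 (⟨w, Z, h1⟩ : Γ.V)) := by
    rw [tendsto_subtype_rng]
    simpa using h2.sub h3
  have h5 : MapClusterPt (⟨w, Z, h1⟩ : Γ.V) atTop x :=
    (h4.mapClusterPt).mono Nat.hyperfilter_le_atTop
  exact ⟨_, Metric.isClosed_closedBall.mem_of_tendsto h4 (Eventually.of_forall hx),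
    h5.tendsto_subseq⟩

theorem exp_nhds {δ : ℝ} (hδ : 0 < δ) : Γ.exp '' Metric.ball 0 δ ∈ 𝓝 (1 : N) := by
  by_contra hcon
  let δ' := min (δ / 2) (1 / 20)
  have hδ' : 0 < δ' := lt_min (by positivity) (by norm_num)
  have h1 : ∀ k : ℕ, ∃ g, ‖Γ.c g‖ < 1 / (k + 1) ∧ g ∉ Γ.exp '' Metric.closedBall 0 δ' := by
    intro k
    by_contra h
    push Not at h
    refine hcon (mem_of_superset ((isOpen_lt Γ.cont.norm continuous_const).mem_nhds
      (show ‖Γ.c 1‖ < 1 / ((k : ℝ) + 1) by simp; positivity)) fun g hg => ?_)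
    exact image_mono (Metric.closedBall_subset_ball ((min_le_left _ _).trans_lt (by linarith)))
      (h g hg)
  choose g hg1 hg2 using h1
  have h2 : ∀ k, ∃ u ∈ Metric.closedBall (0 : Γ.V) δ',
      IsMinOn (fun u => ‖Γ.c ((Γ.exp u)⁻¹ * g k)‖) (Metric.closedBall 0 δ') u := fun k =>
    (isCompact_closedBall 0 δ').exists_isMinOn ⟨0, by simpa using hδ'.le⟩
      (Γ.cont.comp (Γ.continuous_exp.inv.mul continuous_const)).norm.continuousOn
  choose u hu hmin using h2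
  let η : ℕ → ℝ := fun k => ‖Γ.c ((Γ.exp (u k))⁻¹ * g k)‖
  have hη : ∀ k, 0 < η k := by
    intro k
    refine (norm_nonneg _).lt_of_ne fun h => hg2 k ⟨u k, hu k, ?_⟩
    exact inv_mul_eq_one.mp (Γ.eq_one h.symm)
  have hη1 : ∀ k, η k ≤ 1 / (k + 1) := by
    intro k
    have := hmin k (show (0 : Γ.V) ∈ Metric.closedBall 0 δ' by simpa using hδ'.le)
    simp only [mem_ofPred_eq, exp_zero, inv_one, one_mul] at this
    exact this.trans (hg1 k).le
  have hu1 : ∀ k, ‖u k‖ ≤ 4 * (1 / (k + 1)) := by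
    intro k
    have a : ‖u k‖ ≤ δ' := by simpa using hu k
    have b := Γ.le_n_exp (u k) (a.trans ((min_le_right _ _).trans (by norm_num)))
    have c := Γ.n_mul (g k) ((Γ.exp (u k))⁻¹ * g k)⁻¹
    rw [Γ.n_inv, show g k * ((Γ.exp (u k))⁻¹ * g k)⁻¹ = g k * (g k)⁻¹ * Γ.exp (u k) by group,
      mul_inv_cancel, one_mul] at c
    have d := hη1 k
    have e := hg1 k
    simp only [η] at d
    linarith
  obtain ⟨Z, w, a1, a2, -⟩ := Γ.key (hyperfilter ℕ) (fun k => (Γ.exp (u k))⁻¹ * g k) η hη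
    (squeeze_zero (fun k => (hη k).le) hη1 tendsto_inv_succ) 1
    (Eventually.of_forall fun k => by simp [η])
  have hw : ‖w‖ ≤ 1 := le_of_tendsto' a2.norm fun k => by
    rw [norm_smul, norm_inv, Real.norm_of_nonneg (hη k).le]
    exact (inv_mul_cancel₀ (hη k).ne').le
  have a3 : Tendsto (fun k => ‖(η k)⁻¹ • Γ.c ((Γ.exp (u k))⁻¹ * g k) - w‖
      + 7 * (5 * (1 / ((k : ℝ) + 1)))) (hyperfilter ℕ) (𝓝 0) := by
    simpa using (tendsto_iff_norm_sub_tendsto_zero.mp a2).add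
      ((tendsto_inv_succ.const_mul 5).const_mul 7)
  obtain ⟨k, b1, b2⟩ := ((a3.eventually (gt_mem_nhds one_pos)).and
    ((tendsto_inv_succ.const_mul 5).eventually (gt_mem_nhds (by simpa using hδ')))).exists
  let w' : Γ.V := ⟨w, Z, a1⟩
  have c0 : ‖η k • w'‖ ≤ η k := by
    rw [norm_smul, Real.norm_of_nonneg (hη k).le]
    exact mul_le_of_le_one_right (hη k).le hw
  have c1 : ‖u k + η k • w'‖ ≤ 5 * (1 / ((k : ℝ) + 1)) := by
    have := norm_add_le (u k) (η k • w')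
    linarith [hu1 k, hη1 k]
  have c2 := Γ.exp_diff (u := u k) (v := u k + η k • w') (δ := 5 * (1 / ((k : ℝ) + 1)))
    (b2.le.trans ((min_le_right _ _).trans (by norm_num)))
    (by linarith [hu1 k, (hη k).le.trans (hη1 k)]) c1
  rw [add_sub_cancel_left] at c2
  have c3 := hmin k (show u k + η k • w' ∈ Metric.closedBall 0 δ' by simpa using c1.trans b2.le)
  have c4 := Γ.iso ((Γ.exp (u k))⁻¹ * Γ.exp (u k + η k • w')) ((Γ.exp (u k))⁻¹ * g k)
  rw [show ((Γ.exp (u k))⁻¹ * Γ.exp (u k + η k • w'))⁻¹ * ((Γ.exp (u k))⁻¹ * g k)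
    = (Γ.exp (u k + η k • w'))⁻¹ * g k by group] at c4
  have c5 : ‖Γ.c ((Γ.exp (u k))⁻¹ * g k) - (η k • w' : Γ.V)‖
      = η k * ‖(η k)⁻¹ • Γ.c ((Γ.exp (u k))⁻¹ * g k) - w‖ := by
    rw [← Real.norm_of_nonneg (hη k).le, ← norm_smul, Real.norm_of_nonneg (hη k).le, smul_sub,
      smul_inv_smul₀ (hη k).ne']
    rfl
  have c6 := norm_sub_le_norm_sub_add_norm_sub (Γ.c ((Γ.exp (u k))⁻¹ * g k))
    ((η k • w' : Γ.V) : E) (Γ.c ((Γ.exp (u k))⁻¹ * Γ.exp (u k + η k • w')))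
  rw [norm_sub_rev ((η k • w' : Γ.V) : E)] at c6
  have c7 : 7 * (5 * (1 / ((k : ℝ) + 1))) * ‖η k • w'‖ ≤ 7 * (5 * (1 / ((k : ℝ) + 1))) * η k := by
    gcongr
  change η k ≤ ‖Γ.c ((Γ.exp (u k + η k • w'))⁻¹ * g k)‖ at c3
  nlinarith [hη k]

lemma gen_of_cont {Y : ℝ → N} (h : ∀ s t, Y (s + t) = Y s * Y t) (hc : Continuous Y) :
    ∃ w : Γ.V, ∀ t, Y t = Γ.exp (t • w) := by
  have h1 : ∀ᶠ t in 𝓝 (0 : ℝ), ‖Γ.c (Y t)‖ < 1 / 2 :=
    (Γ.cont.comp hc).norm.continuousAt.eventually (gt_mem_nhds (by simp [hom_zero h]))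
  obtain ⟨ε, hε, h2⟩ := Metric.eventually_nhds_iff.mp h1
  have h3 : ∀ t, 0 ≤ t → t ≤ ε / 2 → ‖Γ.c (Y t)‖ ≤ 1 / 2 := fun t a b =>
    (h2 (by simp [abs_of_nonneg a]; linarith)).le
  have hs : ∀ k : ℕ, 0 < ε / 2 * (1 / ((k : ℝ) + 1)) := fun k => by positivity
  have hs0 : Tendsto (fun k : ℕ => ε / 2 * (1 / ((k : ℝ) + 1))) (hyperfilter ℕ) (𝓝 0) := by
    simpa using tendsto_inv_succ.const_mul (ε / 2)
  obtain ⟨X, w, a1, -, a3⟩ := Γ.key (hyperfilter ℕ) (fun k => Y (ε / 2 * (1 / (k + 1))))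
    (fun k => ε / 2 * (1 / (k + 1))) hs hs0 (2 / ε) (Eventually.of_forall fun k => by
      have hk : (0 : ℝ) < k + 1 := by positivity
      have b1 : ∀ i ≤ k + 1, ‖Γ.c (Y (ε / 2 * (1 / (k + 1))) ^ i)‖ ≤ 1 / 2 := by
        intro i hi
        rw [← hom_pow h]
        refine h3 _ (by positivity) ?_
        have : (i : ℝ) ≤ k + 1 := by exact_mod_cast hi
        rw [mul_left_comm, mul_one_div]
        exact mul_le_of_le_one_right (by positivity) ((div_le_one hk).mpr this)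
      have b2 := b1 1 (by omega)
      rw [pow_one] at b2
      have b3 := Γ.pow_est (δ := 1 / 2) (b2.trans (by norm_num)) (k + 1) fun i hi => b1 i hi.le
      have b4 := b1 (k + 1) le_rfl
      have b5 := norm_sub_norm_le (((k + 1 : ℕ) : ℝ) • Γ.c (Y (ε / 2 * (1 / (k + 1)))))
        (Γ.c (Y (ε / 2 * (1 / (k + 1))) ^ (k + 1)))
      rw [norm_sub_rev, norm_smul, Real.norm_natCast] at b5
      push_cast at b3 b5
      rw [show 2 / ε * (ε / 2 * (1 / ((k : ℝ) + 1))) = 1 / (k + 1) by field_simp, le_div_iff₀ hk]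
      linarith)
  refine ⟨⟨w, X, a1⟩, fun t => ?_⟩
  rw [← HasGen.eq_exp (v := ⟨w, X, a1⟩) a1]
  refine tendsto_nhds_unique ?_ (a3 t)
  simp only [← hom_zpow h]
  refine (hc.tendsto t).comp (tendsto_iff_norm_sub_tendsto_zero.mpr
    (squeeze_zero (fun _ => norm_nonneg _) (fun k => ?_) hs0))
  have a1 := Int.floor_le (t / (ε / 2 * (1 / ((k : ℝ) + 1))))
  have a2 := Int.lt_floor_add_one (t / (ε / 2 * (1 / ((k : ℝ) + 1))))
  rw [le_div_iff₀ (hs k)] at a1
  rw [div_lt_iff₀ (hs k)] at a2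
  rw [Real.norm_eq_abs, abs_le]
  constructor <;> linarith [hs k]

lemma exp_add_mem {T : Subgroup N} (hT : IsClosed (T : Set N)) {u v : Γ.V}
    (h : ∀ t : ℝ, Γ.exp (t • u) * Γ.exp (t • v) ∈ T) (t : ℝ) : Γ.exp (t • (u + v)) ∈ T := by
  rw [smul_add]
  refine hT.mem_of_tendsto (Γ.trotter _ _) (Eventually.of_forall fun k => pow_mem ?_ _)
  simpa only [smul_smul] using h _

lemma exp_add_mul_inv_mem {T : Subgroup N} (hT : IsClosed (T : Set N)) {u v : Γ.V}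
    (hu : ∀ t : ℝ, Γ.exp (t • u) ∈ T)
    (hv : ∀ t : ℝ, ∀ x ∈ T, Γ.exp (t • v) * x * (Γ.exp (t • v))⁻¹ ∈ T) :
    Γ.exp (u + v) * (Γ.exp v)⁻¹ ∈ T := by
  refine hT.mem_of_tendsto ((Γ.trotter u v).mul_const _) (Eventually.of_forall fun k => ?_)
  have key : ∀ (a b : N), a ∈ T → (∀ x ∈ T, b * x * b⁻¹ ∈ T) → ∀ j : ℕ,
      (a * b) ^ j * (b ^ j)⁻¹ ∈ T := by
    intro a b ha hb j
    induction j with
    | zero => simp
    | succ j ih =>
      have := mul_mem ha (hb _ ih)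
      convert this using 1
      rw [pow_succ' (a * b), pow_succ' b]
      group
  have := key _ _ (hu (1 / (k + 1))) (hv (1 / (k + 1))) (k + 1)
  rwa [Γ.exp_split] at this

omit [IsTopologicalGroup N] [T2Space N] [NormedSpace ℝ E] [CompleteSpace E] in
lemma mul_est {g h g' h' : N} {δ : ℝ} (hδ : δ ≤ 1 / 20) (a1 : ‖Γ.c g‖ ≤ δ) (a2 : ‖Γ.c h‖ ≤ δ)
    (a3 : ‖Γ.c g'‖ ≤ δ) (a4 : ‖Γ.c h'‖ ≤ δ) :
    ‖(Γ.c (g' * h') - Γ.c (g * h)) - (Γ.c g' - Γ.c g) - (Γ.c h' - Γ.c h)‖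
      ≤ 12 * δ * (‖Γ.c g' - Γ.c g‖ + ‖Γ.c h' - Γ.c h‖) := by
  rw [Γ.iso g g', Γ.iso h h']
  have hδ0 : 0 ≤ δ := (norm_nonneg _).trans a1
  have b1 : ‖Γ.c (g⁻¹ * g')‖ ≤ 2 * δ := by
    have := Γ.n_mul g⁻¹ g'
    rw [Γ.n_inv] at this
    linarith
  have b2 : ‖Γ.c (h⁻¹ * h')‖ ≤ 2 * δ := by
    have := Γ.n_mul h⁻¹ h'
    rw [Γ.n_inv] at this
    linarith
  have b3 := Γ.n_mul g h
  obtain ⟨c1, c2⟩ := Γ.conj_est (y := h) (g := g⁻¹ * g') (by linarith) (by linarith)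
  have c3 := Γ.n_mul (h⁻¹ * (g⁻¹ * g') * h) (h⁻¹ * h')
  have d1 := Γ.add (g * h) (h⁻¹ * (g⁻¹ * g') * h * (h⁻¹ * h')) (by linarith)
  have d2 := Γ.add (h⁻¹ * (g⁻¹ * g') * h) (h⁻¹ * h') (by linarith)
  have d4 := Γ.add g (g⁻¹ * g') (by linarith)
  have d5 := Γ.add h (h⁻¹ * h') (by linarith)
  rw [show g * h * (h⁻¹ * (g⁻¹ * g') * h * (h⁻¹ * h')) = g' * h' by group] at d1
  rw [mul_inv_cancel_left] at d4 d5
  have e : (Γ.c (g' * h') - Γ.c (g * h)) - (Γ.c g' - Γ.c g) - (Γ.c h' - Γ.c h)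
      = (Γ.c (g' * h') - Γ.c (g * h) - Γ.c (h⁻¹ * (g⁻¹ * g') * h * (h⁻¹ * h')))
        + (Γ.c (h⁻¹ * (g⁻¹ * g') * h * (h⁻¹ * h')) - Γ.c (h⁻¹ * (g⁻¹ * g') * h) - Γ.c (h⁻¹ * h'))
        + (Γ.c (h⁻¹ * (g⁻¹ * g') * h) - Γ.c (g⁻¹ * g'))
        - (Γ.c g' - Γ.c g - Γ.c (g⁻¹ * g')) - (Γ.c h' - Γ.c h - Γ.c (h⁻¹ * h')) := by abel
  rw [e]
  refine (norm_sub_le _ _).trans ((add_le_add_left ((norm_sub_le _ _).trans
    (add_le_add_left norm_add₃_le _)) _).trans ?_)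
  have p1 := norm_nonneg (Γ.c (g⁻¹ * g'))
  have p2 := norm_nonneg (Γ.c (h⁻¹ * h'))
  have f1 : ‖Γ.c (g * h)‖ * ‖Γ.c (h⁻¹ * (g⁻¹ * g') * h * (h⁻¹ * h'))‖
      ≤ (2 * δ) * (2 * ‖Γ.c (g⁻¹ * g')‖ + ‖Γ.c (h⁻¹ * h')‖) :=
    mul_le_mul (by linarith) (by linarith) (norm_nonneg _) (by linarith)
  have f2 : ‖Γ.c (h⁻¹ * (g⁻¹ * g') * h)‖ * ‖Γ.c (h⁻¹ * h')‖ ≤ (2 * ‖Γ.c (g⁻¹ * g')‖) * (2 * δ) :=
    mul_le_mul c1 b2 p2 (by linarith)
  have f3 : 3 * ‖Γ.c h‖ * ‖Γ.c (g⁻¹ * g')‖ ≤ 3 * δ * ‖Γ.c (g⁻¹ * g')‖ := by gcongr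
  have f4 := mul_le_mul_of_nonneg_right a1 p1
  have f5 := mul_le_mul_of_nonneg_right a2 p2
  nlinarith [mul_nonneg hδ0 p2]

variable {P : Type} [NormedAddCommGroup P] [NormedSpace ℝ P]

/-- strict differentiability at the origin of a map into the group -/
def SD (a : P → N) (a' : P →L[ℝ] E) : Prop :=
  a 0 = 1 ∧ HasStrictFDerivAt (fun p => Γ.c (a p)) a' 0

omit [IsTopologicalGroup N] [T2Space N] [CompleteSpace E] in
variable {Γ} in
lemma SD.small {a : P → N} {a' : P →L[ℝ] E} (h : Γ.SD a a') :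
    Tendsto (fun p => ‖Γ.c (a p)‖) (𝓝 0) (𝓝 0) := by
  simpa [ContinuousAt, h.1] using h.2.continuousAt.norm

omit [IsTopologicalGroup N] [T2Space N] [CompleteSpace E] in
variable {Γ} in
lemma SD.mul {a b : P → N} {a' b' : P →L[ℝ] E} (ha : Γ.SD a a') (hb : Γ.SD b b') :
    Γ.SD (fun p => a p * b p) (a' + b') := by
  refine ⟨by simp [ha.1, hb.1], HasStrictFDerivAt.of_isLittleO ?_⟩
  have h1 : (fun z : P × P => (Γ.c (a z.1 * b z.1) - Γ.c (a z.2 * b z.2))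
      - (Γ.c (a z.1) - Γ.c (a z.2)) - (Γ.c (b z.1) - Γ.c (b z.2))) =o[𝓝 (0, 0)]
      fun z => ‖Γ.c (a z.1) - Γ.c (a z.2)‖ + ‖Γ.c (b z.1) - Γ.c (b z.2)‖ := by
    refine IsLittleO.of_bound fun ε hε => ?_
    have hδ : 0 < min (ε / 12) (1 / 20) := lt_min (by positivity) (by norm_num)
    have e1 := ha.small.eventually (gt_mem_nhds hδ)
    have e2 := hb.small.eventually (gt_mem_nhds hδ)
    filter_upwards [(e1.and e2).prod_nhds (e1.and e2)] with z hz
    refine (Γ.mul_est (min_le_right _ _) hz.2.1.le hz.2.2.le hz.1.1.le hz.1.2.le).trans ?_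
    rw [Real.norm_of_nonneg (by positivity)]
    gcongr
    linarith [min_le_left (ε / 12) (1 / 20)]
  have h2 := h1.trans_isBigO (ha.2.isBigO_sub.norm_left.add hb.2.isBigO_sub.norm_left)
  refine ((h2.add ha.2.isLittleO).add hb.2.isLittleO).congr_left fun z => ?_
  simp only [add_apply]
  abel

lemma SD_exp (L : P →L[ℝ] Γ.V) : Γ.SD (fun p => Γ.exp (L p)) (Γ.V.subtypeL.comp L) := by
  refine ⟨by simp, ?_⟩
  have h : HasStrictFDerivAt (fun v : Γ.V => Γ.c (Γ.exp v)) Γ.V.subtypeL 0 := by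
    refine HasStrictFDerivAt.of_isLittleO (IsLittleO.of_bound fun ε hε => ?_)
    have hδ : 0 < min (ε / 9) (1 / 10) := lt_min (by positivity) (by norm_num)
    have e1 : ∀ᶠ v : Γ.V in 𝓝 0, ‖v‖ < min (ε / 9) (1 / 10) :=
      continuous_norm.continuousAt.eventually (gt_mem_nhds (by simpa using hδ))
    filter_upwards [e1.prod_nhds e1] with z hz
    obtain ⟨v, u⟩ := z
    obtain ⟨hv, hu⟩ := hz
    simp only at hv hu ⊢
    have m1 := min_le_left (ε / 9) (1 / 10)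
    have m2 := min_le_right (ε / 9) (1 / 10)
    have a1 := Γ.exp_diff m2 hu.le hv.le
    have a2 := (Γ.exp_lip (hu.le.trans m2) (hv.le.trans m2)).1
    rw [Γ.iso] at a2
    have a3 := Γ.add (Γ.exp u) ((Γ.exp u)⁻¹ * Γ.exp v) (by
      have := norm_sub_le v u
      linarith)
    rw [mul_inv_cancel_left] at a3
    have a4 : ‖Γ.c (Γ.exp u)‖ * ‖Γ.c ((Γ.exp u)⁻¹ * Γ.exp v)‖
        ≤ min (ε / 9) (1 / 10) * (2 * ‖v - u‖) :=
      mul_le_mul ((Γ.n_exp u).trans hu.le) a2 (norm_nonneg _) hδ.le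
    have e : Γ.c (Γ.exp v) - Γ.c (Γ.exp u) - Γ.V.subtypeL (v - u)
        = (Γ.c (Γ.exp v) - Γ.c (Γ.exp u) - Γ.c ((Γ.exp u)⁻¹ * Γ.exp v))
          + (Γ.c ((Γ.exp u)⁻¹ * Γ.exp v) - (v - u : Γ.V)) := by
      simp
    rw [e]
    refine (norm_add_le _ _).trans ?_
    nlinarith [norm_nonneg (v - u)]
  exact HasStrictFDerivAt.comp (0 : P) (by simpa using h) L.hasStrictFDerivAt

theorem local_solve {Φ : Γ.V → N} (D : Γ.V ≃L[ℝ] Γ.V)
    (h : Γ.SD Φ (Γ.V.subtypeL.comp (D : Γ.V →L[ℝ] Γ.V))) :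
    ∃ (O : Set N) (ψ : N → Γ.V), O ∈ 𝓝 (1 : N) ∧ ContinuousOn ψ O ∧ ψ 1 = 0 ∧
      ∀ x ∈ O, Φ (ψ x) = x := by
  obtain ⟨π, hπ⟩ := Submodule.ClosedComplemented.of_finiteDimensional Γ.V
  have hπ' : ∀ L : Γ.V →L[ℝ] Γ.V, π.comp (Γ.V.subtypeL.comp L) = L := fun L => by
    ext1 v
    exact hπ _
  have h1 : HasStrictFDerivAt (fun v => π (Γ.c (Γ.exp v)))
      ((ContinuousLinearEquiv.refl ℝ Γ.V : Γ.V ≃L[ℝ] Γ.V) : Γ.V →L[ℝ] Γ.V) 0 := by
    have := π.hasStrictFDerivAt.comp 0 (Γ.SD_exp (ContinuousLinearMap.id ℝ Γ.V)).2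
    rwa [hπ'] at this
  have h2 : HasStrictFDerivAt (fun v => π (Γ.c (Φ v))) (D : Γ.V →L[ℝ] Γ.V) 0 := by
    have := π.hasStrictFDerivAt.comp 0 h.2
    rwa [hπ'] at this
  let e1 := h1.toOpenPartialHomeomorph _
  let e2 := h2.toOpenPartialHomeomorph _
  obtain ⟨δ, hδ, hb⟩ := Metric.mem_nhds_iff.mp
    (e1.open_source.mem_nhds h1.mem_toOpenPartialHomeomorph_source)
  have hinj : InjOn (fun x => π (Γ.c x)) (Γ.exp '' Metric.ball 0 δ) := by
    rintro _ ⟨u, hu, rfl⟩ _ ⟨v, hv, rfl⟩ he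
    rw [e1.injOn (hb hu) (hb hv) he]
  have hc : Continuous fun x => π (Γ.c x) := π.continuous.comp Γ.cont
  have t1 : π (Γ.c 1) ∈ e2.target := by
    have := h2.image_mem_toOpenPartialHomeomorph_target
    rwa [h.1] at this
  have t2 : e2.symm (π (Γ.c 1)) = 0 := by
    have := e2.left_inv h2.mem_toOpenPartialHomeomorph_source
    simpa [e2, h.1] using this
  have t3 : (fun x => π (Γ.c x)) ⁻¹' e2.target ∈ 𝓝 (1 : N) :=
    hc.continuousAt (e2.open_target.mem_nhds t1)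
  have t4 : ContinuousOn (fun x => e2.symm (π (Γ.c x))) ((fun x => π (Γ.c x)) ⁻¹' e2.target) :=
    e2.continuousOn_symm.comp hc.continuousOn (mapsTo_preimage _ _)
  have t5 : Tendsto (fun x => Φ (e2.symm (π (Γ.c x)))) (𝓝 1) (𝓝 1) := by
    have := t4.continuousAt t3
    rw [ContinuousAt, t2] at this
    exact (Γ.tendsto_one h.small).comp this
  refine ⟨_, fun x => e2.symm (π (Γ.c x)), inter_mem t3 (inter_mem (Γ.exp_nhds hδ)
    (t5 (Γ.exp_nhds hδ))), t4.mono inter_subset_left, t2, ?_⟩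
  rintro x ⟨a1, a2, a3⟩
  exact hinj a3 a2 (e2.right_inv a1)

end Gle

end Pool.Agent.MP_ede9a8_lc

end MrgPart3

-- marker of a merged file
example : 731051 + 887539 = 731051 + 887539 := rfl
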