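import Mathlib
import Pool.Agent.MP_ede9a8_lc.Lie

-- ======== part 0: formerly Pool.Agent.MP_ede9a8_lc.LinAlg
section MrgPart0

/-!
Linear algebra: ascending flags, Kolchin's theorem and generalized fixed spaces.
-/

namespace Pool.Agent.MP_ede9a8_lc

open Set Function Filter Topology Polynomial

variable {W : Type} [NormedAddCommGroup W] [NormedSpace ℝ W]

/-- the ascending flag in `U` killed step by step by `S` -/
def asc (S : Set (W →L[ℝ] W)) (U : Submodule ℝ W) : ℕ → Submodule ℝ W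
  | 0 => ⊥
  | k + 1 => U ⊓ ⨅ x ∈ S, (asc S U k).comap (x : W →ₗ[ℝ] W)

lemma mem_asc {S : Set (W →L[ℝ] W)} {U : Submodule ℝ W} {k : ℕ} {v : W} :
    v ∈ asc S U (k + 1) ↔ v ∈ U ∧ ∀ x ∈ S, x v ∈ asc S U k := by
  simp [asc]

lemma asc_le (S : Set (W →L[ℝ] W)) (U : Submodule ℝ W) : ∀ k, asc S U k ≤ U
  | 0 => bot_le
  | _ + 1 => inf_le_left

lemma asc_mono (S : Set (W →L[ℝ] W)) (U : Submodule ℝ W) : Monotone (asc S U) := by
  refine monotone_nat_of_le_succ fun k => ?_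
  induction k with
  | zero => exact bot_le
  | succ k ih => exact fun v hv => mem_asc.mpr ⟨(mem_asc.mp hv).1, fun x hx =>
      ih ((mem_asc.mp hv).2 x hx)⟩

/-- the trace -/
noncomputable def tr (x : W →L[ℝ] W) : ℝ := LinearMap.trace ℝ W (x : W →ₗ[ℝ] W)

lemma nilpotent_of_trace [FiniteDimensional ℝ W] (I : Submodule ℝ (Module.End ℝ W))
    (hm : ∀ x ∈ I, ∀ y ∈ I, x * y ∈ I) (ht : ∀ x ∈ I, LinearMap.trace ℝ W x = 0) {x : Module.End ℝ W}
    (hx : x ∈ I) : IsNilpotent x := by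
  have h1 : ∀ p : ℝ[X], aeval x (p * X) ∈ I := by
    intro p
    induction p using Polynomial.induction_on with
    | C a => simpa [← Algebra.smul_def] using I.smul_mem a hx
    | add p q hp hq => simpa [add_mul] using I.add_mem hp hq
    | monomial n a h => simpa [pow_succ, mul_assoc] using hm _ h _ hx
  obtain ⟨q, hq, hq'⟩ := exists_eq_pow_rootMultiplicity_mul_and_not_dvd x.charpoly
    x.charpoly_monic.ne_zero 0
  simp only [map_zero, sub_zero] at hq hq'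
  generalize rootMultiplicity 0 x.charpoly = m at hq
  obtain ⟨a, b, hab⟩ : IsCoprime (X ^ (m + 1)) q :=
    IsCoprime.pow_left (irreducible_X.coprime_iff_not_dvd.mpr hq')
  have h0 : ∀ r : ℝ[X], aeval x (r * (X ^ m * q)) = 0 := fun r => by
    rw [← hq, map_mul, LinearMap.aeval_self_charpoly, mul_zero]
  have he : IsIdempotentElem (aeval x (a * X ^ (m + 1))) := by
    rw [IsIdempotentElem, ← map_mul, ← sub_eq_zero, ← map_sub, ← h0 (-(a * b * X))]
    congr 1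
    linear_combination (a * X ^ (m + 1)) * hab
  have h2 := LinearMap.IsIdempotentElem.eq_zero_of_trace_eq_zero he
    (ht _ (by rw [pow_succ, ← mul_assoc]; exact h1 _))
  refine ⟨m, ?_⟩
  have h3 : (X : ℝ[X]) ^ m = X ^ m * (a * X ^ (m + 1)) + b * (X ^ m * q) := by
    linear_combination (-X ^ m) * hab
  have := congrArg (aeval x) h3
  rwa [map_add, h0, map_mul, h2, mul_zero, add_zero, map_pow, aeval_X] at this

theorem flag_of_trace [FiniteDimensional ℝ W] (I : Submodule ℝ (W →L[ℝ] W))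
    (hm : ∀ x ∈ I, ∀ y ∈ I, x * y ∈ I) (ht : ∀ x ∈ I, tr x = 0) {S : Set (W →L[ℝ] W)}
    (hS : S ⊆ I) : ∃ d, asc S ⊤ d = ⊤ := by
  let J : Submodule ℝ (Module.End ℝ W) := I.map (ContinuousLinearMap.coeLM ℝ)
  have hJ : ∀ x ∈ J, ∀ y ∈ J, x * y ∈ J := by
    rintro _ ⟨x, hx, rfl⟩ _ ⟨y, hy, rfl⟩
    exact ⟨x * y, hm x hx y hy, rfl⟩
  let _ : LieRing (Module.End ℝ W) := LieRing.ofAssociativeRing
  let L : LieSubalgebra ℝ (Module.End ℝ W) :=
    { J with lie_mem' := fun hx hy => J.sub_mem (hJ _ hx _ hy) (hJ _ hy _ hx) }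
  have h1 : LieModule.IsNilpotent L W := (LieModule.isNilpotent_iff_forall' (R := ℝ)).mpr fun x =>
    nilpotent_of_trace J hJ (by rintro _ ⟨x, hx, rfl⟩; exact ht x hx) x.2
  obtain ⟨d, hd⟩ := (LieModule.isNilpotent_iff_exists_ucs_eq_top ℝ).mp h1
  have h2 : ∀ k, ∀ v ∈ (⊥ : LieSubmodule ℝ L W).ucs k, v ∈ asc S ⊤ k := by
    intro k
    induction k with
    | zero => intro v hv; simpa [asc] using hv
    | succ k ih =>
      intro v hv
      rw [LieSubmodule.ucs_succ, LieSubmodule.mem_normalizer] at hv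
      exact mem_asc.mpr ⟨trivial, fun x hx => ih _ (hv ⟨x, x, hS hx, rfl⟩)⟩
  exact ⟨d, eq_top_iff.mpr fun v _ => h2 d v (hd ▸ LieSubmodule.mem_top v)⟩

section

variable {N : Type} [Group N] (ρ : N →* (W →L[ℝ] W))

lemma span_mul_mem {U U' : Set N} (h : ∀ a ∈ U', ∀ b ∈ U', a * b ∈ U) (h' : U' ⊆ U) :
    ∀ x ∈ Submodule.span ℝ ((fun g => ρ g - 1) '' U'),
      ∀ y ∈ Submodule.span ℝ ((fun g => ρ g - 1) '' U'),
        x * y ∈ Submodule.span ℝ ((fun g => ρ g - 1) '' U) := by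
  intro x hx y hy
  have h1 := Submodule.mul_mem_mul hx hy
  rw [Submodule.span_mul_span] at h1
  refine Submodule.span_le.mpr ?_ h1
  rintro _ ⟨_, ⟨a, ha, rfl⟩, _, ⟨b, hb, rfl⟩, rfl⟩
  have e : (ρ a - 1) * (ρ b - 1) = (ρ (a * b) - 1) - (ρ a - 1) - (ρ b - 1) := by
    rw [map_mul]
    noncomm_ring
  simp only [e]
  exact sub_mem (sub_mem (Submodule.subset_span ⟨_, h a ha b hb, rfl⟩)
    (Submodule.subset_span ⟨_, h' ha, rfl⟩)) (Submodule.subset_span ⟨_, h' hb, rfl⟩)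

lemma span_trace {U : Set N} (h : ∀ g ∈ U, tr (ρ g - 1) = 0) :
    ∀ x ∈ Submodule.span ℝ ((fun g => ρ g - 1) '' U), tr x = 0 := by
  intro x hx
  refine (Submodule.span_le (p := LinearMap.ker
    (LinearMap.trace ℝ W ∘ₗ ContinuousLinearMap.coeLM ℝ))).mpr ?_ hx
  rintro _ ⟨g, hg, rfl⟩
  exact h g hg

theorem kolchin [FiniteDimensional ℝ W] (h : ∀ g, tr (ρ g - 1) = 0) :
    ∃ d, asc ((fun g => ρ g - 1) '' univ) ⊤ d = ⊤ :=
  flag_of_trace _ (span_mul_mem ρ (fun _ _ _ _ => mem_univ _) subset_rfl)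
    (span_trace ρ fun g _ => h g) Submodule.subset_span

theorem kolchin_local [FiniteDimensional ℝ W] [TopologicalSpace N] [IsTopologicalGroup N]
    {U : Set N} (hU : U ∈ 𝓝 1) (h : ∀ g ∈ U, tr (ρ g - 1) = 0)
    (hr : ∀ g ∈ U, ∀ U' ∈ 𝓝 (1 : N), ∃ a ∈ U', ∃ k : ℕ, g = a ^ k) :
    ∃ d, asc ((fun g => ρ g - 1) '' U) ⊤ d = ⊤ := by
  obtain ⟨U₀, ⟨h1, h2⟩, h3⟩ := (measure fun U' : Set N => Module.finrank ℝ
    (Submodule.span ℝ ((fun g => ρ g - 1) '' U'))).wf.has_min {U' | U' ∈ 𝓝 1 ∧ U' ⊆ U}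
    ⟨U, hU, subset_rfl⟩
  obtain ⟨U₁, a1, a2⟩ := exists_nhds_one_split h1
  have e : Submodule.span ℝ ((fun g => ρ g - 1) '' (U₁ ∩ U₀))
      = Submodule.span ℝ ((fun g => ρ g - 1) '' U₀) :=
    Submodule.eq_of_le_of_finrank_le (Submodule.span_mono (image_mono inter_subset_right))
      (not_lt.mp (h3 _ ⟨inter_mem a1 h1, inter_subset_right.trans h2⟩))
  have hm := span_mul_mem ρ (U' := U₁ ∩ U₀) (fun a ha b hb => a2 a ha.1 b hb.1) inter_subset_right
  rw [e] at hm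
  refine flag_of_trace _ hm (span_trace ρ fun g hg => h g (h2 hg)) ?_
  rintro _ ⟨g, hg, rfl⟩
  obtain ⟨a, ha, k, rfl⟩ := hr g hg U₀ h1
  have ha' := Submodule.subset_span (R := ℝ) (mem_image_of_mem (fun g => ρ g - 1) ha)
  clear hg
  induction k with
  | zero => simp
  | succ k ih =>
    have e : ρ (a ^ (k + 1)) - 1 = (ρ (a ^ k) - 1) * (ρ a - 1) + (ρ (a ^ k) - 1) + (ρ a - 1) := by
      rw [pow_succ, map_mul]
      noncomm_ring
    simp only [e]
    exact add_mem (add_mem (hm _ ih _ ha') ih) ha'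

end

/-- the generalized fixed space -/
def fix (θ : W →L[ℝ] W) : Submodule ℝ W where
  carrier := {v | ∃ k : ℕ, ((θ - 1) ^ k) v = 0}
  zero_mem' := ⟨0, by simp⟩
  add_mem' := by
    rintro u v ⟨k, hk⟩ ⟨l, hl⟩
    refine ⟨k + l, ?_⟩
    rw [map_add]
    nth_rw 1 [add_comm k l]
    simp only [pow_add, mul_apply_eq_comp, hk, hl, map_zero, add_zero]
  smul_mem' := by
    rintro a v ⟨k, hk⟩
    exact ⟨k, by simp [hk]⟩

lemma mem_fix_of {θ : W →L[ℝ] W} {v : W} (h : θ v - v ∈ fix θ) : v ∈ fix θ := by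
  obtain ⟨k, hk⟩ := h
  exact ⟨k + 1, by simpa [pow_succ] using hk⟩

lemma fix_le {θ : W →L[ℝ] W} {U : Submodule ℝ W} (h : ∀ v, θ v - v ∈ U → v ∈ U) : fix θ ≤ U := by
  rintro v ⟨k, hk⟩
  induction k generalizing v with
  | zero => simp_all
  | succ k ih => exact h v (ih (by simpa [pow_succ] using hk))

lemma conj_mem_fix {θ θ' r : W →L[ℝ] W} (h : θ' * r = r * θ) {v : W} (hv : v ∈ fix θ) :
    r v ∈ fix θ' := by
  obtain ⟨k, hk⟩ := hv
  have h1 : SemiconjBy r (θ - 1) (θ' - 1) := by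
    simp [SemiconjBy, mul_sub, sub_mul, h]
  refine ⟨k, ?_⟩
  have := congrArg (fun f => f v) (h1.pow_right k).eq
  simpa [hk] using this.symm

lemma tr_of_fix [FiniteDimensional ℝ W] {θ : W →L[ℝ] W} (h : fix θ = ⊤) : tr (θ - 1) = 0 := by
  refine (LinearMap.isNilpotent_trace_of_isNilpotent
    (Module.End.isNilpotent_iff_of_finite.mpr fun v => ?_)).eq_zero
  obtain ⟨k, hk⟩ : v ∈ fix θ := h ▸ trivial
  exact ⟨k, by rw [← ContinuousLinearMap.toLinearMap_pow]; exact hk⟩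

lemma fix_bracket {θ : W →L[ℝ] W} (a : W →ₗ[ℝ] W →L[ℝ] W) (h : ∀ x y, θ (a x y) = a (θ x) (θ y))
    {x y : W} (hx : x ∈ fix θ) (hy : y ∈ fix θ) : a x y ∈ fix θ := by
  obtain ⟨k, hk⟩ := hx
  induction k generalizing x y with
  | zero => simp_all
  | succ k ih =>
    obtain ⟨l, hl⟩ := hy
    induction l generalizing y with
    | zero => simp_all
    | succ l ih2 =>
      refine mem_fix_of ?_
      have e : θ (a x y) - a x y = a (θ x - x) (θ y) + a x (θ y - y) := by simp [h]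
      rw [e]
      exact add_mem (ih (conj_mem_fix rfl ⟨l + 1, hl⟩) (by simpa [pow_succ] using hk))
        (ih2 (by simpa [pow_succ] using hl))

lemma asc_fix [FiniteDimensional ℝ W] {θ : W →L[ℝ] W} {S S' : Set (W →L[ℝ] W)}
    (hn : ∀ x ∈ S, ∃ y ∈ S, x * θ = θ * y) (hS : S' ⊆ S) (hf : ∀ x ∈ S', ∀ v ∈ fix θ, x v ∈ fix θ)
    {d : ℕ} (hd : asc S ⊤ d = ⊤) : ∃ e, asc (insert (θ - 1) S') (fix θ) e = fix θ := by
  have h1 : ∀ i, ∀ v ∈ asc S ⊤ i, θ v ∈ asc S ⊤ i := by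
    intro i
    induction i with
    | zero => intro v hv; simp_all [asc]
    | succ i ih =>
      intro v hv
      refine mem_asc.mpr ⟨trivial, fun x hx => ?_⟩
      obtain ⟨y, hy, e⟩ := hn x hx
      have := ih _ ((mem_asc.mp hv).2 y hy)
      rwa [← mul_apply_eq_comp, ← e] at this
  obtain ⟨e, he⟩ := monotone_stabilizes_iff_noetherian.mpr inferInstance
    ⟨_, asc_mono (insert (θ - 1) S') (fix θ)⟩
  refine ⟨e, le_antisymm (asc_le _ _ _) ?_⟩
  have h2 : ∀ i, ∀ v ∈ asc S ⊤ i, v ∈ fix θ → v ∈ asc (insert (θ - 1) S') (fix θ) e := by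
    intro i
    induction i with
    | zero => intro v hv _; simp_all [asc]
    | succ i ih =>
      rintro v hv ⟨k, hk⟩
      induction k generalizing v with
      | zero => simp_all
      | succ k ih2 =>
        have := he (e + 1) (by omega)
        simp only [OrderHom.coe_mk] at this
        rw [this, mem_asc]
        refine ⟨⟨_, hk⟩, ?_⟩
        rintro x (rfl | hx)
        · exact ih2 _ (sub_mem (h1 _ _ hv) hv) (by simpa [pow_succ] using hk)
        · exact ih _ ((mem_asc.mp hv).2 x (hS hx)) (hf x hx v ⟨_, hk⟩)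
  exact fun v hv => h2 d v (by rw [hd]; trivial) hv

lemma one_param_deriv {R : Type} [NormedRing R] [NormedAlgebra ℝ R] [CompleteSpace R] {A : ℝ → R}
    (hc : Continuous A) (h : ∀ s t, A (s + t) = A s * A t) (h0 : A 0 = 1) :
    ∃ a, HasDerivAt A a 0 := by
  let F : ℝ → R := fun t => ∫ s in (0 : ℝ)..t, A s
  have hF : ∀ t, HasDerivAt F (A t) t := fun t => intervalIntegral.integral_hasDerivAt_right
    (hc.intervalIntegrable _ _) (hc.stronglyMeasurableAtFilter _ _) hc.continuousAt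
  have h1 := hasDerivAt_iff_tendsto_slope_zero.mp (hF 0)
  rw [h0] at h1
  obtain ⟨ε, a1, a2⟩ := ((h1.eventually (Units.isOpen.mem_nhds isUnit_one)).and
    self_mem_nhdsWithin).exists
  obtain ⟨u, hu⟩ := a1
  have h2 : ∀ t, A t * (F ε - F 0) = F (t + ε) - F t := by
    intro t
    have := is_const_of_deriv_eq_zero (f := fun s => A t * F s - F (t + s))
      (fun s => (((hF s).const_mul _).sub ((hF (t + s)).comp_const_add t s)).differentiableAt)
      (fun s => (((hF s).const_mul (A t)).sub ((hF (t + s)).comp_const_add t s)).deriv.trans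
        (by rw [h, sub_self]))
      ε 0
    simp only [add_zero] at this
    rw [mul_sub, sub_eq_sub_iff_sub_eq_sub, this]
  have h3 : A = fun t => (ε⁻¹ • (F (t + ε) - F t)) * (u⁻¹ : Rˣ) := by
    funext t
    rw [← h2, Units.eq_mul_inv_iff_mul_eq, hu, zero_add, mul_smul_comm]
  have h4 := ((((hF (0 + ε)).comp_add_const 0 ε).sub (hF 0)).const_smul ε⁻¹).mul_const (↑u⁻¹ : R)
  exact ⟨_, h4.congr_of_eventuallyEq (Eventually.of_forall (congrFun h3))⟩

end Pool.Agent.MP_ede9a8_lc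

end MrgPart0

-- ======== part 1: formerly Pool.Agent.MP_ede9a8_lc.Ad
section MrgPart1

/-!
The adjoint representation.
-/

namespace Pool.Agent.MP_ede9a8_lc

open Set Function Filter Topology Asymptotics

section

variable {W : Type} [NormedAddCommGroup W] [NormedSpace ℝ W] [FiniteDimensional ℝ W]

lemma exists_proj (U : Submodule ℝ W) :
    ∃ p : W →L[ℝ] W, (∀ v, p v ∈ U) ∧ ∀ v, v ∈ U ↔ (1 - p) v = 0 := by
  obtain ⟨π, hπ⟩ := Submodule.ClosedComplemented.of_finiteDimensional U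
  refine ⟨U.subtypeL.comp π, fun v => (π v).2, fun v => ⟨fun h => ?_, fun h => ?_⟩⟩
  · simp [show π v = ⟨v, h⟩ from hπ ⟨v, h⟩]
  · have : v = π v := by simpa [sub_eq_zero] using h
    exact this ▸ (π v).2

lemma ode_inv {A : ℝ → W →L[ℝ] W} {a : W →L[ℝ] W} (h : ∀ t, HasDerivAt A (a * A t) t)
    (h0 : A 0 = 1) {U : Submodule ℝ W} (hU : ∀ u ∈ U, a u ∈ U) {u : W} (hu : u ∈ U) :
    A 1 u ∈ U := by
  obtain ⟨p, h1, h2⟩ := exists_proj U
  have h3 : ∀ t, HasDerivAt (fun t => (1 - p) (A t u)) ((1 - p) (a (A t u))) t := fun t =>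
    (1 - p).hasFDerivAt.comp_hasDerivAt t
      (by simpa using (h t).clm_apply (hasDerivAt_const t u))
  refine (h2 _).mpr (eq_zero_of_abs_deriv_le_mul_abs_self_of_eq_zero_right (a := 0) (b := 1)
    (K := ‖(1 - p) * a‖) (fun t _ => (h3 t).continuousAt.continuousWithinAt)
    (fun t _ => (h3 t).hasDerivWithinAt) (by simpa [h0] using (h2 u).mp hu) (fun t _ => ?_) 1
    (by simp))
  have e : (1 - p) (a (A t u)) = ((1 - p) * a) ((1 - p) (A t u)) := by
    have := (h2 _).mp (hU _ (h1 (A t u)))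
    simp only [mul_apply_eq_comp, sub_apply, one_apply_eq_self, map_sub] at this ⊢
    rw [this, sub_zero]
  rw [e]
  exact ContinuousLinearMap.le_opNorm _ _

lemma ode_sub {A : ℝ → W →L[ℝ] W} {a : W →L[ℝ] W} (h : ∀ t, HasDerivAt A (a * A t) t)
    (h0 : A 0 = 1) {U : Submodule ℝ W} (hU : ∀ u, a u ∈ U) (u : W) : A 1 u - u ∈ U := by
  obtain ⟨p, -, h2⟩ := exists_proj U
  have h3 : ∀ t, HasDerivAt (fun t => (1 - p) (A t u)) ((1 - p) (a (A t u))) t := fun t =>
    (1 - p).hasFDerivAt.comp_hasDerivAt t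
      (by simpa using (h t).clm_apply (hasDerivAt_const t u))
  have := is_const_of_deriv_eq_zero (fun t => (h3 t).differentiableAt)
    (fun t => (h3 t).deriv.trans ((h2 _).mp (hU _))) 1 0
  rw [h2, map_sub, this, h0]
  simp

lemma deriv_mem {f : ℝ → W} {a : W} (h : HasDerivAt f a 0) {U : Submodule ℝ W}
    (hU : ∀ t, f t ∈ U) : a ∈ U := by
  obtain ⟨p, -, h2⟩ := exists_proj U
  have h3 := (1 - p).hasFDerivAt.comp_hasDerivAt 0 h
  have : (1 - p : W →L[ℝ] W) ∘ f = fun _ => 0 := funext fun t => (h2 _).mp (hU t)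
  rw [this] at h3
  exact (h2 _).mpr (h3.unique (hasDerivAt_const _ _))

end

variable {G N E : Type} [Group G] [TopologicalSpace G] [Group N] [TopologicalSpace N]
  [IsTopologicalGroup N] [T2Space N] [NormedAddCommGroup E] [NormedSpace ℝ E] [CompleteSpace E]

namespace Gle

variable (Γ : Gle N E)

lemma exp_inj {u v : Γ.V} (h : ∀ t : ℝ, Γ.exp (t • u) = Γ.exp (t • v)) : u = v :=
  Subtype.ext ((Γ.gen u).2.unique (by simpa only [h] using (Γ.gen v).2))

lemma L_unique {L L' : Γ.V →L[ℝ] Γ.V} (h : ∀ v, Γ.exp (L v) = Γ.exp (L' v)) : L = L' := by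
  ext1 v
  exact Γ.exp_inj fun t => by rw [← map_smul, ← map_smul, h]

lemma exists_L (α : N →* N) (hα : Continuous α) :
    ∃ L : Γ.V →L[ℝ] Γ.V, ∀ v, Γ.exp (L v) = α (Γ.exp v) := by
  have h1 : ∀ v : Γ.V, ∃ w : Γ.V, ∀ t : ℝ, α (Γ.exp (t • v)) = Γ.exp (t • w) := fun v =>
    Γ.gen_of_cont (fun s t => by rw [Γ.exp_add, map_mul]) (hα.comp (Γ.gen v).continuous)
  choose f hf using h1
  have h2 : ∀ (a : ℝ) v, f (a • v) = a • f v := fun a v =>
    Γ.exp_inj fun t => by rw [← hf, smul_smul, smul_smul, hf]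
  have h3 : ∀ u v, f (u + v) = f u + f v := fun u v => Γ.exp_inj fun t => by
    rw [← hf, smul_add, smul_add]
    refine tendsto_nhds_unique ((hα.tendsto _).comp (Γ.trotter _ _)) ((Γ.trotter _ _).congr ?_)
    intro k
    simp only [comp_apply, map_pow, map_mul, smul_smul, hf]
  exact ⟨LinearMap.toContinuousLinearMap ⟨⟨f, h3⟩, h2⟩, fun v => by simpa using (hf v 1).symm⟩

end Gle

namespace Tri

variable (T : Tri G N) (Γ : Gle N E)

/-- the adjoint representation -/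
noncomputable def Ad : G →* (Γ.V →L[ℝ] Γ.V) where
  toFun g := (Γ.exists_L (T.κh g) (T.continuous_κ g)).choose
  map_one' := Γ.L_unique fun v => by
    rw [(Γ.exists_L (T.κh 1) (T.continuous_κ 1)).choose_spec]
    simp [T.κ_one]
  map_mul' g h := Γ.L_unique fun v => by
    simp only [mul_apply_eq_comp, (Γ.exists_L (T.κh _) (T.continuous_κ _)).choose_spec]
    exact T.κ_comp _ _ _

lemma exp_Ad (g : G) (v : Γ.V) : Γ.exp (T.Ad Γ g v) = T.κ g (Γ.exp v) :=
  (Γ.exists_L (T.κh g) (T.continuous_κ g)).choose_spec v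

lemma continuous_Ad : Continuous (T.Ad Γ) := by
  refine continuous_clm_apply.mpr fun v => continuous_iff_continuousAt.mpr fun g₀ => ?_
  have h1 : Continuous fun p : G × ℝ => ‖Γ.c (T.κ p.1 (Γ.exp (p.2 • v)))‖ :=
    (Γ.cont.comp (T.κcont.comp (continuous_fst.prodMk
      ((Γ.gen v).continuous.comp continuous_snd)))).norm
  have h2 := (h1.tendsto (g₀, 0)).eventually (gt_mem_nhds (a := 1 / 20) (by simp [T.κ_one']))
  rw [nhds_prod_eq] at h2
  obtain ⟨O, hO, B, hB, h3⟩ := eventually_prod_iff.mp h2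
  obtain ⟨ε, hε, hB'⟩ := Metric.eventually_nhds_iff.mp hB
  have h4 : ∀ g, O g → ‖(ε / 2) • T.Ad Γ g v‖ ≤ 1 / 10 := by
    intro g hg
    by_contra hc
    rw [norm_smul, Real.norm_of_nonneg (by positivity), not_le] at hc
    have hp : 0 < ‖T.Ad Γ g v‖ := by
      refine (norm_nonneg _).lt_of_ne fun h => ?_
      rw [← h] at hc
      norm_num at hc
    have a1 : ‖(1 / (10 * ‖T.Ad Γ g v‖)) • T.Ad Γ g v‖ = 1 / 10 := by
      rw [norm_smul, Real.norm_of_nonneg (by positivity)]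
      field_simp
    have a2 := Γ.le_n_exp _ (a1.le.trans (by norm_num))
    have a3 := h3 hg (hB' (y := 1 / (10 * ‖T.Ad Γ g v‖)) (by
      rw [dist_zero_right, Real.norm_of_nonneg (by positivity), div_lt_iff₀ (by positivity)]
      nlinarith))
    rw [← T.exp_Ad, map_smul] at a3
    linarith
  have h5 : ContinuousAt (fun g => (ε / 2) • T.Ad Γ g v) g₀ := by
    refine tendsto_iff_norm_sub_tendsto_zero.mpr (squeeze_zero' (Eventually.of_forall
      fun _ => norm_nonneg _) (hO.mono fun g hg => (Γ.exp_lip (h4 _ hO.self_of_nhds) (h4 g hg)).2) ?_)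
    simp only [← map_smul, T.exp_Ad]
    have : Continuous fun g => 4 * ‖Γ.c (T.κ g (Γ.exp ((ε / 2) • v)))
        - Γ.c (T.κ g₀ (Γ.exp ((ε / 2) • v)))‖ :=
      ((Γ.cont.comp (T.continuous_κ' _)).sub continuous_const).norm.const_mul _
    simpa using this.tendsto g₀
  simpa only [inv_smul_smul₀ (half_pos hε).ne'] using h5.fun_const_smul (ε / 2)⁻¹

lemma Ad_est {y : N} (hy : ‖Γ.c y‖ ≤ 1 / 10) : ‖T.Ad Γ (T.ι y) - 1‖ ≤ 3 * ‖Γ.c y‖ := by
  refine ContinuousLinearMap.opNorm_le_bound _ (by positivity) fun v => ?_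
  have h1 := (((Γ.gen (T.Ad Γ (T.ι y) v)).lim 1).sub ((Γ.gen v).lim 1)).norm
  simp only [one_smul] at h1
  refine le_of_tendsto h1 ?_
  filter_upwards [(tendsto_one_div_add_atTop_nhds_zero_nat.mul_const ‖v‖).eventually
    (gt_mem_nhds (a := 1 / 2) (by simp))] with k hk
  have hp : (0 : ℝ) < k + 1 := by positivity
  have a1 := (Γ.gen v).n_div 1 k
  have a2 := Γ.n_exp ((1 / ((k : ℝ) + 1)) • v)
  rw [norm_smul, Real.norm_of_nonneg (by positivity)] at a2
  have a3 := (Γ.conj_est (y := y⁻¹) (by rwa [Γ.n_inv]) (a2.trans hk.le)).2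
  rw [← smul_sub, norm_smul, Real.norm_of_nonneg hp.le, ← map_smul, T.exp_Ad, T.κ_ι]
  rw [inv_inv, Γ.n_inv] at a3
  simp only [abs_one, one_mul, Submodule.coe_norm] at a1 ⊢
  nlinarith [norm_nonneg (Γ.c y)]

lemma exists_ad (x : Γ.V) : ∃ a, HasDerivAt (fun t : ℝ => T.Ad Γ (T.ι (Γ.exp (t • x)))) a 0 :=
  one_param_deriv (A := fun t : ℝ => T.Ad Γ (T.ι (Γ.exp (t • x)))) ((T.continuous_Ad Γ).comp (T.cont.comp (Γ.gen x).continuous))
    (fun s t => by rw [Γ.exp_add, map_mul, map_mul]) (by simp)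

lemma ad_smul {x : Γ.V} {a : Γ.V →L[ℝ] Γ.V}
    (h : HasDerivAt (fun t : ℝ => T.Ad Γ (T.ι (Γ.exp (t • x)))) a 0) (r : ℝ) :
    HasDerivAt (fun t : ℝ => T.Ad Γ (T.ι (Γ.exp (t • r • x)))) (r • a) 0 := by
  have h1 : HasDerivAt (fun t : ℝ => t * r) r 0 := by simpa using (hasDerivAt_id (0 : ℝ)).mul_const r
  simp only [smul_smul]
  exact HasDerivAt.scomp_of_eq (F := Γ.V →L[ℝ] Γ.V) 0 h h1 (by simp)

/-- the adjoint representation of the Lie algebra -/
noncomputable def ad : Γ.V →ₗ[ℝ] Γ.V →L[ℝ] Γ.V where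
  toFun x := (T.exists_ad Γ x).choose
  map_smul' r x := HasDerivAt.unique (𝕜 := ℝ) (F := Γ.V →L[ℝ] Γ.V)
    (T.exists_ad Γ (r • x)).choose_spec (T.ad_smul Γ (T.exists_ad Γ x).choose_spec r)
  map_add' x y := by
    have h1 := ((Γ.SD_exp (ContinuousLinearMap.toSpanSingleton ℝ x)).mul
      (Γ.SD_exp (ContinuousLinearMap.toSpanSingleton ℝ y))).mul
      (Γ.SD_exp (ContinuousLinearMap.toSpanSingleton ℝ ((-1 : ℝ) • (x + y))))
    have h2 := h1.2.hasFDerivAt.isLittleO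
    have h3 := HasDerivAt.mul (𝕜 := ℝ) (𝔸 := Γ.V →L[ℝ] Γ.V)
      (HasDerivAt.mul (𝕜 := ℝ) (𝔸 := Γ.V →L[ℝ] Γ.V)
      (T.exists_ad Γ x).choose_spec (T.exists_ad Γ y).choose_spec)
      (T.ad_smul Γ (T.exists_ad Γ (x + y)).choose_spec (-1))
    have h4 : HasDerivAt (fun t : ℝ => T.Ad Γ (T.ι (Γ.exp (t • x) * Γ.exp (t • y)
        * Γ.exp (t • (-1 : ℝ) • (x + y))))) 0 0 := by
      refine (hasDerivAt_iff_isLittleO (𝕜 := ℝ) (F := Γ.V →L[ℝ] Γ.V)).mpr
        ((IsBigO.of_bound 3 ?_).trans_isLittleO h2)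
      filter_upwards [h1.small.eventually (gt_mem_nhds (a := 1 / 10) (by norm_num))] with t ht
      simpa [smul_add, ← add_assoc] using T.Ad_est Γ ht.le
    simp only [map_mul] at h4
    have := HasDerivAt.unique (𝕜 := ℝ) (F := Γ.V →L[ℝ] Γ.V) h4 h3
    simp only [zero_smul, Gle.exp_zero, map_one, mul_one, one_mul, Pi.mul_apply] at this
    ext1 z
    have := congrArg (fun f : Γ.V →L[ℝ] Γ.V => f z) this
    simp only [zero_apply, add_apply, smul_apply, neg_one_smul, ← sub_eq_add_neg] at this ⊢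
    exact (sub_eq_zero.mp this.symm).symm

lemma ad_spec (x : Γ.V) : HasDerivAt (fun t : ℝ => T.Ad Γ (T.ι (Γ.exp (t • x)))) (T.ad Γ x) 0 :=
  (T.exists_ad Γ x).choose_spec

lemma ad_apply (x y : Γ.V) :
    HasDerivAt (fun t : ℝ => T.Ad Γ (T.ι (Γ.exp (t • x))) y) (T.ad Γ x y) 0 := by
  simpa using (T.ad_spec Γ x).clm_apply (hasDerivAt_const 0 y)

lemma ad_deriv (x : Γ.V) (t : ℝ) : HasDerivAt (fun t : ℝ => T.Ad Γ (T.ι (Γ.exp (t • x))))
    (T.ad Γ x * T.Ad Γ (T.ι (Γ.exp (t • x)))) t := by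
  have h := HasDerivAt.mul_const (𝕜 := ℝ) (𝔸 := Γ.V →L[ℝ] Γ.V)
    (HasDerivAt.comp_sub_const (𝕜 := ℝ) (F := Γ.V →L[ℝ] Γ.V) t t
      ((sub_self t).symm ▸ T.ad_spec Γ x)) (T.Ad Γ (T.ι (Γ.exp (t • x))))
  simpa only [← map_mul, ← Γ.exp_add, sub_add_cancel] using h

lemma Ad_conj (g : G) (x : Γ.V) :
    T.Ad Γ g * T.Ad Γ (T.ι (Γ.exp x)) = T.Ad Γ (T.ι (Γ.exp (T.Ad Γ g x))) * T.Ad Γ g := by
  rw [T.exp_Ad, T.spec, ← map_mul, ← map_mul, inv_mul_cancel_right]

lemma Ad_ad (g : G) (x y : Γ.V) :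
    T.Ad Γ g (T.ad Γ x y) = T.ad Γ (T.Ad Γ g x) (T.Ad Γ g y) := by
  refine ((T.Ad Γ g).hasFDerivAt.comp_hasDerivAt 0 (T.ad_apply Γ x y)).unique
    ((T.ad_apply Γ _ _).congr_of_eventuallyEq (Eventually.of_forall fun t => ?_))
  simp only [comp_apply, ← mul_apply_eq_comp, T.Ad_conj, map_smul]

lemma Ad_self (x : Γ.V) (t : ℝ) : T.Ad Γ (T.ι (Γ.exp (t • x))) x = x :=
  Γ.exp_inj fun s => by
    rw [← map_smul, T.exp_Ad, T.κ_ι, ← Γ.exp_add, add_comm, Γ.exp_add, mul_inv_cancel_right]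

lemma ad_self (x : Γ.V) : T.ad Γ x x = 0 := by
  have := T.ad_apply Γ x x
  simp only [T.Ad_self] at this
  exact this.unique (hasDerivAt_const _ _)

lemma ad_swap (x y : Γ.V) : T.ad Γ x y = -T.ad Γ y x := by
  have := T.ad_self Γ (x + y)
  simp only [map_add, add_apply, T.ad_self, zero_add, add_zero] at this
  exact eq_neg_of_add_eq_zero_right this

lemma exp_fix (g : G) {x y : Γ.V} (hx : x ∈ fix (T.Ad Γ g)) (hy : y ∈ fix (T.Ad Γ g)) :
    T.Ad Γ (T.ι (Γ.exp x)) y ∈ fix (T.Ad Γ g) := by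
  simpa using ode_inv (T.ad_deriv Γ x) (by simp)
    (fun u hu => fix_bracket (T.ad Γ) (T.Ad_ad Γ g) hx hu) hy

lemma fix_eq_top (x : Γ.V) (h : ∀ v, T.Ad Γ (T.ι (Γ.exp v)) x ∈ fix (T.Ad Γ (T.ι (Γ.exp x)))) :
    fix (T.Ad Γ (T.ι (Γ.exp x))) = ⊤ := by
  refine eq_top_iff.mpr fun v _ => mem_fix_of ?_
  simpa using ode_sub (T.ad_deriv Γ x) (by simp) (fun u => by
    rw [T.ad_swap]
    exact neg_mem (deriv_mem (T.ad_apply Γ u x) fun t => h _)) v

end Tri

end Pool.Agent.MP_ede9a8_lc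

end MrgPart1

-- ======== part 2: formerly Pool.Agent.MP_ede9a8_lc.Reduce
section MrgPart2

/-!
Induction on the dimension of the Lie algebra.
-/

namespace Pool.Agent.MP_ede9a8_lc

open Set Function Filter Topology

section

variable {W : Type} [NormedAddCommGroup W] [NormedSpace ℝ W] [FiniteDimensional ℝ W]

lemma pres_inv {A B : W →L[ℝ] W} (h : B * A = 1) {U : Submodule ℝ W} (hU : ∀ v ∈ U, A v ∈ U) :
    ∀ v ∈ U, B v ∈ U := by
  have h1 : ∀ v, B (A v) = v := fun v => by rw [← mul_apply_eq_comp, h]; rfl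
  intro v hv
  obtain ⟨u, hu⟩ := (LinearMap.injective_iff_surjective (f := (A : W →ₗ[ℝ] W).restrict hU)).mp
    (fun a b e => Subtype.ext (LeftInverse.injective h1 (congrArg Subtype.val e))) ⟨v, hv⟩
  have : A u = v := congrArg Subtype.val hu
  rw [← this, h1]
  exact u.2

lemma unit_of_fix {θ p : W →L[ℝ] W} (h1 : ∀ v, p v ∈ fix θ) (h2 : ∀ v, v ∈ fix θ ↔ (1 - p) v = 0) :
    ∃ D : W ≃L[ℝ] W, (D : W →L[ℝ] W) = (1 - θ) * (1 - p) + p := by
  have h3 : Injective (((1 - θ) * (1 - p) + p : W →L[ℝ] W) : W →ₗ[ℝ] W) := by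
    rw [injective_iff_map_eq_zero]
    intro v hv
    have a1 : θ ((1 - p) v) - (1 - p) v = p v := by
      rw [← sub_eq_zero, ← neg_eq_zero, ← hv]
      simp only [ContinuousLinearMap.coe_coe, add_apply, mul_apply_eq_comp, sub_apply,
        one_apply_eq_self]
      abel
    have a2 : (1 - p) v ∈ fix θ := mem_fix_of (a1 ▸ h1 v)
    have a3 : (1 - p) v = 0 := (h2 v).mp (by simpa using add_mem a2 (h1 v))
    rw [a3, map_zero, sub_zero] at a1
    simpa [← a1] using a3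
  exact ⟨(LinearEquiv.ofInjectiveEndo _ h3).toContinuousLinearEquiv, by ext1; rfl⟩

omit [FiniteDimensional ℝ W] in
lemma fix_le_of_unit {θ p : W →L[ℝ] W} {U : Submodule ℝ W} (h1 : ∀ v, p v ∈ U)
    (h2 : ∀ v, v ∈ U ↔ (1 - p) v = 0) (hθ : ∀ v ∈ U, θ v ∈ U)
    (h : IsUnit ((1 - θ) * (1 - p) + p)) : fix θ ≤ U := by
  refine fix_le fun v hv => ?_
  obtain ⟨D, hD⟩ := h
  have a1 : θ ((1 - p) v) - (1 - p) v ∈ U := by
    convert sub_mem hv (sub_mem (hθ _ (h1 v)) (h1 v)) using 1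
    simp only [sub_apply, one_apply_eq_self, map_sub]
    abel
  have a2 : ∀ u ∈ U, p u = u := fun u hu => (sub_eq_zero.mp ((h2 u).mp hu)).symm
  have a3 : (D : W →L[ℝ] W) ((1 - p) v + (θ ((1 - p) v) - (1 - p) v)) = 0 := by
    rw [map_add, hD]
    simp only [add_apply, mul_apply_eq_comp, (h2 _).mp a1, a2 _ a1, map_zero]
    simp [a2 _ (h1 v)]
  have a4 := congrArg (↑D⁻¹ : W →L[ℝ] W) a3
  rw [← mul_apply_eq_comp, D.inv_mul, map_zero, one_apply_eq_self, add_eq_zero_iff_eq_neg] at a4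
  have a5 := neg_mem a1
  rw [← a4] at a5
  simpa using add_mem a5 (h1 v)

end

variable {G N E : Type} [Group G] [TopologicalSpace G] [Group N] [TopologicalSpace N]
  [IsTopologicalGroup N] [T2Space N] [NormedAddCommGroup E] [NormedSpace ℝ E] [CompleteSpace E]

namespace Gle

variable (Γ : Gle N E)

/-- the closed subgroup generated by the exponentials of a subspace -/
def grp (Z : Submodule ℝ Γ.V) : Subgroup N := (Subgroup.closure (Γ.exp '' Z)).topologicalClosure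

lemma isClosed_grp (Z : Submodule ℝ Γ.V) : IsClosed (Γ.grp Z : Set N) :=
  Subgroup.isClosed_topologicalClosure _

lemma exp_mem_grp {Z : Submodule ℝ Γ.V} {v : Γ.V} (hv : v ∈ Z) : Γ.exp v ∈ Γ.grp Z :=
  Subgroup.le_topologicalClosure _ (Subgroup.subset_closure ⟨v, hv, rfl⟩)

lemma grp_le {Z : Submodule ℝ Γ.V} {H : Subgroup N} (hH : IsClosed (H : Set N))
    (h : ∀ v ∈ Z, Γ.exp v ∈ H) : Γ.grp Z ≤ H :=
  Subgroup.topologicalClosure_minimal _
    ((Subgroup.closure_le _).mpr (by rintro _ ⟨v, hv, rfl⟩; exact h v hv)) hH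

lemma grp_bot {a : N} (h : a ∈ Γ.grp ⊥) : a = 1 :=
  Γ.grp_le (H := ⊥) isClosed_singleton (by simp) h

/-- restriction to a closed subgroup -/
def restrict (H : Subgroup N) (hH : IsClosed (H : Set N)) : Gle H E where
  c g := Γ.c g
  iso g h := Γ.iso g h
  add g h := Γ.add g h
  cont := Γ.cont.comp continuous_subtype_val
  nhd W hW := by
    obtain ⟨W', h1, h2⟩ := (mem_nhds_subtype _ _ _).mp hW
    obtain ⟨ε, hε, h3⟩ := Γ.nhd W' h1
    exact ⟨ε, hε, fun g hg => h2 (h3 g hg)⟩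
  cpt := hH.isClosedEmbedding_subtypeVal.isCompact_preimage Γ.cpt

lemma finrank_restrict (H : Subgroup N) (hH : IsClosed (H : Set N)) {v : Γ.V} (hv : Γ.exp v ∉ H) :
    Module.finrank ℝ (Γ.restrict H hH).V < Module.finrank ℝ Γ.V := by
  have h1 : ∀ {X w}, (Γ.restrict H hH).HasGen X w → Γ.HasGen (fun t => X t) w :=
    fun h => ⟨fun s t => congrArg Subtype.val (h.1 s t), h.2⟩
  refine Submodule.finrank_lt_finrank_of_lt (lt_of_le_of_ne ?_ fun h => hv ?_)
  · rintro w ⟨X, hX⟩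
    exact ⟨_, h1 hX⟩
  · obtain ⟨X, hX⟩ : (v : E) ∈ (Γ.restrict H hH).V := by rw [h]; exact v.2
    have := (h1 hX).eq_exp 1
    rw [one_smul] at this
    exact this ▸ (X 1).2

lemma range_exp : range Γ.exp ∈ 𝓝 (1 : N) :=
  mem_of_superset (Γ.exp_nhds one_pos) (image_subset_range _ _)

end Gle

namespace Tri

variable (T : Tri G N) (Γ : Gle N E)

lemma κ_grp {g : G} {Z : Submodule ℝ Γ.V} (h : ∀ v ∈ Z, T.Ad Γ g v ∈ Z) :
    ∀ a ∈ Γ.grp Z, T.κ g a ∈ Γ.grp Z :=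
  Γ.grp_le (H := (Γ.grp Z).comap (T.κh g)) ((Γ.isClosed_grp Z).preimage (T.continuous_κ g))
    fun v hv => by simpa [← T.exp_Ad] using Γ.exp_mem_grp (h v hv)

lemma conj_asc {S : Set (Γ.V →L[ℝ] Γ.V)} {U : Submodule ℝ Γ.V} {σ : N}
    (hσ : T.Ad Γ (T.ι σ) - 1 ∈ S) (k : ℕ) :
    ∀ a ∈ Γ.grp (asc S U k), σ * a * σ⁻¹ ∈ Γ.grp (asc S U k) := by
  simp only [← T.κ_ι]
  refine T.κ_grp Γ fun v hv => ?_
  cases k with
  | zero => simp_all [asc]
  | succ k => simpa using add_mem (asc_mono S U k.le_succ ((mem_asc.mp hv).2 _ hσ)) hv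

lemma comm_asc {S : Set (Γ.V →L[ℝ] Γ.V)} {U : Submodule ℝ Γ.V}
    (hU : ∀ v ∈ U, T.Ad Γ (T.ι (Γ.exp v)) - 1 ∈ S) {σ : N} (hσ : T.Ad Γ (T.ι σ) - 1 ∈ S) (k : ℕ) :
    ∀ a ∈ Γ.grp (asc S U (k + 1)), σ * a * σ⁻¹ * a⁻¹ ∈ Γ.grp (asc S U k) := by
  let H : Subgroup N :=
    { carrier := {a | σ * a * σ⁻¹ * a⁻¹ ∈ Γ.grp (asc S U k) ∧ ∀ t ∈ Γ.grp (asc S U k),
        a * t * a⁻¹ ∈ Γ.grp (asc S U k) ∧ a⁻¹ * t * a ∈ Γ.grp (asc S U k)}
      one_mem' := ⟨by simp, by simp⟩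
      mul_mem' := by
        rintro a b ⟨a1, a2⟩ ⟨b1, b2⟩
        refine ⟨?_, fun t ht => ⟨?_, ?_⟩⟩
        · convert mul_mem a1 (a2 _ b1).1 using 1
          group
        · simpa [mul_assoc] using (a2 _ (b2 t ht).1).1
        · simpa [mul_assoc] using (b2 _ (a2 t ht).2).2
      inv_mem' := by
        rintro a ⟨a1, a2⟩
        refine ⟨?_, fun t ht => by simpa using (a2 t ht).symm⟩
        convert (a2 _ (inv_mem a1)).2 using 1
        group }
  have hc := Γ.isClosed_grp (asc S U k)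
  have hH : IsClosed (H : Set N) := by
    refine (hc.preimage (f := fun a => σ * a * σ⁻¹ * a⁻¹) (by fun_prop)).inter
      (s₂ := {a | ∀ t ∈ Γ.grp (asc S U k),
        a * t * a⁻¹ ∈ Γ.grp (asc S U k) ∧ a⁻¹ * t * a ∈ Γ.grp (asc S U k)}) ?_
    simp only [ofPred_forall]
    exact isClosed_iInter fun t => isClosed_iInter fun _ =>
      (hc.preimage (f := fun a => a * t * a⁻¹) (by fun_prop)).inter
        (hc.preimage (f := fun a => a⁻¹ * t * a) (by fun_prop))
  refine fun a ha => (Γ.grp_le hH (fun v hv => ?_) ha).1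
  obtain ⟨h1, h2⟩ := mem_asc.mp hv
  refine ⟨?_, fun t ht => ⟨T.conj_asc Γ (hU v h1) k t ht, ?_⟩⟩
  · have := Γ.exp_add_mul_inv_mem hc (fun t => Γ.exp_mem_grp (Submodule.smul_mem _ t (h2 _ hσ)))
      (fun t => T.conj_asc Γ (hU _ (U.smul_mem t h1)) k)
    simpa [T.exp_Ad, T.κ_ι] using this
  · simpa [Γ.exp_neg] using T.conj_asc Γ (hU _ (neg_mem h1)) k t ht

lemma fix_of_grp {S : Set (Γ.V →L[ℝ] Γ.V)} {U : Submodule ℝ Γ.V}
    (hU : ∀ v ∈ U, T.Ad Γ (T.ι (Γ.exp v)) - 1 ∈ S) {σ : N} (hσ : T.Ad Γ (T.ι σ) - 1 ∈ S) (k : ℕ)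
    (v : Γ.V) (hv : ∀ t : ℝ, Γ.exp (t • v) ∈ Γ.grp (asc S U k)) : v ∈ fix (T.Ad Γ (T.ι σ)) := by
  induction k generalizing v with
  | zero =>
    rw [Γ.exp_inj (u := v) (v := 0) fun t => by simpa using Γ.grp_bot (hv t)]
    exact zero_mem _
  | succ k ih =>
    refine mem_fix_of (ih _ fun t => ?_)
    rw [sub_eq_add_neg]
    refine Γ.exp_add_mem (Γ.isClosed_grp _) (fun s => ?_) t
    rw [smul_neg, Γ.exp_neg, ← map_smul, T.exp_Ad, T.κ_ι]
    exact T.comm_asc Γ hU hσ k _ (hv s)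

variable [IsTopologicalGroup G] [SecondCountableTopology G]

theorem HS_of_unip [T2Space G] [LocallyCompactSpace N] [SecondCountableTopology N]
    (h : ∀ n, fix (T.Ad Γ (T.ι n)) = ⊤) : T.HS := by
  obtain ⟨d, hd⟩ := kolchin ((T.Ad Γ).comp T.ι) fun n => tr_of_fix (h n)
  refine T.HS_of_open (Γ.grp ⊤) (Subgroup.isOpen_of_mem_nhds _ (mem_of_superset Γ.range_exp ?_))
    (fun g => T.κ_grp Γ fun _ _ => trivial) fun A hA => ⟨d + 1, eq_top_iff.mpr fun a _ => ?_⟩
  · rintro _ ⟨v, rfl⟩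
    exact Γ.exp_mem_grp trivial
  have h1 : ∀ k, ∀ a : A, (a : N) ∈ Γ.grp (asc ((fun g => (T.Ad Γ).comp T.ι g - 1) '' univ) ⊤ k) →
      a ∈ Subgroup.upperCentralSeries A k := by
    intro k
    induction k with
    | zero => exact fun a ha => Subtype.ext (Γ.grp_bot ha)
    | succ k ih =>
      refine fun a ha => Subgroup.mem_upperCentralSeries_succ_iff.mpr fun b => ih _ ?_
      simpa [commutatorElement_def, mul_assoc] using inv_mem (T.comm_asc Γ
        (S := (fun g => (T.Ad Γ).comp T.ι g - 1) '' univ)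
        (fun v _ => ⟨_, trivial, rfl⟩) (σ := b) ⟨_, trivial, rfl⟩ k a ha)
  refine Subgroup.mem_upperCentralSeries_succ_iff.mpr fun b => h1 _ _ ?_
  rw [hd]
  exact hA a a.2 b b.2

theorem reduce (n : N) (h : fix (T.Ad Γ (T.ι n)) ≠ ⊤)
    (hc : n ∈ range Γ.exp ∨ ∀ x, fix (T.Ad Γ (T.ι (Γ.exp x))) = ⊤) :
    ∃ P : Subgroup G, IsClosed (P.comap T.ι : Set N) ∧ (∃ v, Γ.exp v ∉ P.comap T.ι) ∧
      ((T.sub P).HS → T.HS) := by
  set θ := T.Ad Γ (T.ι n) with hθ
  let P : Subgroup G :=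
    { carrier := {g | (∀ v ∈ fix θ, T.Ad Γ g v ∈ fix θ) ∧ T.κ g n * n⁻¹ ∈ Γ.grp (fix θ)}
      one_mem' := by simp [T.κ_one]
      mul_mem' := by
        rintro a b ⟨a1, a2⟩ ⟨b1, b2⟩
        refine ⟨fun v hv => by simpa using a1 _ (b1 v hv), ?_⟩
        simpa [T.κ_mul, T.κ_inv, T.κ_comp, mul_assoc] using mul_mem (T.κ_grp Γ a1 _ b2) a2
      inv_mem' := by
        rintro a ⟨a1, a2⟩
        have a3 := pres_inv (B := T.Ad Γ a⁻¹) (by rw [← map_mul]; simp) a1
        refine ⟨a3, ?_⟩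
        simpa [T.κ_mul, T.κ_inv, ← T.κ_comp, T.κ_one] using T.κ_grp Γ a3 _ (inv_mem a2) }
  obtain ⟨p, p1, p2⟩ := exists_proj (fix θ)
  obtain ⟨D, hD⟩ := unit_of_fix p1 p2
  refine ⟨P, ?_, ?_, ?_⟩
  · refine IsClosed.inter (s₁ := {m | ∀ v ∈ fix θ, T.Ad Γ (T.ι m) v ∈ fix θ}) ?_
      ((Γ.isClosed_grp _).preimage (((T.continuous_κ' n).comp T.cont).mul continuous_const))
    simp only [ofPred_forall]
    exact isClosed_iInter fun v => isClosed_iInter fun _ =>
      (fix θ).closed_of_finiteDimensional.preimage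
        (((T.continuous_Ad Γ).comp T.cont).clm_apply continuous_const)
  · by_contra hcon
    push Not at hcon
    rcases hc with ⟨x, rfl⟩ | hc
    · exact h (T.fix_eq_top Γ x fun v => (hcon v).1 x ⟨1, by
        simpa [sub_eq_zero] using T.Ad_self Γ x 1⟩)
    obtain ⟨d, hd⟩ := kolchin_local ((T.Ad Γ).comp T.ι) Γ.range_exp
      (by rintro _ ⟨x, rfl⟩; exact tr_of_fix (hc x)) (by
        rintro _ ⟨x, rfl⟩ U' hU'
        have := ((Γ.gen x).continuous.tendsto' 0 1 (by simp)).comp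
          tendsto_one_div_add_atTop_nhds_zero_nat
        obtain ⟨k, hk⟩ := (this.eventually hU').exists
        exact ⟨_, hk, k + 1, (Γ.exp_split x k).symm⟩)
    obtain ⟨e, he⟩ := asc_fix (θ := θ) (by
      rintro _ ⟨_, ⟨x, rfl⟩, rfl⟩
      refine ⟨_, ⟨_, ⟨T.Ad Γ (T.ι n)⁻¹ x, rfl⟩, rfl⟩, ?_⟩
      simp only [MonoidHom.comp_apply, mul_sub, sub_mul, hθ, T.Ad_conj, one_mul, mul_one]
      rw [← mul_apply_eq_comp, ← map_mul _ (T.ι n), mul_inv_cancel, map_one, one_apply_eq_self]) subset_rfl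
      (by
        rintro _ ⟨_, ⟨x, rfl⟩, rfl⟩ v hv
        exact sub_mem ((hcon x).1 v hv) hv) hd
    refine h (eq_top_iff.mpr fun v _ => T.fix_of_grp Γ (U := fix θ)
      (S := insert (θ - 1) ((fun g => (T.Ad Γ).comp T.ι g - 1) '' range Γ.exp))
      (fun v _ => Or.inr ⟨_, ⟨v, rfl⟩, rfl⟩) (Or.inl rfl) e v ?_)
    rw [he]
    obtain ⟨y, rfl⟩ := D.surjective v
    rw [← ContinuousLinearEquiv.coe_coe, hD]
    refine Γ.exp_add_mem (Γ.isClosed_grp _) fun t => mul_mem ?_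
      (Γ.exp_mem_grp (Submodule.smul_mem _ t (p1 y)))
    change Γ.exp (t • ((1 - p) y - θ ((1 - p) y))) ∈ _
    rw [sub_eq_add_neg]
    refine Γ.exp_add_mem (Γ.isClosed_grp _) (fun s => ?_) t
    rw [smul_neg, Γ.exp_neg, ← map_smul θ, T.exp_Ad, T.κ_ι]
    simpa [T.κ_ι, mul_assoc] using (hcon (s • (1 - p) y)).2
  have h1 := ((Γ.SD_exp (1 - p)).mul (Γ.SD_exp p)).mul (Γ.SD_exp (-(θ * (1 - p))))
  obtain ⟨O, ψ, hO, hψ, hψ1, hΦ⟩ := Γ.local_solve D (by
    convert h1 using 1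
    rw [hD, ← ContinuousLinearMap.comp_add, ← ContinuousLinearMap.comp_add]
    congr 1
    rw [sub_mul, one_mul]
    abel)
  have hx : Continuous fun g => T.κ g n * n⁻¹ := (T.continuous_κ' n).mul continuous_const
  have hx1 : Tendsto (fun g => T.κ g n * n⁻¹) (𝓝 1) (𝓝 1) := hx.tendsto' _ _ (by simp [T.κ_one])
  have h2 : Continuous fun v => (1 - T.Ad Γ (T.ι (Γ.exp (p v))) * θ) * (1 - p) + p := by
    have := (T.continuous_Ad Γ).comp (T.cont.comp (Γ.continuous_exp.comp p.continuous))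
    exact ((continuous_const.sub (this.clm_comp continuous_const)).clm_comp continuous_const).add
      continuous_const
  have h3 := ((h2.tendsto' 0 D (by simp [hD])).comp (((hψ.continuousAt hO).tendsto.comp
    hx1).congr' EventuallyEq.rfl |>.trans (by rw [hψ1]))).eventually
    (Units.isOpen.mem_nhds (⟨(ContinuousLinearEquiv.unitsEquiv ℝ _).symm D, rfl⟩ : IsUnit _))
  refine T.HS_of_sub P isOpen_interior (mem_interior_iff_mem_nhds.mpr (inter_mem (hx1 hO) h3))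
    (fun g => T.ι (Γ.exp ((1 - p) (ψ (T.κ g n * n⁻¹))))⁻¹ * g) ?_ fun g hg => ⟨?_, _, rfl⟩
  · refine ContinuousOn.mul ((T.cont.comp (Γ.continuous_exp.comp (1 - p).continuous).inv
      ).comp_continuousOn (hψ.comp hx.continuousOn fun g hg => (interior_subset hg).1))
      continuousOn_id
  obtain ⟨a1, a2⟩ := interior_subset hg
  have a3 := hΦ _ a1
  simp only [mem_ofPred_eq, comp_apply] at a2
  generalize ψ (T.κ g n * n⁻¹) = v at a2 a3
  have a4 : T.κ (T.ι (Γ.exp ((1 - p) v))⁻¹ * g) n = Γ.exp (p v) * n := by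
    rw [neg_apply, Γ.exp_neg, mul_apply_eq_comp, hθ, T.exp_Ad, T.κ_ι, eq_mul_inv_iff_mul_eq] at a3
    rw [T.κ_comp, T.κ_ι, ← a3]
    group
  refine ⟨fun u hu => fix_le_of_unit (θ := T.Ad Γ (T.ι (Γ.exp (p v))) * θ) p1 p2
    (fun u hu => T.exp_fix Γ _ (p1 v) (conj_mem_fix (r := θ) rfl hu)) a2 (conj_mem_fix ?_ hu),
    by simpa only [a4, mul_inv_cancel_right] using Γ.exp_mem_grp (p1 v)⟩
  rw [hθ, ← map_mul, ← map_mul, ← map_mul, ← map_mul, ← a4, T.spec, inv_mul_cancel_right]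

end Tri

theorem HS_of_gle (d : ℕ) : ∀ (G N : Type) [Group G] [TopologicalSpace G] [IsTopologicalGroup G]
    [T2Space G] [SecondCountableTopology G] [Group N] [TopologicalSpace N] [IsTopologicalGroup N]
    [T2Space N] [LocallyCompactSpace N] [SecondCountableTopology N] (T : Tri G N) (Γ : Gle N E),
    Module.finrank ℝ Γ.V = d → T.HS := by
  induction d using Nat.strong_induction_on with
  | _ d ih =>
  intro G N _ _ _ _ _ _ _ _ _ _ _ T Γ hd
  by_cases h : ∀ n, fix (T.Ad Γ (T.ι n)) = ⊤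
  · exact T.HS_of_unip Γ h
  have h1 : ∃ n, fix (T.Ad Γ (T.ι n)) ≠ ⊤ ∧
      (n ∈ range Γ.exp ∨ ∀ x, fix (T.Ad Γ (T.ι (Γ.exp x))) = ⊤) := by
    by_cases h2 : ∀ x, fix (T.Ad Γ (T.ι (Γ.exp x))) = ⊤
    · obtain ⟨n, hn⟩ := not_forall.mp h
      exact ⟨n, hn, Or.inr h2⟩
    · obtain ⟨x, hx⟩ := not_forall.mp h2
      exact ⟨_, hx, Or.inl ⟨x, rfl⟩⟩
  obtain ⟨n, h2, h3⟩ := h1
  obtain ⟨P, a1, ⟨v, a2⟩, a3⟩ := T.reduce Γ n h2 h3
  have := a1.locallyCompactSpace
  have : SecondCountableTopology P := TopologicalSpace.Subtype.secondCountableTopology _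
  have : SecondCountableTopology (P.comap T.ι) :=
    TopologicalSpace.Subtype.secondCountableTopology _
  exact a3 (ih _ (hd ▸ Γ.finrank_restrict _ a1 a2) _ _ _ (Γ.restrict _ a1) rfl)

end Pool.Agent.MP_ede9a8_lc

end MrgPart2

-- ======== part 3: formerly Pool.Agent.MP_ede9a8_lc.PW
section MrgPart3

/-!
Compact groups have small closed subgroups with no small subgroups nearby (Peter-Weyl).
-/

namespace Pool.Agent.MP_ede9a8_lc

open Set Function Filter Topology MeasureTheory InnerProductSpace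

variable {H : Type} [Group H] [TopologicalSpace H]

/-- a closed subgroup containing every cyclic semigroup which stays close to it -/
def Good (K : Subgroup H) : Prop :=
  IsClosed (K : Set H) ∧ ∃ Ω, IsOpen Ω ∧ (K : Set H) ⊆ Ω ∧ ∀ h : H, (∀ j : ℕ, h ^ j ∈ Ω) → h ∈ K

lemma good_of_fd {F : Type} [NormedAddCommGroup F] [NormedSpace ℝ F] (π : H →* F →L[ℝ] F)
    (hπ : ∀ v, Continuous fun h => π h v) (W : Submodule ℝ F) [FiniteDimensional ℝ W]
    (hW : ∀ h, ∀ v ∈ W, π h v ∈ W) : ∃ K, Good K ∧ ∀ h ∈ K, ∀ v ∈ W, π h v = v := by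
  let K : Subgroup H :=
    { carrier := {h | ∀ v ∈ W, π h v = v}
      one_mem' := by simp
      mul_mem' := fun ha hb v hv => by simp [hb v hv, ha v hv]
      inv_mem' := fun {a} ha v hv => by
        nth_rw 1 [← ha v hv]
        rw [← mul_apply_eq_comp, ← map_mul]
        simp }
  have hc : Continuous fun h => (π h - 1).comp W.subtypeL :=
    continuous_clm_apply.mpr fun v => (hπ v).sub continuous_const
  refine ⟨K, ⟨?_, {h | ‖(π h - 1).comp W.subtypeL‖ < 1 / 2}, 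
    isOpen_lt (Continuous.norm (E := W →L[ℝ] F) hc) continuous_const,
    fun h hh => ?_, fun h hh v hv => ?_⟩, fun h hh => hh⟩
  · change IsClosed {h | ∀ v ∈ W, π h v = v}
    simp only [ofPred_forall]
    exact isClosed_iInter fun v => isClosed_iInter fun _ => isClosed_eq (hπ v) continuous_const
  · have : (π h - 1).comp W.subtypeL = 0 := by
      ext v
      simp [hh v v.2]
    rw [mem_ofPred_eq, this, ContinuousLinearMap.opNorm_zero]
    norm_num
  have h1 : ∀ j : ℕ, ∀ u ∈ W, ‖π (h ^ j) u - u‖ ≤ 1 / 2 * ‖u‖ := fun j u hu =>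
    ((π (h ^ j) - 1).comp W.subtypeL).le_of_opNorm_le (le_of_lt (hh j)) ⟨u, hu⟩
  have h2 : ∀ k : ℕ, (3 / 2) ^ k * ‖π h v - v‖ ≤ ‖π (h ^ 2 ^ k) v - v‖ := by
    intro k
    induction k with
    | zero => simp
    | succ k ih =>
      have a1 := h1 (2 ^ k) _ (sub_mem (hW (h ^ 2 ^ k) v hv) hv)
      have e : (2 : ℝ) • (π (h ^ 2 ^ k) v - v) = (π (h ^ 2 ^ (k + 1)) v - v)
          - (π (h ^ 2 ^ k) (π (h ^ 2 ^ k) v - v) - (π (h ^ 2 ^ k) v - v)) := by
        rw [pow_succ 2, pow_mul, sq, map_mul, map_sub, mul_apply_eq_comp, two_smul]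
        abel
      have a2 := congrArg norm e
      rw [norm_smul, Real.norm_two] at a2
      have a3 := norm_sub_le (π (h ^ 2 ^ (k + 1)) v - v)
        (π (h ^ 2 ^ k) (π (h ^ 2 ^ k) v - v) - (π (h ^ 2 ^ k) v - v))
      rw [pow_succ]
      linarith
  by_contra hne
  have hp : 0 < ‖π h v - v‖ := norm_pos_iff.mpr (sub_ne_zero.mpr hne)
  obtain ⟨k, hk⟩ := pow_unbounded_of_one_lt (1 / 2 * ‖v‖ / ‖π h v - v‖) (show (1 : ℝ) < 3 / 2 by
    norm_num)
  rw [div_lt_iff₀ hp] at hk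
  linarith [h2 k, h1 (2 ^ k) v hv]

variable [IsTopologicalGroup H] [CompactSpace H] [T2Space H] [SecondCountableTopology H]

omit [T2Space H] [SecondCountableTopology H] in
lemma good_sep {F : Type} [NormedAddCommGroup F] [InnerProductSpace ℝ F] [CompleteSpace F]
    (π : H →* F →L[ℝ] F) (hπ : ∀ v, Continuous fun h => π h v)
    (hi : ∀ h u v, ⟪π h u, π h v⟫_ℝ = ⟪u, v⟫_ℝ) {ξ : F} {g : H} (hg : π g ξ ≠ ξ) :
    ∃ K, Good K ∧ g ∉ K := by
  borelize H
  let μ : Measure H := Measure.haarMeasure ⊤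
  have : IsProbabilityMeasure μ := ⟨Measure.haarMeasure_self⟩
  have hi' : ∀ h u v, ⟪π h u, v⟫_ℝ = ⟪u, π h⁻¹ v⟫_ℝ := fun h u v => by
    rw [← hi h u, ← mul_apply_eq_comp, ← map_mul]
    simp
  have h1 : Integrable (fun h => rankOne ℝ (π h ξ) (π h ξ)) μ :=
    (((rankOne ℝ).continuous.comp (hπ ξ)).clm_apply (hπ ξ)).integrable_of_hasCompactSupport
      (HasCompactSupport.of_compactSpace _)
  let T : F →L[ℝ] F := ∫ h, rankOne ℝ (π h ξ) (π h ξ) ∂μ
  have h2 : IsCompactOperator T :=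
    (compactOperator (RingHom.id ℝ) F F).convex.integral_mem isClosed_setOfPred_isCompactOperator
      (Eventually.of_forall fun h => (isCompactOperator_of_locallyCompactSpace_dom
        (innerSL ℝ (π h ξ))).clm_comp (ContinuousLinearMap.toSpanSingleton ℝ (π h ξ))) h1
  have h3 : ∀ u v, ⟪v, T u⟫_ℝ = ∫ h, ⟪π h ξ, u⟫_ℝ * ⟪π h ξ, v⟫_ℝ ∂μ := by
    intro u v
    rw [ContinuousLinearMap.integral_apply h1, ← integral_inner (h1.apply_continuousLinearMap u)]
    simp [inner_smul_right, real_inner_comm]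
  have h4 : (T : F →ₗ[ℝ] F).IsSymmetric := fun u v => by
    simp only [ContinuousLinearMap.coe_coe]
    rw [real_inner_comm, h3, h3]
    simp only [mul_comm]
  have h5 : ∀ a u, T (π a u) = π a (T u) := fun a u => ext_inner_left ℝ fun v => by
    rw [real_inner_comm (π a (T u)), hi', real_inner_comm _ (T u), h3, h3,
      ← integral_mul_left_eq_self _ a]
    simp only [map_mul, mul_apply_eq_comp, hi, hi' a]
  by_contra hcon
  push Not at hcon
  refine hg (sub_eq_zero.mp ((Submodule.eq_bot_iff _).mp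
    (ContinuousLinearMap.orthogonalComplement_iSup_eigenspaces_eq_bot h2 h4) _ ?_))
  rw [← Submodule.iInf_orthogonal, Submodule.mem_iInf]
  intro c
  rw [Submodule.mem_orthogonal']
  intro v hv
  rw [inner_sub_left]
  rcases eq_or_ne c 0 with rfl | hc
  · have a1 : ∀ h, ⟪π h ξ, v⟫_ℝ = 0 := by
      intro h
      by_contra hne
      have a2 : Continuous fun h => ⟪π h ξ, v⟫_ℝ := (hπ ξ).inner continuous_const
      have := (a2.mul a2).integral_pos_of_hasCompactSupport_nonneg_nonzero (μ := μ)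
        (HasCompactSupport.of_compactSpace _) (fun _ => mul_self_nonneg _) (mul_ne_zero hne hne)
      rw [Module.End.mem_eigenspace_iff, zero_smul, ContinuousLinearMap.coe_coe] at hv
      simp only [Pi.mul_apply] at this
      rw [← h3, hv, inner_zero_right] at this
      exact lt_irrefl _ this
    simpa [a1 g] using a1 1
  · have := ContinuousLinearMap.finite_dimensional_eigenspace h2 c hc
    obtain ⟨K, a1, a2⟩ := good_of_fd π hπ (Module.End.eigenspace (T : F →ₗ[ℝ] F) c) fun a u hu => by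
      rw [Module.End.mem_eigenspace_iff, ContinuousLinearMap.coe_coe] at hu ⊢
      rw [h5, hu, map_smul]
    rw [hi', a2 _ (inv_mem (hcon K a1)) v hv, sub_self]

theorem peter_weyl {V : Set H} (hV : V ∈ 𝓝 1) : ∃ K : Subgroup H, Good K ∧ (K : Set H) ⊆ V := by
  borelize H
  let μ : Measure H := Measure.haarMeasure ⊤
  let π : H →* Lp ℝ 2 μ →L[ℝ] Lp ℝ 2 μ :=
    { toFun := fun h => (Lp.compMeasurePreservingₗᵢ ℝ (h⁻¹ • ·)
        (measurePreserving_smul _ _)).toContinuousLinearMap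
      map_one' := by
        ext1 f
        change DomMulAct.mk (1 : H)⁻¹ • f = f
        simp
      map_mul' := fun a b => by
        ext1 f
        change DomMulAct.mk (a * b)⁻¹ • f = DomMulAct.mk a⁻¹ • DomMulAct.mk b⁻¹ • f
        simp [mul_smul] }
  have : Fact ((2 : ENNReal) ≠ ⊤) := ⟨by simp⟩
  have hπ : ∀ f, Continuous fun h => π h f := fun f =>
    (DomMulAct.continuous_mk.comp continuous_inv).smul continuous_const
  have h1 : ∀ g ≠ 1, ∃ K : Subgroup H, Good K ∧ g ∉ K := by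
    intro g hg
    obtain ⟨f, f1, f2, -⟩ := exists_continuous_zero_one_of_isClosed (isClosed_singleton (x := 1))
      (isClosed_singleton (x := g)) (by simpa using hg.symm)
    refine good_sep π hπ (fun h u v => LinearIsometry.inner_map_map _ u v)
      (ξ := ContinuousMap.toLp 2 μ ℝ f) fun he => ?_
    have a1 := DomMulAct.smul_Lp_ae_eq (DomMulAct.mk g⁻¹) (ContinuousMap.toLp 2 μ ℝ f)
    have a2 := ContinuousMap.coeFn_toLp (p := 2) μ (𝕜 := ℝ) f
    have a3 := (measurePreserving_smul g⁻¹ μ).quasiMeasurePreserving.ae_eq_comp a2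
    have a4 : DomMulAct.mk g⁻¹ • ContinuousMap.toLp 2 μ ℝ f = ContinuousMap.toLp 2 μ ℝ f := he
    rw [a4] at a1
    have a5 := congrFun ((Continuous.ae_eq_iff_eq μ f.continuous (by fun_prop)).mp
      ((a2.symm.trans a1).trans a3)) g
    simp [f1 rfl, f2 rfl] at a5
  obtain ⟨K, a1, a2⟩ : ∃ K : Subgroup H, Good K ∧ Disjoint (K : Set H) (interior V)ᶜ := by
    refine isOpen_interior.isClosed_compl.isCompact.induction_on
      (p := fun s => ∃ K : Subgroup H, Good K ∧ Disjoint (K : Set H) s)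
      ⟨⊤, ⟨isClosed_univ, univ, isOpen_univ, subset_rfl, fun _ _ => trivial⟩, by simp⟩ ?_ ?_ ?_
    · rintro s t hst ⟨K, a1, a2⟩
      exact ⟨K, a1, a2.mono_right hst⟩
    · rintro s t ⟨K, ⟨a1, Ω, a2, a3, a4⟩, a5⟩ ⟨K', ⟨b1, Ω', b2, b3, b4⟩, b5⟩
      exact ⟨K ⊓ K', ⟨a1.inter b1, Ω ∩ Ω', a2.inter b2, inter_subset_inter a3 b3,
        fun h hh => ⟨a4 h fun j => (hh j).1, b4 h fun j => (hh j).2⟩⟩,
        Disjoint.union_right (a5.mono_left inter_subset_left) (b5.mono_left inter_subset_right)⟩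
    · intro g hg
      obtain ⟨K, a1, a2⟩ := h1 g fun h => hg (h ▸ mem_interior_iff_mem_nhds.mpr hV)
      exact ⟨_, mem_nhdsWithin_of_mem_nhds (a1.1.isOpen_compl.mem_nhds a2), K, a1,
        disjoint_compl_right⟩
  exact ⟨K, a1, (disjoint_compl_right_iff_subset.mp a2).trans interior_subset⟩

theorem peter_weyl_sub {N : Type} [Group N] [TopologicalSpace N] [IsTopologicalGroup N] [T2Space N]
    [SecondCountableTopology N] (M : Subgroup N) (hM : IsCompact (M : Set N)) {V : Set N}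
    (hV : V ∈ 𝓝 1) : ∃ K : Subgroup N, IsCompact (K : Set N) ∧ (K : Set N) ⊆ V ∧
      ∃ Ω, IsOpen Ω ∧ (K : Set N) ⊆ Ω ∧ ∀ h ∈ M, (∀ j : ℕ, h ^ j ∈ Ω) → h ∈ K := by
  have : CompactSpace M := isCompact_iff_compactSpace.mp hM
  have : SecondCountableTopology M := TopologicalSpace.Subtype.secondCountableTopology _
  obtain ⟨K, ⟨a1, _, ⟨Ω, a2, rfl⟩, a3, a4⟩, a5⟩ := peter_weyl (H := M)
    (continuous_subtype_val.continuousAt.preimage_mem_nhds hV)
  refine ⟨K.map M.subtype, a1.isCompact.image continuous_subtype_val, ?_, Ω, a2, ?_,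
    fun h hh hj => ⟨⟨h, hh⟩, a4 _ hj, rfl⟩⟩
  · rintro _ ⟨k, hk, rfl⟩
    exact a5 hk
  · rintro _ ⟨k, hk, rfl⟩
    exact a3 hk

end Pool.Agent.MP_ede9a8_lc

end MrgPart3

-- ======== part 4: formerly Pool.Agent.MP_ede9a8_lc.Conv
section MrgPart4

/-!
Gleason's convolution trick.
-/

namespace Pool.Agent.MP_ede9a8_lc

open Set Function Filter Topology MeasureTheory Pointwise

variable {N : Type} [Group N]

/-- a symmetric weight such that products of total weight less than one lie in `U` -/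
structure Trap (U : Set N) (w : N → ℝ) : Prop where
  nonneg : ∀ g, 0 ≤ w g
  symm : ∀ g, w g⁻¹ = w g
  trap : ∀ l : List N, (l.map w).sum < 1 → l.prod ∈ U

variable [TopologicalSpace N]

/-- an open symmetric relatively compact neighbourhood of the identity -/
structure Nice (U : Set N) : Prop where
  isOpen : IsOpen U
  one : 1 ∈ U
  inv : ∀ g ∈ U, g⁻¹ ∈ U
  cpt : IsCompact (closure U)

variable [IsTopologicalGroup N]

lemma Trap.bump {U : Set N} {w : N → ℝ} (hU : IsOpen U) (h : Trap U w) :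
    ∃ ψ : N → ℝ, LowerSemicontinuous ψ ∧ (∀ x, 0 ≤ ψ x ∧ ψ x ≤ 1) ∧ (∀ x ∈ U, ψ x = 1) ∧
      (∀ x, ψ x ≠ 0 → x ∈ U ^ 2) ∧ ∀ g x, |ψ (g * x) - ψ x| ≤ w g := by
  let f : List N → N → ℝ := fun l =>
    indicator {x | l.prod⁻¹ * x ∈ U} fun _ => max 0 (1 - (l.map w).sum)
  have h0 : ∀ l x, 0 ≤ f l x := fun l x => indicator_nonneg (fun _ _ => le_max_left _ _) x
  have h1 : ∀ l x, f l x ≤ 1 := fun l x => indicator_le' (fun _ _ => max_le zero_le_one
    (sub_le_self _ (List.sum_nonneg (by simpa using fun a _ => h.nonneg a))))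
    (fun _ _ => zero_le_one) x
  have hb : ∀ x, BddAbove (range fun l => f l x) := fun x => ⟨1, forall_mem_range.mpr (h1 · x)⟩
  have h2 : ∀ g x, ⨆ l, f l x ≤ (⨆ l, f l (g * x)) + w g := by
    refine fun g x => ciSup_le fun l => le_trans ?_ (add_le_add_left (le_ciSup (hb _) (g :: l)) _)
    by_cases hx : l.prod⁻¹ * x ∈ U
    · rw [show f l x = _ from indicator_of_mem (s := {x | l.prod⁻¹ * x ∈ U}) hx _,
        show f (g :: l) (g * x) = _ from indicator_of_mem (by simpa [mul_assoc] using hx) _]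
      simp only [List.map_cons, List.sum_cons]
      refine max_le (add_nonneg (le_max_left _ _) (h.nonneg g)) ?_
      linarith [le_max_right 0 (1 - (w g + (l.map w).sum))]
    · rw [show f l x = _ from indicator_of_notMem (s := {x | l.prod⁻¹ * x ∈ U}) hx _]
      exact add_nonneg (h0 _ _) (h.nonneg g)
  refine ⟨fun x => ⨆ l, f l x, lowerSemicontinuous_ciSup hb fun l =>
    (hU.preimage (continuous_const.mul continuous_id)).lowerSemicontinuous_indicator
      (le_max_left _ _), fun x => ⟨(h0 [] x).trans (le_ciSup (hb x) []), ciSup_le (h1 · x)⟩,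
    fun x hx => le_antisymm (ciSup_le (h1 · x)) (le_trans ?_ (le_ciSup (hb x) [])), ?_, ?_⟩
  · rw [show f [] x = _ from indicator_of_mem (by simpa using hx) _]
    simp
  · intro x hx
    by_contra hx'
    refine hx (le_antisymm (ciSup_le fun l => indicator_apply_nonpos fun hl => max_le le_rfl ?_)
      ((h0 [] x).trans (le_ciSup (hb x) [])))
    by_contra hc
    exact hx' (sq U ▸ ⟨_, h.trap l (by linarith), _, hl, by simp⟩)
  · intro g x
    have a1 := h2 g x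
    have a2 := h2 g⁻¹ (g * x)
    rw [inv_mul_cancel_left, h.symm] at a2
    rw [abs_le]
    constructor <;> linarith

lemma Nice.isOpen_pow {U : Set N} (hU : Nice U) (n : ℕ) : IsOpen (U ^ (n + 1)) := by
  rw [pow_succ]
  exact hU.isOpen.mul_left

lemma Nice.pow [T2Space N] {U : Set N} (hU : Nice U) (n : ℕ) : Nice (U ^ (n + 1)) :=
  ⟨hU.isOpen_pow n, Set.one_mem_pow hU.one, inv_mem_pow hU.inv _,
    (isCompact_pow hU.cpt (n + 1)).closure_of_subset (Set.pow_subset_pow_left subset_closure)⟩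

theorem cocycle [T2Space N] [LocallyCompactSpace N] {U : Set N} (hU : Nice U) :
    ∃ C : ℝ, 0 < C ∧ ∀ w w', Trap U w → Trap U w' → ∃ c : N → lp (fun _ : N => ℝ) ⊤,
      (∀ g h, ‖c h - c g‖ = ‖c (g⁻¹ * h)‖) ∧ (∀ g, ‖c g‖ ≤ C) ∧ (∀ g, ‖c g‖ < 1 → g ∈ U ^ 4) ∧
      (∀ h ∈ U, ‖c h‖ ≤ C * w h) ∧ ∀ g, ∀ h ∈ U, ∀ r, (∀ y ∈ U ^ 3, w' (y⁻¹ * g * y) ≤ r) →
        ‖c (g * h) - c g - c h‖ ≤ C * r * w h := by
  borelize N
  let μ : Measure N := Measure.haar
  have hfin : ∀ n, μ (U ^ (n + 1)) ≠ ⊤ := fun n =>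
    ((measure_mono subset_closure).trans_lt (hU.pow n).cpt.measure_lt_top).ne
  have hpos : ∀ n, 0 < μ.real (U ^ (n + 1)) := fun n =>
    ENNReal.toReal_pos ((hU.isOpen_pow n).measure_ne_zero μ ⟨1, (hU.pow n).one⟩) (hfin n)
  have hind : ∀ n (r : ℝ), Integrable (indicator (U ^ (n + 1)) fun _ => r) μ := fun n r =>
    (integrableOn_const (hfin n)).integrable_indicator (hU.isOpen_pow n).measurableSet
  have key : ∀ (f : N → ℝ) (r : ℝ), Measurable f → (∀ y ∈ U ^ 3, |f y| ≤ r) →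
      (∀ y, f y ≠ 0 → y ∈ U ^ 3) → Integrable f μ ∧ |∫ y, f y ∂μ| ≤ μ.real (U ^ 3) * r := by
    intro f r h1 h2 h3
    have h4 : ∀ᵐ y ∂μ, ‖f y‖ ≤ indicator (U ^ 3) (fun _ => r) y := Eventually.of_forall fun y => by
      by_cases hy : y ∈ U ^ 3
      · rw [indicator_of_mem hy]
        exact h2 y hy
      · rw [indicator_of_notMem hy, of_not_not (mt (h3 y) hy), norm_zero]
    refine ⟨(hind 2 r).mono' h1.aestronglyMeasurable h4, ?_⟩
    have := norm_integral_le_of_norm_le (hind 2 r) h4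
    rwa [integral_indicator_const _ (hU.isOpen_pow 2).measurableSet] at this
  have ha := hpos 0
  refine ⟨μ.real (U ^ 3) / μ.real (U ^ (0 + 1)), div_pos (hpos 2) ha, fun w w' hw hw' => ?_⟩
  obtain ⟨ψ, p1, p2, p3, p4, p5⟩ := hw.bump hU.isOpen
  obtain ⟨η, q1, q2, q3, q4, q5⟩ := hw'.bump hU.isOpen
  have p1' := p1.measurable
  have q1' : ∀ x, Measurable fun y => η (y⁻¹ * x) := fun x =>
    q1.measurable.comp (measurable_inv.mul_const x)
  have s1 : ∀ h ∈ U, ∀ y, ψ (h⁻¹ * y) ≠ 0 → y ∈ U ^ 3 := fun h hh y hy => by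
    simpa using set_mul_mem_pow_add (show h ∈ U ^ 1 by simpa using hh) (p4 _ hy)
  have i1 : ∀ h ∈ U, ∀ x, Integrable (fun y => ψ (h⁻¹ * y) * η (y⁻¹ * x)) μ ∧
      |∫ y, ψ (h⁻¹ * y) * η (y⁻¹ * x) ∂μ| ≤ μ.real (U ^ 3) * 1 := fun h hh x =>
    key _ _ ((p1'.comp (measurable_const_mul _)).mul (q1' x)) (fun y _ => by
      rw [abs_of_nonneg (mul_nonneg (p2 _).1 (q2 _).1)]
      exact mul_le_one₀ (p2 _).2 (q2 _).1 (q2 _).2) fun y hy => s1 h hh y (left_ne_zero_of_mul hy)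
  have i2 := i1 1 hU.one
  simp only [inv_one, one_mul, mul_one] at i2
  let φ : N → ℝ := fun x => (∫ y, ψ y * η (y⁻¹ * x) ∂μ) / μ.real (U ^ (0 + 1))
  have f0 : ∀ x, 0 ≤ φ x := fun x =>
    div_nonneg (integral_nonneg fun y => mul_nonneg (p2 _).1 (q2 _).1) ha.le
  have f1 : ∀ x, φ x ≤ μ.real (U ^ 3) / μ.real (U ^ (0 + 1)) := fun x =>
    div_le_div_of_nonneg_right ((le_abs_self _).trans (i2 x).2) ha.le
  have f2 : 1 ≤ φ 1 := by
    rw [le_div_iff₀ ha, mul_comm, ← smul_eq_mul,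
      ← integral_indicator_const _ (hU.isOpen_pow 0).measurableSet]
    refine integral_mono (hind 0 1) (i2 1).1 fun y => indicator_apply_le' (fun hy => ?_)
      fun _ => mul_nonneg (p2 _).1 (q2 _).1
    rw [zero_add, pow_one] at hy
    simp [p3 y hy, q3 _ (hU.inv y hy)]
  have f3 : ∀ h ∈ U, ∀ x, φ (h⁻¹ * x) - φ x
      = (∫ y, (ψ (h⁻¹ * y) - ψ y) * η (y⁻¹ * x) ∂μ) / μ.real (U ^ (0 + 1)) := by
    intro h hh x
    simp only [φ, sub_mul]
    rw [integral_sub (i1 h hh x).1 (i2 x).1, sub_div, ← integral_mul_left_eq_self _ h⁻¹]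
    simp [mul_assoc]
  have f4 : ∀ h ∈ U, ∀ (F : N → ℝ) (r : ℝ), Measurable F → (∀ y ∈ U ^ 3, |F y| ≤ r) →
      Integrable (fun y => (ψ (h⁻¹ * y) - ψ y) * F y) μ ∧
        |(∫ y, (ψ (h⁻¹ * y) - ψ y) * F y ∂μ) / μ.real (U ^ (0 + 1))|
          ≤ μ.real (U ^ 3) / μ.real (U ^ (0 + 1)) * r * w h := by
    intro h hh F r hF hr
    obtain ⟨a1, a2⟩ := key (fun y => (ψ (h⁻¹ * y) - ψ y) * F y) (w h * r)
      (((p1'.comp (measurable_const_mul _)).sub p1').mul hF) (fun y hy => by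
        rw [abs_mul]
        exact mul_le_mul (hw.symm h ▸ p5 _ _) (hr y hy) (abs_nonneg _) (hw.nonneg h)) (fun y hy => by
        by_cases h1 : ψ y = 0
        · exact s1 h hh y (by simpa [h1] using left_ne_zero_of_mul hy)
        · exact s1 1 hU.one y (by simpa using h1))
    refine ⟨a1, ?_⟩
    rw [abs_div, abs_of_pos ha, div_mul_eq_mul_div, div_mul_eq_mul_div]
    exact div_le_div_of_nonneg_right (by linarith) ha.le
  have f5 : ∀ x y, ‖φ x - φ y‖ ≤ μ.real (U ^ 3) / μ.real (U ^ (0 + 1)) := fun x y => by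
    rw [Real.norm_eq_abs, abs_le]
    constructor <;> linarith [f0 x, f0 y, f1 x, f1 y]
  let c : N → lp (fun _ : N => ℝ) ⊤ := fun g =>
    ⟨fun x => φ (g⁻¹ * x) - φ x, memℓp_infty ⟨_, forall_mem_range.mpr fun x => f5 _ _⟩⟩
  have hc : ∀ g x, c g x = φ (g⁻¹ * x) - φ x := fun _ _ => rfl
  have habs : ∀ x y, |η (y⁻¹ * x)| ≤ 1 := fun x y => by
    rw [abs_of_nonneg (q2 _).1]
    exact (q2 _).2
  refine ⟨c, fun g h => le_antisymm (lp.norm_le_of_forall_le' _ fun x => ?_)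
    (lp.norm_le_of_forall_le' _ fun x => ?_), fun g => lp.norm_le_of_forall_le' _ fun x => f5 _ _,
    fun g hg => ?_, fun h hh => lp.norm_le_of_forall_le' _ fun x => ?_,
    fun g h hh r hr => lp.norm_le_of_forall_le' _ fun x => ?_⟩
  · simpa [hc, mul_assoc] using lp.norm_apply_le_norm (by simp) (c (g⁻¹ * h)) (g⁻¹ * x)
  · simpa [hc, mul_assoc] using lp.norm_apply_le_norm (by simp) (c h - c g) (g * x)
  · have a1 := (lp.norm_apply_le_norm (by simp) (c g) 1).trans_lt hg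
    rw [hc, mul_one, Real.norm_eq_abs, abs_lt] at a1
    by_contra hcon
    have : φ g⁻¹ = 0 := by
      have : ∀ y, ψ y * η (y⁻¹ * g⁻¹) = 0 := fun y => by
        by_contra hy
        have := set_mul_mem_pow_add (p4 _ (left_ne_zero_of_mul hy)) (q4 _ (right_ne_zero_of_mul hy))
        exact hcon (by simpa using inv_mem_pow hU.inv _ _ this)
      simp [φ, this]
    linarith [a1.1]
  · rw [hc, f3 h hh]
    simpa only [mul_one, Real.norm_eq_abs] using (f4 h hh _ 1 (q1' x) fun y _ => habs x y).2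
  · have e : (c (g * h) - c g - c h) x = (φ (h⁻¹ * (g⁻¹ * x)) - φ (g⁻¹ * x)) - (φ (h⁻¹ * x) - φ x) := by
      simp [hc, mul_assoc]
    rw [e, f3 h hh, f3 h hh, ← sub_div, ← integral_sub (f4 h hh _ 1 (q1' _) fun y _ => habs _ y).1
      (f4 h hh _ 1 (q1' _) fun y _ => habs _ y).1]
    simp only [← mul_sub]
    refine (f4 h hh _ r ((q1' _).sub (q1' _)) fun y hy => le_trans ?_ (hr y hy)).2
    have := q5 (y⁻¹ * g * y)⁻¹ (y⁻¹ * x)
    rw [hw'.symm] at this
    simpa [mul_assoc] using this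

end Pool.Agent.MP_ede9a8_lc

end MrgPart4

-- ======== part 5: formerly Pool.Agent.MP_ede9a8_lc.Esc
section MrgPart5

/-!
Escape norms; groups without small subgroups carry Gleason data.
-/

namespace Pool.Agent.MP_ede9a8_lc

open Set Function Filter Topology Pointwise

variable {N : Type} [Group N]

/-- the escape norm -/
noncomputable def esc (U : Set N) (g : N) : ℝ := sInf {s | 0 ≤ s ∧ ∀ j : ℕ, j * s < 1 → g ^ j ∈ U}

lemma esc_nonneg (U : Set N) (g : N) : 0 ≤ esc U g := Real.sInf_nonneg fun _ h => h.1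

lemma esc_le {U : Set N} {g : N} {s : ℝ} (h0 : 0 ≤ s) (h : ∀ j : ℕ, j * s < 1 → g ^ j ∈ U) :
    esc U g ≤ s := csInf_le ⟨0, fun _ h => h.1⟩ ⟨h0, h⟩

lemma esc_one_mem {U : Set N} (h1 : 1 ∈ U) (g : N) (j : ℕ) (hj : (j : ℝ) * 1 < 1) : g ^ j ∈ U := by
  have : j = 0 := by
    rw [mul_one, Nat.cast_lt_one] at hj
    exact hj
  simpa [this] using h1

lemma pow_mem_of_esc {U : Set N} (h1 : 1 ∈ U) {g : N} {j : ℕ} (h : j * esc U g < 1) :
    g ^ j ∈ U := by
  rcases Nat.eq_zero_or_pos j with rfl | hj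
  · simpa using h1
  have hj' : (0 : ℝ) < j := by exact_mod_cast hj
  obtain ⟨s, a1, a2⟩ := exists_lt_of_csInf_lt
    (s := {s : ℝ | 0 ≤ s ∧ ∀ j : ℕ, j * s < 1 → g ^ j ∈ U}) ⟨1, zero_le_one, esc_one_mem h1 g⟩
    ((lt_div_iff₀' hj').mpr h)
  exact a1.2 j ((lt_div_iff₀' hj').mp a2)

lemma mem_of_esc {U : Set N} (h1 : 1 ∈ U) {g : N} (h : esc U g < 1) : g ∈ U := by
  simpa using pow_mem_of_esc h1 (j := 1) (by simpa using h)

lemma esc_mono {U V : Set N} (h1 : 1 ∈ U) (h : U ⊆ V) (g : N) : esc V g ≤ esc U g :=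
  esc_le (esc_nonneg _ _) fun _ hj => h (pow_mem_of_esc h1 hj)

lemma esc_inv {U : Set N} (h : ∀ g ∈ U, g⁻¹ ∈ U) (g : N) : esc U g⁻¹ = esc U g := by
  have : ∀ j : ℕ, g⁻¹ ^ j ∈ U ↔ g ^ j ∈ U := fun j =>
    ⟨fun a => by simpa using h _ a, fun a => by simpa using h _ a⟩
  simp only [esc, this]

lemma trap_of_pow {U Q : Set N} (h1 : 1 ∈ Q) (hQ : ∀ g ∈ Q, g⁻¹ ∈ Q) {n : ℕ} (h : Q ^ n ⊆ U) :
    ∃ w, Trap U w ∧ ∀ q ∈ Q, w q = 1 / (n + 1) := by
  classical
  refine ⟨fun g => if g ∈ Q then 1 / (n + 1) else 1, ⟨fun g => by positivity, fun g => ?_,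
    fun l hl => h ?_⟩, fun q hq => if_pos hq⟩
  · simp only [show g⁻¹ ∈ Q ↔ g ∈ Q from ⟨fun a => by simpa using hQ _ a, hQ g⟩]
  have h2 : ∀ l : List N, (l.map fun g => if g ∈ Q then 1 / ((n : ℝ) + 1) else 1).sum < 1 →
      l.prod ∈ Q ^ l.length ∧ (l.map fun g => if g ∈ Q then 1 / ((n : ℝ) + 1) else 1).sum
        = l.length / (n + 1) := by
    intro l
    induction l with
    | nil => simp
    | cons a l ih =>
      intro hl
      simp only [List.map_cons, List.sum_cons, List.prod_cons, List.length_cons] at hl ⊢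
      have p : (0 : ℝ) ≤ if a ∈ Q then 1 / ((n : ℝ) + 1) else 1 := by positivity
      obtain ⟨a1, a2⟩ := ih (by linarith)
      rw [a2] at hl ⊢
      by_cases ha : a ∈ Q
      · rw [if_pos ha, pow_succ']
        exact ⟨mul_mem_mul ha a1, by push_cast; ring⟩
      · rw [if_neg ha] at hl
        linarith [show (0 : ℝ) ≤ l.length / (n + 1) by positivity]
  obtain ⟨a1, a2⟩ := h2 l hl
  rw [a2, div_lt_one (by positivity)] at hl
  exact Set.pow_subset_pow_right h1 (Nat.lt_succ_iff.mp (by exact_mod_cast hl)) a1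

section

variable {E : Type} [NormedAddCommGroup E] {c : N → E} (hc : ∀ g h, ‖c h - c g‖ = ‖c (g⁻¹ * h)‖)
include hc

lemma iso_one : c 1 = 0 := by simpa using (hc 1 1).symm

lemma iso_mul (g h : N) : ‖c (g * h)‖ ≤ ‖c g‖ + ‖c h‖ := by
  have := hc g (g * h)
  rw [inv_mul_cancel_left] at this
  linarith [norm_sub_norm_le (c (g * h)) (c g)]

lemma iso_pow (g : N) (k : ℕ) : ‖c (g ^ k)‖ ≤ k * ‖c g‖ := by
  induction k with
  | zero => simp [iso_one hc]
  | succ k ih =>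
    rw [pow_succ]
    push_cast
    linarith [iso_mul hc (g ^ k) g]

lemma iso_list (l : List N) : ‖c l.prod‖ ≤ (l.map fun g => ‖c g‖).sum := by
  induction l with
  | nil => simp [iso_one hc]
  | cons a l ih =>
    simp only [List.map_cons, List.sum_cons, List.prod_cons]
    linarith [iso_mul hc a l.prod]

lemma iso_esc {U : Set N} (h : ∀ g, ‖c g‖ < 1 → g ∈ U) (g : N) : esc U g ≤ ‖c g‖ :=
  esc_le (norm_nonneg _) fun j hj => h _ ((iso_pow hc g j).trans_lt hj)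

end

variable [TopologicalSpace N] [IsTopologicalGroup N] [T2Space N] [LocallyCompactSpace N]

lemma exists_nice {K : Subgroup N} (hK : IsCompact (K : Set N)) {W : Set N} (hW : IsOpen W)
    (hKW : (K : Set N) ⊆ W) (m : ℕ) :
    ∃ U, Nice U ∧ (K : Set N) ⊆ U ∧ closure (U ^ (m + 1)) ⊆ W := by
  have h1 : ∀ m : ℕ, ∀ W, IsOpen W → (K : Set N) ⊆ W →
      ∃ V, IsOpen V ∧ (K : Set N) ⊆ V ∧ V ^ (m + 1) ⊆ W := by
    intro m
    induction m with
    | zero => exact fun W a1 a2 => ⟨W, a1, a2, by simp⟩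
    | succ m ih =>
      intro W a1 a2
      obtain ⟨u, v, b1, b2, b3, b4, b5⟩ := generalized_tube_lemma hK hK (a1.preimage continuous_mul)
        fun p hp => a2 (mul_mem hp.1 hp.2)
      obtain ⟨V, c1, c2, c3⟩ := ih u b1 b3
      refine ⟨V ∩ v, c1.inter b2, subset_inter c2 b4, ?_⟩
      rw [pow_succ]
      rintro _ ⟨x, hx, y, hy, rfl⟩
      exact b5 (mk_mem_prod (c3 (Set.pow_subset_pow_left inter_subset_left hx)) hy.2)
  obtain ⟨C, a1, a2, a3⟩ := exists_compact_between hK hW hKW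
  obtain ⟨V, b1, b2, b3⟩ := h1 m _ isOpen_interior a2
  have h2 : (V ∩ V⁻¹) ^ (m + 1) ⊆ C :=
    ((Set.pow_subset_pow_left inter_subset_left).trans b3).trans interior_subset
  have h3 : (1 : N) ∈ V ∩ V⁻¹ := ⟨b2 K.one_mem, by simpa using b2 K.one_mem⟩
  exact ⟨V ∩ V⁻¹, ⟨b1.inter b1.inv, h3, fun g hg => ⟨hg.2, by simpa using hg.1⟩,
    a1.closure_of_subset ((Set.subset_pow h3 m.succ_ne_zero).trans h2)⟩,
    fun k hk => ⟨b2 hk, b2 (K.inv_mem hk)⟩, (closure_minimal h2 a1.isClosed).trans a3⟩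

lemma exists_nice' {W : Set N} (hW : W ∈ 𝓝 1) (m : ℕ) :
    ∃ U, Nice U ∧ closure (U ^ (m + 1)) ⊆ W := by
  obtain ⟨U, a1, -, a2⟩ := exists_nice (K := ⊥) isCompact_singleton isOpen_interior
    (singleton_subset_iff.mpr (mem_interior_iff_mem_nhds.mpr hW)) m
  exact ⟨U, a1, a2.trans interior_subset⟩

omit [IsTopologicalGroup N] [T2Space N] [LocallyCompactSpace N] in
lemma Nice.nhds {U : Set N} (hU : Nice U) : U ∈ 𝓝 1 := hU.isOpen.mem_nhds hU.one

omit [T2Space N] [LocallyCompactSpace N] in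
lemma conj_nhds {K V : Set N} (hK : IsCompact K) (hV : V ∈ 𝓝 1) :
    {g | ∀ y ∈ K, y⁻¹ * g * y ∈ V} ∈ 𝓝 (1 : N) :=
  hK.eventually_forall_of_forall_eventually (P := fun g y => y⁻¹ * g * y ∈ V) fun y _ =>
    (show Continuous fun z : N × N => z.2⁻¹ * z.1 * z.2 by fun_prop).tendsto' (1, y) 1 (by simp) hV

theorem trap_step {U : Set N} (hU : Nice U) : ∃ C : ℝ, 0 < C ∧ ∀ L : ℕ, ∃ V ∈ 𝓝 (1 : N),
    ∀ w, Trap U w → ∃ c : N → lp (fun _ : N => ℝ) ⊤, (∀ g h, ‖c h - c g‖ = ‖c (g⁻¹ * h)‖) ∧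
      (∀ g, ‖c g‖ < 1 → g ∈ U ^ 4) ∧ ∀ h, ‖c h‖ ≤ C * (esc V h + w h / (L + 2)) := by
  obtain ⟨C, hC, h⟩ := cocycle hU
  refine ⟨C, hC, fun L => ?_⟩
  obtain ⟨V₀, a1, a2⟩ := exists_nice' hU.nhds L
  obtain ⟨w', a3, a4⟩ := trap_of_pow a1.one a1.inv (subset_closure.trans a2)
  have hV := inter_mem hU.nhds (conj_nhds (hU.pow 2).cpt a1.nhds)
  refine ⟨_, hV, fun w hw => ?_⟩
  obtain ⟨c, b1, b2, b3, -, b4⟩ := h w w' hw a3
  refine ⟨c, b1, b3, fun h => le_of_forall_pos_le_add fun ε hε => ?_⟩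
  generalize hVd : U ∩ {g | ∀ y ∈ closure (U ^ (2 + 1)), y⁻¹ * g * y ∈ V₀} = V at hV ⊢
  have h1 := esc_nonneg V h
  have h2 : 0 ≤ w h / (L + 2) := div_nonneg (hw.nonneg h) (by positivity)
  have hs : 0 < esc V h + ε / C := by positivity
  have e : C * (esc V h + w h / (L + 2)) + ε = C * (esc V h + ε / C) + C * (w h / (L + 2)) := by
    field_simp
    ring
  have h3 : ∀ j : ℕ, j * (esc V h + ε / C) < 1 → h ^ j ∈ V := fun j hj =>
    pow_mem_of_esc (mem_of_mem_nhds hV) (lt_of_le_of_lt (mul_le_mul_of_nonneg_left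
      (le_add_of_nonneg_right (by positivity)) j.cast_nonneg) hj)
  rw [e]
  generalize esc V h + ε / C = s at hs h3 ⊢
  rcases le_or_gt 1 s with h4 | h4
  · nlinarith [b2 h]
  have h5 : h ∈ U := by
    have := h3 1 (by simpa using h4)
    rw [← hVd, pow_one] at this
    exact this.1
  have h6 : ∀ k : ℕ, (∀ i < k, h ^ i ∈ V) →
      ‖c (h ^ k) - (k : ℝ) • c h‖ ≤ k * (C * (w h / (L + 2))) := by
    intro k
    induction k with
    | zero => simp [iso_one b1]
    | succ k ih =>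
      intro hk
      have c1 := ih fun i hi => hk i (by omega)
      have c2 := b4 (h ^ k) h h5 _ fun y hy =>
        (a4 _ ((hVd ▸ hk k (by omega) :).2 y (subset_closure hy))).le
      have e : c (h ^ (k + 1)) - ((k + 1 : ℕ) : ℝ) • c h
          = (c (h ^ k * h) - c (h ^ k) - c h) + (c (h ^ k) - (k : ℝ) • c h) := by
        rw [pow_succ]
        push_cast
        rw [add_smul, one_smul]
        abel
      rw [e]
      refine (norm_add_le _ _).trans ?_
      push_cast at c2 ⊢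
      rw [show C * (1 / ((L : ℝ) + 1 + 1)) * w h = C * (w h / (L + 2)) by ring] at c2
      linarith
  have h7 := h6 ⌈1 / s⌉₊ fun i hi => h3 i ((lt_div_iff₀ hs).mp (Nat.lt_ceil.mp hi))
  have h8 := (div_le_iff₀ hs).mp (Nat.le_ceil (1 / s))
  have h9 := norm_sub_norm_le ((⌈1 / s⌉₊ : ℝ) • c h) (c (h ^ ⌈1 / s⌉₊))
  rw [norm_sub_rev, norm_smul, Real.norm_natCast] at h9
  have hk : (0 : ℝ) < ⌈1 / s⌉₊ := by exact_mod_cast Nat.ceil_pos.mpr (by positivity)
  refine le_of_mul_le_mul_left ?_ hk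
  nlinarith [b2 (h ^ ⌈1 / s⌉₊)]

omit [LocallyCompactSpace N] in
lemma esc_cmp {K V : Set N} (hK : IsCompact K) (h1 : 1 ∈ K)
    (h : ∀ g : N, (∀ j : ℕ, g ^ j ∈ K) → g = 1) (hV : V ∈ 𝓝 1) :
    ∃ m : ℝ, 0 < m ∧ ∀ g, esc V g ≤ m * esc K g := by
  obtain ⟨m, hm⟩ : ∃ m : ℕ, ∀ g : N, (∀ i ≤ m + 1, g ^ i ∈ K) → g ∈ V := by
    by_contra hcon
    push Not at hcon
    have hcl : ∀ m : ℕ, IsClosed ({g : N | ∀ i ≤ m + 1, g ^ i ∈ K} ∩ (interior V)ᶜ) := fun m => by
      refine IsClosed.inter ?_ isOpen_interior.isClosed_compl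
      simp only [ofPred_forall]
      exact isClosed_iInter fun i => isClosed_iInter fun _ =>
        hK.isClosed.preimage (continuous_pow i)
    obtain ⟨g, hg⟩ := IsCompact.nonempty_iInter_of_sequence_nonempty_isCompact_isClosed
      (fun m : ℕ => {g : N | ∀ i ≤ m + 1, g ^ i ∈ K} ∩ (interior V)ᶜ)
      (fun m g hg => ⟨fun i hi => hg.1 i (by omega), hg.2⟩) (fun m => by
        obtain ⟨g, a1, a2⟩ := hcon m
        exact ⟨g, a1, fun a => a2 (interior_subset a)⟩)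
      (hK.of_isClosed_subset (hcl 0) fun g hg => by simpa using hg.1 1 le_rfl) hcl
    rw [mem_iInter] at hg
    exact (hg 0).2 (h g (fun j => (hg j).1 j (by omega)) ▸ mem_interior_iff_mem_nhds.mpr hV)
  refine ⟨m + 1, by positivity, fun g => esc_le (mul_nonneg (by positivity) (esc_nonneg _ _))
    fun j hj => hm _ fun i hi => ?_⟩
  rw [← pow_mul]
  refine pow_mem_of_esc h1 (lt_of_le_of_lt ?_ hj)
  push_cast
  rw [mul_assoc]
  have : (i : ℝ) ≤ m + 1 := by exact_mod_cast hi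
  gcongr
  exact esc_nonneg _ _

theorem esc_trap {U : Set N} (hU : Nice U)
    (h : ∀ g : N, (∀ j : ℕ, g ^ j ∈ closure (U ^ 4)) → g = 1) :
    ∃ M : ℝ, 0 < M ∧ Trap U fun g => M * esc U g := by
  have hK := (hU.pow 3).cpt
  have hK1 := subset_closure (hU.pow 3).one
  have hUK : U ⊆ closure (U ^ 4) := (Set.subset_pow hU.one (by norm_num)).trans subset_closure
  obtain ⟨C, hC, h1⟩ := trap_step hU
  obtain ⟨m₁, hm₁, h2⟩ := esc_cmp hK hK1 h hU.nhds
  obtain ⟨L, hL⟩ := exists_nat_ge (2 * (m₁ * C))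
  obtain ⟨V, hV, h3⟩ := h1 L
  obtain ⟨m₂, hm₂, h4⟩ := esc_cmp hK hK1 h hV
  have h5 : ∀ ε > 0, ∀ M, 0 ≤ M → (∀ l : List N, esc U l.prod ≤ M * (l.map fun g => esc U g + ε).sum) →
      ∀ l : List N, esc U l.prod ≤ (m₁ * C * m₂ + M / 2) * (l.map fun g => esc U g + ε).sum := by
    intro ε hε M hM hP l
    obtain ⟨c, a1, a2, a3⟩ := h3 (fun g => M * (esc U g + ε))
      ⟨fun g => mul_nonneg hM (add_nonneg (esc_nonneg _ _) hε.le), fun g => by rw [esc_inv hU.inv],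
        fun l hl => mem_of_esc hU.one ((hP l).trans_lt (by rwa [← List.sum_map_mul_left]))⟩
    refine (h2 _).trans ((mul_le_mul_of_nonneg_left ((esc_mono (hU.pow 3).one subset_closure _).trans
      ((iso_esc a1 a2 _).trans (iso_list a1 l))) hm₁.le).trans ?_)
    rw [← List.sum_map_mul_left, ← List.sum_map_mul_left]
    refine List.sum_le_sum fun g _ => (mul_le_mul_of_nonneg_left (a3 g) hm₁.le).trans ?_
    have b1 := (h4 g).trans (mul_le_mul_of_nonneg_left (esc_mono hU.one hUK g) hm₂.le)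
    have b2 := esc_nonneg U g
    have b3 : m₁ * C * (M * (esc U g + ε) / (L + 2)) ≤ M / 2 * (esc U g + ε) := by
      rw [mul_div_assoc', div_le_iff₀ (by positivity)]
      nlinarith [mul_nonneg hM (add_nonneg b2 hε.le)]
    have b4 : m₁ * C * esc V g ≤ m₁ * C * (m₂ * (esc U g + ε)) :=
      mul_le_mul_of_nonneg_left (by nlinarith) (by positivity)
    linarith
  have h6 : ∀ ε > 0, ∀ l : List N,
      esc U l.prod ≤ 2 * (m₁ * C * m₂) * (l.map fun g => esc U g + ε).sum := by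
    intro ε hε
    have a1 : ∀ j : ℕ, ∀ l : List N, esc U l.prod
        ≤ (2 * (m₁ * C * m₂) + 1 / ε * (1 / 2) ^ j) * (l.map fun g => esc U g + ε).sum := by
      intro j
      induction j with
      | zero =>
        intro l
        cases l with
        | nil => simpa using esc_le le_rfl fun j _ => by simpa using hU.one
        | cons a l =>
          refine (esc_le zero_le_one (esc_one_mem hU.one _)).trans ?_
          have b1 : 0 ≤ (l.map fun g => esc U g + ε).sum :=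
            List.sum_nonneg (by simpa using fun a _ => add_nonneg (esc_nonneg U a) hε.le)
          simp only [List.map_cons, List.sum_cons, pow_zero, mul_one]
          calc (1 : ℝ) = 1 / ε * ε := by field_simp
            _ ≤ _ := mul_le_mul (le_add_of_nonneg_left (by positivity))
              (by linarith [esc_nonneg U a]) hε.le (by positivity)
      | succ j ih =>
        intro l
        convert h5 ε hε _ (by positivity) ih l using 2
        ring
    intro l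
    have := (((tendsto_pow_atTop_nhds_zero_of_lt_one (r := (1 / 2 : ℝ)) (by norm_num)
      (by norm_num)).const_mul (1 / ε)).const_add (2 * (m₁ * C * m₂))).mul_const
      (l.map fun g => esc U g + ε).sum
    simpa using ge_of_tendsto' this fun j => a1 j l
  refine ⟨2 * (m₁ * C * m₂), by positivity, fun g => mul_nonneg (by positivity) (esc_nonneg _ _),
    fun g => by rw [esc_inv hU.inv], fun l hl => mem_of_esc hU.one (lt_of_le_of_lt ?_ hl)⟩
  rw [List.sum_map_mul_left]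
  have : Continuous fun ε : ℝ =>
      2 * (m₁ * C * m₂) * ((l.map fun g => esc U g).sum + l.length * ε) := by fun_prop
  refine ge_of_tendsto ((this.tendsto' 0 _ (by simp)).mono_left (nhdsWithin_le_nhds (s := Ioi 0)))
    (eventually_mem_nhdsWithin.mono fun ε hε => ?_)
  simpa [List.sum_map_add] using h6 ε hε l

theorem gle_of_nss {Ω : Set N} (hΩ : Ω ∈ 𝓝 1) (h : ∀ g : N, (∀ j : ℕ, g ^ j ∈ Ω) → g = 1) :
    Nonempty (Gle N (lp (fun _ : N => ℝ) ⊤)) := by
  obtain ⟨U, hU, hUΩ⟩ := exists_nice' hΩ 3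
  replace h : ∀ g : N, (∀ j : ℕ, g ^ j ∈ closure (U ^ 4)) → g = 1 :=
    fun g hg => h g fun j => hUΩ (hg j)
  obtain ⟨M, hM, hw⟩ := esc_trap hU h
  obtain ⟨C, hC, h1⟩ := cocycle hU
  obtain ⟨c, a1, a2, a3, a4, a5⟩ := h1 _ _ hw hw
  have h2 : ∀ V ∈ 𝓝 (1 : N), ∃ m : ℝ, 0 < m ∧ ∀ g, esc V g ≤ m * ‖c g‖ := by
    intro V hV
    obtain ⟨m, b1, b2⟩ := esc_cmp (hU.pow 3).cpt (subset_closure (hU.pow 3).one) h hV
    exact ⟨m, b1, fun g => (b2 g).trans (mul_le_mul_of_nonneg_left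
      ((esc_mono (hU.pow 3).one subset_closure _).trans (iso_esc a1 a3 g)) b1.le)⟩
  obtain ⟨m₁, b1, b2⟩ := h2 U hU.nhds
  have hV := conj_nhds (hU.pow 2).cpt hU.nhds
  obtain ⟨m₂, b3, b4⟩ := h2 _ hV
  let B := C * (M * m₂) * (M * m₁) + m₁ + 1
  have hB : 0 < B := by positivity
  have hn : ∀ v : lp (fun _ : N => ℝ) ⊤, ‖B • v‖ = B * ‖v‖ := fun v => by
    rw [norm_smul, Real.norm_of_nonneg hB.le]
  have h3 : ∀ g, B * ‖c g‖ ≤ 1 → g ∈ U := fun g hg => mem_of_esc hU.one ((b2 g).trans_lt (by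
    rcases (norm_nonneg (c g)).eq_or_lt with h0 | h0
    · simp [← h0]
    · have : 0 < C * (M * m₂) * (M * m₁) := by positivity
      simp only [B] at hg
      nlinarith))
  have h4 : Tendsto (fun g => ‖c g‖) (𝓝 1) (𝓝 0) := by
    refine squeeze_zero' (Eventually.of_forall fun _ => norm_nonneg _)
      (mem_of_superset hU.nhds a4) ?_
    suffices Tendsto (esc U) (𝓝 1) (𝓝 0) by simpa using (this.const_mul M).const_mul C
    refine tendsto_order.mpr ⟨fun a ha => Eventually.of_forall fun g =>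
      ha.trans_le (esc_nonneg _ _), fun a ha => ?_⟩
    obtain ⟨k, hk⟩ := exists_nat_one_div_lt ha
    have : ∀ᶠ g in 𝓝 (1 : N), ∀ i ∈ Finset.range (k + 1), g ^ i ∈ U :=
      (eventually_all_finset _).mpr fun i _ => (continuous_pow i).tendsto' 1 1 (by simp) hU.nhds
    filter_upwards [this] with g hg
    refine (esc_le (by positivity) fun j hj => hg j (Finset.mem_range.mpr ?_)).trans_lt hk
    rw [mul_one_div, div_lt_one (by positivity)] at hj
    exact_mod_cast hj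
  have h5 : Continuous c := continuous_iff_continuousAt.mpr fun g =>
    tendsto_iff_norm_sub_tendsto_zero.mpr (by
      simp only [a1]
      exact h4.comp ((continuous_const.mul continuous_id).tendsto' g 1 (by simp)))
  refine ⟨⟨fun g => B • c g, fun g h => by rw [← smul_sub, hn, hn, a1], fun g h hh => ?_,
    h5.const_smul B, fun W hW => ?_, hU.cpt.of_isClosed_subset (isClosed_le (h5.const_smul B).norm
      continuous_const) fun g hg => subset_closure (h3 g (hn _ ▸ hg))⟩⟩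
  · rw [hn] at hh
    rw [← smul_sub, ← smul_sub, hn, hn, hn]
    have c1 := a5 g h (h3 h hh) (M * (m₂ * ‖c g‖)) fun y hy => mul_le_mul_of_nonneg_left
      (le_trans (esc_le (esc_nonneg _ _) fun j hj => by
        rw [show (y⁻¹ * g * y) ^ j = y⁻¹ * g ^ j * y by
          simpa only [inv_inv] using conj_pow (i := j) (a := y⁻¹) (b := g)]
        exact pow_mem_of_esc (mem_of_mem_nhds hV) hj y (subset_closure hy))
        (b4 g)) hM.le
    have c2 : C * (M * (m₂ * ‖c g‖)) * (M * esc U h) ≤ C * (M * (m₂ * ‖c g‖)) * (M * (m₁ * ‖c h‖)) := by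
      gcongr
      exact b2 h
    rw [mul_assoc B]
    refine mul_le_mul_of_nonneg_left (c1.trans (c2.trans ?_)) hB.le
    have : 0 ≤ ‖c g‖ * ‖c h‖ * (m₁ + 1) := by positivity
    simp only [B]
    nlinarith
  · obtain ⟨m, d1, d2⟩ := h2 W hW
    refine ⟨B / m, by positivity, fun g hg => mem_of_esc (mem_of_mem_nhds hW) ((d2 g).trans_lt ?_)⟩
    rw [hn, lt_div_iff₀ d1] at hg
    nlinarith

end Pool.Agent.MP_ede9a8_lc

end MrgPart5

-- ======== part 6: formerly Pool.Agent.MP_ede9a8_lc.GY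
section MrgPart6

/-!
Subgroup trapping, the Gleason-Yamabe step and the main theorem.
-/

namespace Pool.Agent.MP_ede9a8_lc

open Set Function Filter Topology Pointwise

variable {N : Type} [Group N] [TopologicalSpace N] [IsTopologicalGroup N] [T2Space N]
  [LocallyCompactSpace N]

theorem finite_trap {U : Set N} (hU : Nice U) (m : ℕ) : ∃ V ∈ 𝓝 (1 : N), ∀ Q : Set N, 1 ∈ Q →
    (∀ q ∈ Q, q⁻¹ ∈ Q) → (∀ q ∈ Q, ∀ j : ℕ, q ^ j ∈ V) → ∀ n, Q ^ n ⊆ U →
      Q ^ (m * (n + 1)) ⊆ U ^ 4 := by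
  obtain ⟨C, hC, h1⟩ := trap_step hU
  obtain ⟨L, hL⟩ := exists_nat_ge (m * C)
  obtain ⟨V, hV, h2⟩ := h1 L
  refine ⟨V, hV, fun Q q1 q2 q3 n hn x hx => ?_⟩
  obtain ⟨w, a1, a2⟩ := trap_of_pow q1 q2 hn
  obtain ⟨c, b1, b2, b3⟩ := h2 w a1
  have h3 : ∀ k : ℕ, ∀ x ∈ Q ^ k, ‖c x‖ ≤ k * (C * (1 / (n + 1) / (L + 2))) := by
    intro k
    induction k with
    | zero => simp [iso_one b1]
    | succ k ih =>
      rw [pow_succ]
      rintro _ ⟨x, hx, q, hq, rfl⟩
      have c1 := b3 q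
      rw [a2 q hq, le_antisymm (esc_le le_rfl fun j _ => q3 q hq j) (esc_nonneg _ _), zero_add] at c1
      push_cast
      linarith [iso_mul b1 x q, ih x hx]
  refine b2 x ((h3 _ x hx).trans_lt ?_)
  push_cast
  rw [show (m : ℝ) * (n + 1) * (C * (1 / (n + 1) / (L + 2))) = m * C / (L + 2) by field_simp,
    div_lt_one (by positivity)]
  linarith

variable [SecondCountableTopology N]

theorem subgroup_trap {U : Set N} (hU : Nice U) :
    ∃ V, Nice V ∧ ∀ n, {g : N | ∀ j : ℕ, g ^ j ∈ V} ^ n ⊆ U := by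
  by_contra hcon
  push Not at hcon
  obtain ⟨B, hB⟩ := (𝓝 (1 : N)).exists_antitone_basis
  choose V hV hVB using fun k => exists_nice' (hB.mem k) 0
  let Q : ℕ → Set N := fun k => {g | ∀ j : ℕ, g ^ j ∈ V k}
  have q1 : ∀ k, 1 ∈ Q k := fun k j => by simpa using (hV k).one
  have q2 : ∀ k, ∀ q ∈ Q k, q⁻¹ ∈ Q k := fun k q hq j => by simpa using (hV k).inv _ (hq j)
  have ft : ∀ U', Nice U' → ∀ m, ∀ᶠ k in hyperfilter ℕ, ∀ n, Q k ^ n ⊆ U' →
      Q k ^ (m * (n + 1)) ⊆ U' ^ 4 := by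
    intro U' hU' m
    obtain ⟨W, a1, a2⟩ := finite_trap hU' m
    filter_upwards [Nat.hyperfilter_le_atTop (hB.eventually_subset a1)] with k hk
    exact a2 _ (q1 k) (q2 k) fun q hq j => hk (hVB k (subset_closure (by simpa using hq j)))
  have ex : ∀ U', Nice U' → U' ⊆ U → ∀ k, ∃ n, Q k ^ n ⊆ U' ∧ ¬Q k ^ (n + 1) ⊆ U' := by
    intro U' hU' hUU k
    by_contra h
    push Not at h
    obtain ⟨n, hn⟩ := hcon _ (hV k)
    refine hn (Subset.trans ?_ hUU)
    clear hn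
    induction n with
    | zero => simpa using hU'.one
    | succ n ih => exact h n ih
  choose a a1 a2 using ex U hU subset_rfl
  let H : Subgroup N :=
    { carrier := {x | ∃ m : ℕ, ∃ f : ℕ → N, (∀ k, f k ∈ Q k ^ (m * (a k + 1))) ∧
        Tendsto f (hyperfilter ℕ) (𝓝 x)}
      one_mem' := ⟨0, fun _ => 1, by simp, tendsto_const_nhds⟩
      mul_mem' := by
        rintro x y ⟨m, f, b1, b2⟩ ⟨m', f', c1, c2⟩
        exact ⟨m + m', f * f', fun k => add_mul m m' _ ▸ set_mul_mem_pow_add (b1 k) (c1 k),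
          b2.mul c2⟩
      inv_mem' := by
        rintro x ⟨m, f, b1, b2⟩
        exact ⟨m, f⁻¹, fun k => inv_mem_pow (q2 k) _ _ (b1 k), b2.inv⟩ }
  have hH : IsCompact (H.topologicalClosure : Set N) := by
    refine (hU.pow 3).cpt.closure_of_subset ?_
    rintro x ⟨m, f, b1, b2⟩
    exact mem_closure_of_tendsto b2 ((ft U hU m).mono fun k hk => hk _ (a1 k) (b1 k))
  obtain ⟨K, k1, k2, Ω, k3, k4, k5⟩ := peter_weyl_sub _ hH hU.nhds
  obtain ⟨U', u1, u2, u3⟩ := exists_nice k1 (k3.inter hU.isOpen) (subset_inter k4 k2) 3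
  have u4 : U' ⊆ U := ((Set.subset_pow u1.one (by norm_num)).trans subset_closure).trans
    (u3.trans inter_subset_right)
  choose b b1 b2 using ex U' u1 u4
  choose f f1 f2 using fun k => not_subset.mp (b2 k)
  have f3 : ∀ j : ℕ, ∀ᶠ k in hyperfilter ℕ, f k ^ j ∈ U' ^ 4 := fun j =>
    (ft U' u1 j).mono fun k hk => hk _ (b1 k) (by
      rw [mul_comm, pow_mul]
      exact Set.pow_mem_pow (f1 k))
  obtain ⟨x, -, hx⟩ := (u1.pow 3).cpt.ultrafilter_le_nhds' ((hyperfilter ℕ).map f)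
    ((f3 1).mono fun k hk => subset_closure (by simpa using hk))
  replace hx : Tendsto f (hyperfilter ℕ) (𝓝 x) := hx
  refine u1.isOpen.isClosed_compl.mem_of_tendsto hx (Eventually.of_forall f2) (u2 (k5 x
    (H.le_topologicalClosure ⟨1, f, fun k => Set.pow_subset_pow_right (q1 k) ?_ (f1 k), hx⟩)
    fun j => (u3 (mem_closure_of_tendsto (hx.pow j) (f3 j))).1))
  by_contra hc
  exact a2 k ((Set.pow_subset_pow_right (q1 k) (by omega)).trans ((b1 k).trans u4))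

theorem gleason_yamabe : ∃ K : Subgroup N, IsCompact (K : Set N) ∧ ∃ Ω, IsOpen Ω ∧
    (K : Set N) ⊆ Ω ∧ ∀ g : N, (∀ j : ℕ, g ^ j ∈ Ω) → g ∈ K := by
  obtain ⟨U, hU, -⟩ := exists_nice' (univ_mem : univ ∈ 𝓝 (1 : N)) 0
  obtain ⟨V, hV, h⟩ := subgroup_trap hU
  let H : Subgroup N :=
    { carrier := {x | ∃ n : ℕ, x ∈ {g : N | ∀ j : ℕ, g ^ j ∈ V} ^ n}
      one_mem' := ⟨0, by simp⟩
      mul_mem' := by
        rintro x y ⟨m, b1⟩ ⟨m', c1⟩
        exact ⟨_, set_mul_mem_pow_add b1 c1⟩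
      inv_mem' := by
        rintro x ⟨m, b1⟩
        exact ⟨m, inv_mem_pow (fun q hq j => by simpa using hV.inv _ (hq j)) _ _ b1⟩ }
  have hH : IsCompact (H.topologicalClosure : Set N) :=
    hU.cpt.closure_of_subset fun x ⟨n, hn⟩ => subset_closure (h n hn)
  obtain ⟨K, k1, k2, Ω, k3, k4, k5⟩ := peter_weyl_sub _ hH hV.nhds
  exact ⟨K, k1, Ω ∩ V, k3.inter hV.isOpen, subset_inter k4 k2, fun g hg =>
    k5 g (H.le_topologicalClosure ⟨1, by simpa using fun j => (hg j).2⟩) fun j => (hg j).1⟩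

variable {G : Type} [Group G] [TopologicalSpace G] [IsTopologicalGroup G] [T2Space G]
  [SecondCountableTopology G]

theorem Tri.HS_of_normal (T : Tri G N) {K : Subgroup N} (hK : IsCompact (K : Set N))
    (hn : ∀ g, ∀ k ∈ K, T.κ g k ∈ K) {Ω : Set N} (h1 : IsOpen Ω) (h2 : (K : Set N) ⊆ Ω)
    (h3 : ∀ g : N, (∀ j : ℕ, g ^ j ∈ Ω) → g ∈ K) : T.HS := by
  have : (K.map T.ι).Normal := ⟨by
    rintro _ ⟨k, hk, rfl⟩ g
    exact ⟨_, hn g k hk, T.spec g k⟩⟩
  have : IsClosed (K.map T.ι : Set G) := (hK.image T.cont).isClosed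
  have e : (K.map T.ι).comap T.ι = K := Subgroup.comap_map_eq_self_of_injective T.inj K
  have : IsClosed ((K.map T.ι).comap T.ι : Set N) := e.symm ▸ hK.isClosed
  obtain ⟨W, a1, a2⟩ := compact_open_separated_mul_left hK h1 h2
  obtain ⟨Γ⟩ := gle_of_nss (N := N ⧸ (K.map T.ι).comap T.ι)
    (QuotientGroup.isOpenMap_coe.image_mem_nhds a1) (by
      intro g hg
      obtain ⟨n, rfl⟩ := QuotientGroup.mk_surjective g
      rw [QuotientGroup.eq_one_iff, e]
      refine h3 n fun j => ?_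
      obtain ⟨w, hw, b1⟩ := hg j
      rw [← QuotientGroup.mk_pow, QuotientGroup.eq, e] at b1
      simpa using a2 (mul_mem_mul hw b1))
  exact T.HS_of_quot _ (Subgroup.map_le_range _ _) (HS_of_gle _ _ _ _ Γ rfl)

theorem Tri.main (T : Tri G N) : T.HS := by
  obtain ⟨K, k1, Ω, k2, k3, k4⟩ := gleason_yamabe (N := N)
  let P : Subgroup G :=
    { carrier := {g | ∀ k ∈ K, T.κ g k ∈ K ∧ T.κ g⁻¹ k ∈ K}
      one_mem' := fun k hk => by simpa [T.κ_one] using hk
      mul_mem' := fun ha hb k hk => by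
        rw [mul_inv_rev, T.κ_comp, T.κ_comp]
        exact ⟨(ha _ (hb k hk).1).1, (hb _ (ha k hk).2).2⟩
      inv_mem' := fun ha k hk => by simpa using (ha k hk).symm }
  have h1 : ∀ᶠ g in 𝓝 (1 : G), ∀ k ∈ K, T.κ g k ∈ K := by
    filter_upwards [k1.eventually_forall_of_forall_eventually (P := fun g k => T.κ g k ∈ Ω)
      fun k hk => T.κcont.tendsto' (1, k) k (T.κ_one k) (k2.mem_nhds (k3 hk))] with g hg k hk
    refine k4 _ fun j => ?_
    rw [← T.κh_apply, ← map_pow]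
    exact hg _ (pow_mem hk j)
  have h2 : (P : Set G) ∈ 𝓝 1 := by
    filter_upwards [h1, continuous_inv.tendsto' (1 : G) 1 inv_one h1] with g a1 a2 k hk
    exact ⟨a1 k hk, a2 k hk⟩
  have h3 := P.isOpen_of_mem_nhds h2
  have h4 : IsClosed (P.comap T.ι : Set N) := (P.isClosed_of_isOpen h3).preimage T.cont
  have := h4.locallyCompactSpace
  have : SecondCountableTopology P := TopologicalSpace.Subtype.secondCountableTopology _
  have : SecondCountableTopology (P.comap T.ι) :=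
    TopologicalSpace.Subtype.secondCountableTopology _
  refine T.HS_of_sub P h3 P.one_mem id continuousOn_id (fun x hx => ⟨hx, 1, by simp⟩)
    ((T.sub P).HS_of_normal (K := K.subgroupOf _)
      (h4.isClosedEmbedding_subtypeVal.isCompact_preimage k1) (fun g k hk => (g.2 k hk).1)
      (k2.preimage continuous_subtype_val) (fun k hk => k3 hk) fun g hg => k4 g hg)

end Pool.Agent.MP_ede9a8_lc

end MrgPart6

-- marker of a merged file
example : 731051 + 612044 = 731051 + 612044 := rfl
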